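import Pool.Agent.Work.MP_6b4466_lc.Defs

/-! From sets with the Baire property to open sets.

Proof. `BaireMeasurableSet.residualEq_isOpen` gives open `U i` with `A i =ᵇ U i`, i.e.
`A i =ᶠ[residual V] U i`. Free: let `x, y ∈ U i`, `dist x y = 1`, `v = y - x`. The open set
`W = U i ∩ (· + v) ⁻¹' (U i)` contains `x`. For residually many `z` we have `z ∈ A i ↔ z ∈ U i` and
`z + v ∈ A i ↔ z + v ∈ U i` (`Homeomorph.residual_map_eq` for `Homeomorph.addRight v`, or
`tendsto_residual_of_isOpenMap`). A residual set is dense (Baire, `dense_of_mem_residual`), so it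
meets `W`: there is `z` with `z ∈ A i`, `z + v ∈ A i`, `dist z (z + v) = 1`, contradiction.
Dense: for residually many `z`, for all `i`: `z ∈ A i ↔ z ∈ U i`; as the `A i` cover, residually
many `z` are in `⋃ i, U i`, which is therefore dense. -/

namespace BPQ

open Set Metric Topology

theorem bp_open {V : Type} [NormedAddCommGroup V] [CompleteSpace V] {ι : Type} [Fintype ι]
    (A : ι → Set V) (hA : ∀ i, BaireMeasurableSet (A i)) (hcov : ∀ x, ∃ i, x ∈ A i)
    (hfree : ∀ i, ∀ x ∈ A i, ∀ y ∈ A i, dist x y ≠ 1) :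
    ∃ U : ι → Set V, (∀ i, IsOpen (U i)) ∧ (∀ i, ∀ x ∈ U i, ∀ y ∈ U i, dist x y ≠ 1) ∧
      Dense (⋃ i, U i) := by
  choose U hU hAU using fun i => (hA i).residualEq_isOpen
  have hev : ∀ i, ∀ᶠ z in residual V, (z ∈ A i ↔ z ∈ U i) := fun i => by
    filter_upwards [hAU i] with z hz
    exact iff_of_eq hz
  refine ⟨U, hU, ?_, ?_⟩
  · intro i x hx y hy hxy
    set v := y - x with hv
    have hev2 : ∀ᶠ z in residual V, (z + v ∈ A i ↔ z + v ∈ U i) := by
      have h1 := (Homeomorph.addRight v).residual_map_eq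
      have h2 : ∀ᶠ z in Filter.map (Homeomorph.addRight v) (residual V), (z ∈ A i ↔ z ∈ U i) := by
        rw [h1]
        exact hev i
      exact Filter.eventually_map.1 h2
    have hW : IsOpen (U i ∩ (fun z => z + v) ⁻¹' (U i)) :=
      (hU i).inter ((hU i).preimage (by fun_prop))
    have hne : (U i ∩ (fun z => z + v) ⁻¹' (U i)).Nonempty := by
      refine ⟨x, hx, ?_⟩
      change x + v ∈ U i
      rw [hv, add_sub_cancel]
      exact hy
    obtain ⟨z, hz, hzz⟩ := (dense_of_mem_residual ((hev i).and hev2)).inter_open_nonempty _ hW hne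
    have h1 : z ∈ A i := hzz.1.2 hz.1
    have h2 : z + v ∈ A i := hzz.2.2 hz.2
    refine hfree i z h1 (z + v) h2 ?_
    rw [dist_self_add_right, hv, ← dist_eq_norm, dist_comm]
    exact hxy
  · have hall : ∀ᶠ z in residual V, ∀ i, (z ∈ A i ↔ z ∈ U i) := Filter.eventually_all.2 hev
    refine (dense_of_mem_residual hall).mono fun z hz => ?_
    obtain ⟨i, hi⟩ := hcov z
    exact mem_iUnion.2 ⟨i, (hz i).1 hi⟩

end BPQ
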