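import Pool.Agent.Work.MP_6b4466_lc.Defs

/-! From sets with the Baire property, covering a comeagre set, to open sets, when only the
differences in a set `D` whose closure contains the unit sphere are excluded. -/

namespace BPQ

open Set Metric Topology

theorem bp_openD {V : Type} [NormedAddCommGroup V] [CompleteSpace V] (D : Set V)
    (hD : sphere (0 : V) 1 ⊆ closure D) {ι : Type} [Fintype ι]
    (A : ι → Set V) (hA : ∀ i, BaireMeasurableSet (A i))
    (hcov : ∀ᶠ x in residual V, ∃ i, x ∈ A i)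
    (hfree : ∀ i, ∀ x ∈ A i, ∀ y ∈ A i, y - x ∉ D) :
    ∃ U : ι → Set V, (∀ i, IsOpen (U i)) ∧ (∀ i, ∀ x ∈ U i, ∀ y ∈ U i, dist x y ≠ 1) ∧
      Dense (⋃ i, U i) := by
  choose U hU hAU using fun i => (hA i).residualEq_isOpen
  have hev : ∀ i, ∀ᶠ z in residual V, (z ∈ A i ↔ z ∈ U i) := fun i => by
    filter_upwards [hAU i] with z hz
    exact iff_of_eq hz
  refine ⟨U, hU, ?_, ?_⟩
  · intro i x hx y hy hxy
    -- a difference in `D` close to `y - x`
    obtain ⟨v, hvD, hvU⟩ : ∃ v ∈ D, x + v ∈ U i := by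
      have h1 : y - x ∈ closure D := by
        refine hD ?_
        rw [mem_sphere_zero_iff_norm, ← dist_eq_norm, dist_comm]
        exact hxy
      have h2 : IsOpen {v : V | x + v ∈ U i} := (hU i).preimage (by fun_prop)
      obtain ⟨v, hv1, hv2⟩ := mem_closure_iff.1 h1 _ h2 (by
        change x + (y - x) ∈ U i
        rw [add_sub_cancel]
        exact hy)
      exact ⟨v, hv2, hv1⟩
    have hev2 : ∀ᶠ z in residual V, (z + v ∈ A i ↔ z + v ∈ U i) := by
      have h1 := (Homeomorph.addRight v).residual_map_eq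
      have h2 : ∀ᶠ z in Filter.map (Homeomorph.addRight v) (residual V), (z ∈ A i ↔ z ∈ U i) := by
        rw [h1]
        exact hev i
      exact Filter.eventually_map.1 h2
    have hW : IsOpen (U i ∩ (fun z => z + v) ⁻¹' (U i)) :=
      (hU i).inter ((hU i).preimage (by fun_prop))
    have hne : (U i ∩ (fun z => z + v) ⁻¹' (U i)).Nonempty := ⟨x, hx, hvU⟩
    obtain ⟨z, hz, hzz⟩ := (dense_of_mem_residual ((hev i).and hev2)).inter_open_nonempty _ hW hne
    have h1 : z ∈ A i := hzz.1.2 hz.1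
    have h2 : z + v ∈ A i := hzz.2.2 hz.2
    refine hfree i z h1 (z + v) h2 ?_
    rw [add_sub_cancel_left]
    exact hvD
  · have hall : ∀ᶠ z in residual V, ∀ i, (z ∈ A i ↔ z ∈ U i) := Filter.eventually_all.2 hev
    refine (dense_of_mem_residual (hall.and hcov)).mono fun z hz => ?_
    obtain ⟨i, hi⟩ := hz.2
    exact mem_iUnion.2 ⟨i, (hz.1 i).1 hi⟩

end BPQ
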