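import Pool.Agent.Work.MP_6b4466_lc.Defs

/-! A compact set which is a countable union of closed totally disconnected sets is totally
disconnected.

Proof. Let `C ⊆ T` be preconnected; its closure `K` is preconnected, compact and contained in `T`.
If `K` is nonempty, by Baire's theorem for the compact (complete) space `K` (subtype) some
`E m ∩ K` has nonempty interior in `K` (`nonempty_interior_of_iUnion_of_closed`): there are
`p ∈ K` and `ε > 0` with `K ∩ closedBall p ε ⊆ E m`. The set `A = K ∩ closedBall p ε` is compact and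
totally disconnected (contained in `T ∩ E m`), so its clopen subsets form a basis
(`loc_compact_Haus_tot_disc_of_zero_dim` or `compact_exists_isClopen_in_isOpen` in the subtype):
there is `Q ⊆ A` relatively clopen in `A` with `p ∈ Q ⊆ ball p ε`. `Q` is closed in `X`, and it is
open in `K` since `Q = O ∩ A` with `O` open, so `Q = (O ∩ ball p ε) ∩ K`. As `K` is preconnected,
`K ⊆ Q` (`IsPreconnected.subset_of_closure_inter_subset`, `isPreconnected_iff_subset_of_disjoint_closed`
or work in the subtype with `PreconnectedSpace` and `IsClopen.eq_univ`). So `K ⊆ T ∩ E m` is a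
subsingleton. -/

namespace BPQ

open Set Metric Topology

theorem td_iUnion {X : Type} [MetricSpace X] {T : Set X} (hT : IsCompact T) (E : ℕ → Set X)
    (hE : ∀ m, IsClosed (E m)) (hcov : T ⊆ ⋃ m, E m)
    (htd : ∀ m, IsTotallyDisconnected (T ∩ E m)) : IsTotallyDisconnected T := by
  intro C hCT hC
  have hKT : closure C ⊆ T := closure_minimal hCT hT.isClosed
  have hKc : IsCompact (closure C) := hT.of_isClosed_subset isClosed_closure hKT
  have hKp : IsPreconnected (closure C) := hC.closure
  suffices h : (closure C).Subsingleton from h.anti subset_closure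
  generalize closure C = K at hKT hKc hKp
  rcases K.eq_empty_or_nonempty with hKe | hKne
  · rw [hKe]
    exact subsingleton_empty
  have : CompactSpace K := isCompact_iff_compactSpace.1 hKc
  have : PreconnectedSpace K := isPreconnected_iff_preconnectedSpace.1 hKp
  have : Nonempty K := hKne.to_subtype
  obtain ⟨m, p, hp⟩ := nonempty_interior_of_iUnion_of_closed
    (f := fun m => ((↑) : K → X) ⁻¹' (E m)) (fun m => (hE m).preimage continuous_subtype_val)
    (by
      refine eq_univ_of_forall fun x => ?_
      obtain ⟨m, hm⟩ := mem_iUnion.1 (hcov (hKT x.2))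
      exact mem_iUnion.2 ⟨m, hm⟩)
  obtain ⟨A, hAc, hpA, hAs⟩ := exists_compact_subset isOpen_interior hp
  have hAE : ∀ a ∈ A, (a : X) ∈ E m := fun a ha =>
    interior_subset (s := ((↑) : K → X) ⁻¹' (E m)) (hAs ha)
  have : CompactSpace A := isCompact_iff_compactSpace.1 hAc
  have : TotallyDisconnectedSpace A := by
    refine ⟨fun t _ ht => ?_⟩
    have h1 : IsPreconnected ((fun a : A => ((a : K) : X)) '' t) :=
      ht.image _ (continuous_subtype_val.comp continuous_subtype_val).continuousOn
    have h2 := htd m _ (by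
      rintro _ ⟨a, -, rfl⟩
      exact ⟨hKT (a : K).2, hAE _ a.2⟩) h1
    intro x hx y hy
    have := h2 (mem_image_of_mem _ hx) (mem_image_of_mem _ hy)
    exact Subtype.ext (Subtype.ext this)
  obtain ⟨Q, hQ, hpQ, hQs⟩ := compact_exists_isClopen_in_isOpen
    (x := (⟨p, interior_subset hpA⟩ : A)) (U := ((↑) : A → K) ⁻¹' interior A)
    (isOpen_interior.preimage continuous_subtype_val) hpA
  have hQ' : IsClopen (((↑) : A → K) '' Q) := by
    refine ⟨(hAc.isClosed.isClosedEmbedding_subtypeVal.isClosed_iff_image_isClosed).1 hQ.1, ?_⟩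
    obtain ⟨O, hO, hOQ⟩ := isOpen_induced_iff.1 hQ.2
    have : ((↑) : A → K) '' Q = interior A ∩ O := by
      ext x
      constructor
      · rintro ⟨a, ha, rfl⟩
        refine ⟨hQs ha, ?_⟩
        rw [← hOQ] at ha
        exact ha
      · rintro ⟨hx1, hx2⟩
        refine ⟨⟨x, interior_subset hx1⟩, ?_, rfl⟩
        rw [← hOQ]
        exact hx2
    rw [this]
    exact isOpen_interior.inter hO
  have huniv := hQ'.eq_univ ⟨p, ⟨p, interior_subset hpA⟩, hpQ, rfl⟩
  refine htd m K (fun x hx => ⟨hKT hx, ?_⟩) hKp
  have : (⟨x, hx⟩ : K) ∈ ((↑) : A → K) '' Q := by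
    rw [huniv]
    exact mem_univ _
  obtain ⟨a, -, ha⟩ := this
  have h3 := hAE _ a.2
  rw [ha] at h3
  exact h3

end BPQ
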