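import Pool.Agent.Work.MP_6b4466_lc.Defs
import Pool.Agent.Work.MP_089002_mp.Topo

/-! Consequences of Brouwer's theorem.

`brouwer_ball`: scale `Pool.Agent.Work.MP_089002_mp.brouwer_cont` (unit ball); `R = 0` is trivial.

`surj_ball`: apply `brouwer_ball` to `T x = y + x - g x`; `‖T x‖ ≤ ‖y‖ + ‖g x - x‖ ≤ R`.

`surj_sphere`: if the sphere is empty then `V` is trivial (or use that `u ≠ 0`, so
`(r / ‖u‖) • u` is on the sphere). `M = sup ‖g‖`, `c = inf inner (g x) x > 0` on the compact sphere.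
Put `G 0 = 0`, `G y = ‖y‖ • g ((r / ‖y‖) • y)`; `G` is continuous, `‖G y‖ ≤ M ‖y‖` and
`inner (G y) y = (‖y‖ ^ 2 / r) inner (g x) x ≥ (c / r) ‖y‖ ^ 2` with `x = (r / ‖y‖) • y`.
Normalise `u` to `‖u‖ = 1` (change `t`). Let `c₁ = c / r`, `R = 4 / c₁`, `B = M R + 1` and
`T y = y - τ • (G y - u)` with `0 < τ ≤ R / (2 B)` and `τ B ^ 2 ≤ R`. For `‖y‖ ≤ R / 2` we have
`‖T y‖ ≤ R / 2 + τ B ≤ R`; for `R / 2 ≤ ‖y‖ ≤ R` we have
`‖T y‖² ≤ ‖y‖² - 2 τ (c₁ ‖y‖² - ‖y‖) + τ² B² ≤ R² - 2 τ (R / 2) + τ² B² ≤ R²`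
(because `c₁ ‖y‖² - ‖y‖ = ‖y‖ (c₁ ‖y‖ - 1) ≥ ‖y‖ ≥ R / 2`). So `T` has a fixed point `y` in the
ball, `G y = u`, `y ≠ 0`, `g x = (1 / ‖y‖) • u`. -/

namespace BPQ

open Set Metric Topology
open scoped RealInnerProductSpace

variable {V : Type} [NormedAddCommGroup V] [InnerProductSpace ℝ V] [FiniteDimensional ℝ V]

theorem brouwer_ball (R : ℝ) (hR : 0 ≤ R) (T : V → V) (hT : ContinuousOn T (closedBall 0 R))
    (hm : ∀ x ∈ closedBall (0 : V) R, T x ∈ closedBall (0 : V) R) :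
    ∃ x ∈ closedBall (0 : V) R, T x = x := by
  rcases hR.eq_or_lt with rfl | hR0
  · refine ⟨0, mem_closedBall_self le_rfl, ?_⟩
    have := hm 0 (mem_closedBall_self le_rfl)
    rwa [closedBall_zero] at this
  have hsc : ∀ x ∈ closedBall (0 : V) 1, R • x ∈ closedBall (0 : V) R := by
    intro x hx
    rw [mem_closedBall_zero_iff] at hx ⊢
    rw [norm_smul, Real.norm_of_nonneg hR0.le]
    nlinarith
  obtain ⟨x, hx, hxe⟩ := Pool.Agent.Work.MP_089002_mp.brouwer_cont
    (h := fun x : V => R⁻¹ • T (R • x)) ((hT.comp (by fun_prop) hsc).const_smul R⁻¹) (by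
      intro x hx
      have h1 := hm _ (hsc x hx)
      rw [mem_closedBall_zero_iff] at h1
      rw [norm_smul, Real.norm_of_nonneg (inv_nonneg.2 hR0.le)]
      have h2 := mul_le_mul_of_nonneg_left h1 (inv_nonneg.2 hR0.le)
      rwa [inv_mul_cancel₀ hR0.ne'] at h2)
  refine ⟨R • x, hsc x hx, ?_⟩
  have h3 : R • (R⁻¹ • T (R • x)) = R • x := congrArg (fun y => R • y) hxe
  rwa [smul_smul, mul_inv_cancel₀ hR0.ne', one_smul] at h3

theorem surj_ball (R ρ : ℝ) (hρ : 0 ≤ ρ) (hR : ρ ≤ R) (g : V → V)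
    (hg : ContinuousOn g (closedBall 0 R)) (h : ∀ x ∈ closedBall (0 : V) R, dist (g x) x ≤ ρ)
    (y : V) (hy : ‖y‖ ≤ R - ρ) : ∃ x ∈ closedBall (0 : V) R, g x = y := by
  obtain ⟨x, hx, hxe⟩ := brouwer_ball R (hρ.trans hR) (fun x => y + (x - g x))
    (continuousOn_const.add (continuousOn_id.sub hg)) (by
      intro x hx
      rw [mem_closedBall_zero_iff]
      have h1 := norm_add_le y (x - g x)
      have h2 := h x hx
      rw [dist_comm, dist_eq_norm] at h2
      linarith)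
  refine ⟨x, hx, ?_⟩
  have h3 : y + (x - g x) = x := hxe
  have h4 : y - g x = 0 := by
    have : y + (x - g x) - x = 0 := by rw [h3, sub_self]
    rw [← this]
    abel
  exact (sub_eq_zero.1 h4).symm

omit [FiniteDimensional ℝ V] in
private theorem hom_ext {r : ℝ} (hr : 0 < r) {g : V → V} (hg : ContinuousOn g (sphere 0 r))
    {M : ℝ} (hM : ∀ x ∈ sphere (0 : V) r, ‖g x‖ ≤ M) :
    Continuous fun y : V => ‖y‖ • g ((r / ‖y‖) • y) := by
  have hmem : ∀ y : V, y ≠ 0 → (r / ‖y‖) • y ∈ sphere (0 : V) r := by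
    intro y hy
    have : 0 < ‖y‖ := norm_pos_iff.2 hy
    rw [mem_sphere_zero_iff_norm, norm_smul, Real.norm_of_nonneg (by positivity)]
    field_simp
  rw [continuous_iff_continuousAt]
  intro y
  by_cases hy : y = 0
  · subst hy
    have hb : ∀ z : V, ‖‖z‖ • g ((r / ‖z‖) • z)‖ ≤ |M| * ‖z‖ := by
      intro z
      by_cases hz : z = 0
      · subst hz
        simp
      · rw [norm_smul, norm_norm, mul_comm]
        exact mul_le_mul_of_nonneg_right ((hM _ (hmem z hz)).trans (le_abs_self M)) (norm_nonneg z)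
    have h0 : ‖(0 : V)‖ • g ((r / ‖(0 : V)‖) • (0 : V)) = 0 := by simp
    change Filter.Tendsto _ _ (𝓝 (‖(0 : V)‖ • g ((r / ‖(0 : V)‖) • (0 : V))))
    rw [h0, tendsto_zero_iff_norm_tendsto_zero]
    refine squeeze_zero (fun z => norm_nonneg _) hb ?_
    have h1 : Filter.Tendsto (fun z : V => |M| * ‖z‖) (𝓝 0) (𝓝 (|M| * ‖(0 : V)‖)) :=
      (continuous_const.mul continuous_norm).tendsto 0
    simpa using h1
  · have hU : ContinuousOn (fun y : V => ‖y‖ • g ((r / ‖y‖) • y)) {y : V | y ≠ 0} := by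
      refine continuousOn_id.norm.smul (hg.comp ?_ hmem)
      refine ContinuousOn.smul (continuousOn_const.div continuousOn_id.norm ?_) continuousOn_id
      intro z hz
      exact norm_ne_zero_iff.2 hz
    exact hU.continuousAt (isOpen_ne.mem_nhds hy)

theorem surj_sphere (r : ℝ) (hr : 0 < r) (g : V → V) (hg : ContinuousOn g (sphere 0 r))
    (h : ∀ x ∈ sphere (0 : V) r, 0 < ⟪g x, x⟫) (u : V) (hu : u ≠ 0) :
    ∃ x ∈ sphere (0 : V) r, ∃ t : ℝ, 0 < t ∧ g x = t • u := by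
  have hun : 0 < ‖u‖ := norm_pos_iff.2 hu
  have hmem : ∀ y : V, y ≠ 0 → (r / ‖y‖) • y ∈ sphere (0 : V) r := by
    intro y hy
    have : 0 < ‖y‖ := norm_pos_iff.2 hy
    rw [mem_sphere_zero_iff_norm, norm_smul, Real.norm_of_nonneg (by positivity)]
    field_simp
  have hne : (sphere (0 : V) r).Nonempty := ⟨_, hmem u hu⟩
  have hK : IsCompact (sphere (0 : V) r) := isCompact_sphere 0 r
  obtain ⟨xM, hxM, hM⟩ := hK.exists_isMaxOn hne hg.norm
  obtain ⟨xc, hxc, hc⟩ := hK.exists_isMinOn hne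
    (f := fun x => ⟪g x, x⟫) (ContinuousOn.inner (𝕜 := ℝ) hg continuousOn_id)
  set M : ℝ := ‖g xM‖ with hMdef
  set c : ℝ := ⟪g xc, xc⟫ with hcdef
  have hc0 : 0 < c := h xc hxc
  have hM' : ∀ x ∈ sphere (0 : V) r, ‖g x‖ ≤ M := fun x hx => hM hx
  have hc' : ∀ x ∈ sphere (0 : V) r, c ≤ ⟪g x, x⟫ := fun x hx => hc hx
  have hM0 : 0 ≤ M := norm_nonneg _
  set G : V → V := fun y => ‖y‖ • g ((r / ‖y‖) • y) with hG
  have hGc : Continuous G := hom_ext hr hg hM'
  have hGn : ∀ y : V, ‖G y‖ ≤ M * ‖y‖ := by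
    intro y
    by_cases hy : y = 0
    · subst hy
      simp [hG]
    · rw [hG]
      change ‖‖y‖ • g ((r / ‖y‖) • y)‖ ≤ _
      rw [norm_smul, norm_norm, mul_comm]
      exact mul_le_mul_of_nonneg_right (hM' _ (hmem y hy)) (norm_nonneg y)
  set c₁ : ℝ := c / r with hc₁
  have hc₁0 : 0 < c₁ := div_pos hc0 hr
  have hGi : ∀ y : V, c₁ * ‖y‖ ^ 2 ≤ ⟪G y, y⟫ := by
    intro y
    by_cases hy : y = 0
    · subst hy
      simp
    · have hy0 : 0 < ‖y‖ := norm_pos_iff.2 hy
      have h1 := hc' _ (hmem y hy)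
      rw [real_inner_smul_right] at h1
      change _ ≤ ⟪‖y‖ • g ((r / ‖y‖) • y), y⟫
      rw [real_inner_smul_left]
      have h2 : c * ‖y‖ / r ≤ ⟪g ((r / ‖y‖) • y), y⟫ := by
        rw [div_le_iff₀ hr]
        have h3 := mul_le_mul_of_nonneg_right h1 hy0.le
        have h4 : r / ‖y‖ * ⟪g ((r / ‖y‖) • y), y⟫ * ‖y‖ = ⟪g ((r / ‖y‖) • y), y⟫ * r := by
          field_simp
        linarith
      have h5 := mul_le_mul_of_nonneg_left h2 hy0.le
      have h6 : c₁ * ‖y‖ ^ 2 = ‖y‖ * (c * ‖y‖ / r) := by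
        rw [hc₁]
        ring
      rw [h6]
      exact h5
  -- normalised direction
  set w : V := (1 / ‖u‖) • u with hw
  have hwn : ‖w‖ = 1 := by
    rw [hw, norm_smul, Real.norm_of_nonneg (by positivity)]
    field_simp
  set R : ℝ := 4 / c₁ with hR
  have hR0 : 0 < R := by positivity
  set B : ℝ := M * R + 1 with hB
  have hB0 : 0 < B := by positivity
  set τ : ℝ := min (R / (2 * B)) (R / B ^ 2) with hτ
  have hτ0 : 0 < τ := by positivity
  have hτ1 : τ * B ≤ R / 2 := by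
    have h1 : τ ≤ R / (2 * B) := min_le_left _ _
    have h2 := mul_le_mul_of_nonneg_right h1 hB0.le
    have h3 : R / (2 * B) * B = R / 2 := by field_simp
    linarith
  have hτ2 : τ * B ^ 2 ≤ R := by
    have h1 : τ ≤ R / B ^ 2 := min_le_right _ _
    have h2 := mul_le_mul_of_nonneg_right h1 (sq_nonneg B)
    have h3 : R / B ^ 2 * B ^ 2 = R := by field_simp
    linarith
  obtain ⟨y, hyR, hye⟩ := brouwer_ball R hR0.le (fun y => y - τ • (G y - w))
    (continuous_id.sub ((hGc.sub continuous_const).const_smul τ)).continuousOn (by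
      intro y hy
      rw [mem_closedBall_zero_iff] at hy ⊢
      have hd : ‖G y - w‖ ≤ B := by
        have h1 := norm_sub_le (G y) w
        have h2 := hGn y
        have h3 := mul_le_mul_of_nonneg_left hy hM0
        rw [hwn] at h1
        linarith
      rcases le_total ‖y‖ (R / 2) with hc2 | hc2
      · have h1 := norm_sub_le y (τ • (G y - w))
        rw [norm_smul, Real.norm_of_nonneg hτ0.le] at h1
        have h2 := mul_le_mul_of_nonneg_left hd hτ0.le
        linarith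
      · refine le_of_sq_le_sq ?_ hR0.le
        rw [norm_sub_sq_real, real_inner_smul_right, norm_smul, Real.norm_of_nonneg hτ0.le,
          inner_sub_right, mul_pow]
        have h1 := hGi y
        rw [real_inner_comm] at h1
        have h2 : ⟪y, w⟫ ≤ ‖y‖ := by
          have := real_inner_le_norm y w
          rwa [hwn, mul_one] at this
        have h3 : R / 2 ≤ c₁ * ‖y‖ ^ 2 - ‖y‖ := by
          have h4 : 2 ≤ c₁ * ‖y‖ := by
            have h5 := mul_le_mul_of_nonneg_left hc2 hc₁0.le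
            have h6 : c₁ * (R / 2) = 2 := by
              rw [hR]
              field_simp
              norm_num
            linarith
          nlinarith [norm_nonneg y]
        have h7 : ‖G y - w‖ ^ 2 ≤ B ^ 2 := pow_le_pow_left₀ (norm_nonneg _) hd 2
        have h8 : τ ^ 2 * ‖G y - w‖ ^ 2 ≤ τ * R := by
          have h9 := mul_le_mul_of_nonneg_left h7 (sq_nonneg τ)
          have h10 := mul_le_mul_of_nonneg_left hτ2 hτ0.le
          nlinarith
        have h11 : ‖y‖ ^ 2 ≤ R ^ 2 := pow_le_pow_left₀ (norm_nonneg _) hy 2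
        have h12 : R / 2 ≤ ⟪y, G y⟫ - ⟪y, w⟫ := by linarith
        have h13 := mul_le_mul_of_nonneg_left h12 hτ0.le
        nlinarith)
  have h1 : τ • (G y - w) = 0 := by
    have h2 : y - τ • (G y - w) = y := hye
    have h3 : y - τ • (G y - w) - y = 0 := by rw [h2, sub_self]
    have h4 : y - τ • (G y - w) - y = -(τ • (G y - w)) := by abel
    rw [h4] at h3
    exact neg_eq_zero.1 h3
  have h2 : G y = w := by
    rcases smul_eq_zero.1 h1 with h3 | h3
    · exact (hτ0.ne' h3).elim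
    · exact sub_eq_zero.1 h3
  have hy0 : y ≠ 0 := by
    rintro rfl
    have h3 : G 0 = 0 := by simp [hG]
    rw [h3] at h2
    rw [← h2, norm_zero] at hwn
    norm_num at hwn
  have hyn : 0 < ‖y‖ := norm_pos_iff.2 hy0
  refine ⟨(r / ‖y‖) • y, hmem y hy0, 1 / ‖y‖ * (1 / ‖u‖), by positivity, ?_⟩
  have h4 : ‖y‖ • g ((r / ‖y‖) • y) = (1 / ‖u‖) • u := h2
  rw [mul_smul, ← h4, smul_smul, one_div, inv_mul_cancel₀ hyn.ne', one_smul]

end BPQ
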