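import Pool.Agent.Work.MP_6b4466_lc.Defs

/-! The circle of radius `r` with `1 - 1 / (2 r ^ 2) = 1 / n`, `n ≥ 3`, needs three colours.

Proof. Suppose `Fintype.card ι ≤ 2`. Let `θ = arccos (1 / n)`. By Niven's theorem (`niven`, Mathlib)
`θ / π` is irrational (`1 / n` is not in `{-1, -1/2, 0, 1/2, 1}`), so `(2 θ) / (2 π)` is irrational and
the additive subgroup `G` of `ℝ` generated by `2 θ` and `2 π` is dense
(`dense_addSubgroupClosure_pair_iff`). Choose an orthonormal basis `e` of `V`
(`stdOrthonormalBasis`, reindexed to `Fin 2`) and let `c t = (r cos t) • e 0 + (r sin t) • e 1`, a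
continuous `2 π`-periodic surjection (only needed: density, see below) of `ℝ` onto the circle, with
`dist (c (t + θ)) (c t) = 1` since `‖c s - c t‖ ^ 2 = 2 r ^ 2 (1 - cos (s - t))`. Let
`W i = {t | c t ∈ U i}`: open, `2 π`-periodic, `t ∈ W i → t + θ ∉ W i ∧ t - θ ∉ W i`. The union of
the `W i` is dense in `ℝ`: given `t` and `ε`, `c t` is in the closure of `S ∩ ⋃ U i`, and `c` is an
open map onto the circle; concretely use a point `z = c s` of `S ∩ U i` close to `c t`, where `s`
can be chosen close to `t` (e.g. `s = t + arcsin`-type formula or `s = t + φ` with `z = c (t + φ)`,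
`|φ| ≤ π`, and `dist (c (t+φ)) (c t) ^ 2 = 2 r ^ 2 (1 - cos φ)` small forces `|φ|` small).
If at most one `W i` is nonempty it is dense and open, so `W i ∩ (W i - θ)` is nonempty,
contradiction. So `ι` has exactly two elements `a, b` and `W a`, `W b` are both nonempty.
Let `K = closure (W a)`. Claim: `t ∈ K → t ± 2 θ ∈ K`. By continuity it suffices to take `t ∈ W a`.
`W a + θ` is open and disjoint from `W a`, so by density `W b` is dense in it; `W b + θ` is open
and disjoint from `W b`, so `W a` is dense in it. Given an open interval `J` around `t + 2 θ`: the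
open set `(J - θ) ∩ (W a + θ)` contains `t + θ`, so it meets `W b` in a nonempty open set `J'`, and
`J' + θ ⊆ J` is open, disjoint from `W b`, nonempty, so it meets `W a`. The same with `- θ`.
Also `K ± 2 π ⊆ K`. So `K + G ⊆ K` (`AddSubgroup.closure_induction`) and `K` is dense and closed,
`K = univ`. But `W b` is nonempty and open, so it meets `W a`: there is `t ∈ W a ∩ W b`, then an
interval `J ⊆ W a ∩ W b` and `J + θ` is disjoint from `W a` and `W b`, contradicting density. -/

namespace BPQ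

open Set Metric Topology

/-- two sets on a line avoiding an irrational rotation do not have a dense union -/
private theorem circ_top {ι : Type} [Fintype ι] (W : ι → Set ℝ) (hW : ∀ i, IsOpen (W i)) (θ : ℝ)
    (h1 : ∀ i t, t ∈ W i → t + θ ∉ W i) (h2 : ∀ i t, t ∈ W i → t + 2 * Real.pi ∈ W i)
    (h2' : ∀ i t, t ∈ W i → t - 2 * Real.pi ∈ W i) (hd : Dense (⋃ i, W i))
    (hG : Dense (AddSubgroup.closure {2 * θ, 2 * Real.pi} : Set ℝ))
    (hcard : Fintype.card ι ≤ 2) : False := by
  classical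
  obtain ⟨t0, ht0⟩ := hd.nonempty
  obtain ⟨a, ha⟩ := mem_iUnion.1 ht0
  let A := W a
  let C := ⋃ i ∈ {i | i ≠ a}, W i
  have hA : IsOpen A := hW a
  have hC : IsOpen C := isOpen_biUnion fun i _ => hW i
  have huniq : ∀ i j, i ≠ a → j ≠ a → i = j := by
    intro i j hi hj
    by_contra hij
    have h3 : ({a, i, j} : Finset ι).card ≤ Fintype.card ι := Finset.card_le_univ _
    rw [Finset.card_eq_three.2 ⟨a, i, j, hi.symm, hj.symm, hij, rfl⟩] at h3
    omega
  have hCθ : ∀ t, t ∈ C → t + θ ∉ C := by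
    intro t ht hs
    simp only [C, mem_iUnion, mem_ofPred_eq] at ht hs
    obtain ⟨i, hi, ht⟩ := ht
    obtain ⟨j, hj, hs⟩ := hs
    rw [huniq j i hj hi] at hs
    exact h1 i t ht hs
  have hAC : Dense (A ∪ C) := by
    refine hd.mono ?_
    intro t ht
    obtain ⟨i, hi⟩ := mem_iUnion.1 ht
    by_cases hia : i = a
    · rw [hia] at hi
      exact Or.inl hi
    · exact Or.inr (mem_iUnion₂.2 ⟨i, hia, hi⟩)
  -- translation of an open set
  have htr : ∀ (J : Set ℝ) (s : ℝ), IsOpen J → IsOpen {t | t - s ∈ J} := fun J s hJ =>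
    hJ.preimage (continuous_id.sub continuous_const)
  -- from `A` to `C` and back
  have hAstep : ∀ (J : Set ℝ) (s : ℝ), (s = θ ∨ s = -θ) → IsOpen J → J.Nonempty → J ⊆ A →
      ∃ t, t - s ∈ J ∧ t ∈ C := by
    intro J s hs hJ hJn hJA
    obtain ⟨u, hu⟩ := hJn
    obtain ⟨t, ht1, ht2⟩ := hAC.inter_open_nonempty {t | t - s ∈ J} (htr J s hJ)
      ⟨u + s, by show u + s - s ∈ J; rw [add_sub_cancel_right]; exact hu⟩
    refine ⟨t, ht1, ht2.resolve_left fun htA => ?_⟩
    rcases hs with rfl | rfl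
    · have h3 := h1 a (t - s) (hJA ht1)
      rw [sub_add_cancel] at h3
      exact h3 htA
    · have h3 := h1 a t htA
      have h4 : t - -θ ∈ A := hJA ht1
      rw [sub_neg_eq_add] at h4
      exact h3 h4
  have hCstep : ∀ (J : Set ℝ) (s : ℝ), (s = θ ∨ s = -θ) → IsOpen J → J.Nonempty → J ⊆ C →
      ∃ t, t - s ∈ J ∧ t ∈ A := by
    intro J s hs hJ hJn hJA
    obtain ⟨u, hu⟩ := hJn
    obtain ⟨t, ht1, ht2⟩ := hAC.inter_open_nonempty {t | t - s ∈ J} (htr J s hJ)
      ⟨u + s, by show u + s - s ∈ J; rw [add_sub_cancel_right]; exact hu⟩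
    refine ⟨t, ht1, ht2.resolve_right fun htA => ?_⟩
    rcases hs with rfl | rfl
    · have h3 := hCθ (t - s) (hJA ht1)
      rw [sub_add_cancel] at h3
      exact h3 htA
    · have h3 := hCθ t htA
      have h4 : t - -θ ∈ C := hJA ht1
      rw [sub_neg_eq_add] at h4
      exact h3 h4
  have hAA : ∀ (J : Set ℝ) (s : ℝ), (s = θ ∨ s = -θ) → IsOpen J → J.Nonempty → J ⊆ A →
      ∃ t, t - s - s ∈ J ∧ t ∈ A := by
    intro J s hs hJ hJn hJA
    obtain ⟨t, ht1, ht2⟩ := hAstep J s hs hJ hJn hJA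
    obtain ⟨u, hu1, hu2⟩ := hCstep ({t | t - s ∈ J} ∩ C) s hs ((htr J s hJ).inter hC) ⟨t, ht1, ht2⟩
      inter_subset_right
    exact ⟨u, hu1.1, hu2⟩
  let K := closure A
  have hK2 : ∀ s : ℝ, (s = θ ∨ s = -θ) → ∀ t ∈ K, t + (s + s) ∈ K := by
    intro s hs t ht
    rw [_root_.mem_closure_iff] at ht ⊢
    intro N hN htN
    have h3 : IsOpen {u | u + (s + s) ∈ N} := hN.preimage (continuous_id.add continuous_const)
    obtain ⟨u, hu1, hu2⟩ := ht _ h3 htN
    obtain ⟨v, hv1, hv2⟩ := hAA ({u | u + (s + s) ∈ N} ∩ A) s hs (h3.inter hA) ⟨u, hu1, hu2⟩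
      inter_subset_right
    refine ⟨v, ?_, hv2⟩
    have h4 : v - s - s + (s + s) ∈ N := hv1.1
    have h5 : v - s - s + (s + s) = v := by ring
    rwa [h5] at h4
  have hKp : ∀ s : ℝ, (∀ t ∈ A, t + s ∈ A) → ∀ t ∈ K, t + s ∈ K := by
    intro s hs t ht
    have h3 : Continuous fun u : ℝ => u + s := continuous_id.add continuous_const
    exact map_mem_closure (f := fun u : ℝ => u + s) h3 ht hs
  have hKG : ∀ g ∈ AddSubgroup.closure {2 * θ, 2 * Real.pi}, (∀ t ∈ K, t + g ∈ K) ∧
      ∀ t ∈ K, t - g ∈ K := by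
    intro g hg
    induction hg using AddSubgroup.closure_induction with
    | mem x hx =>
      rcases hx with rfl | hx
      · constructor
        · intro t ht
          have := hK2 θ (Or.inl rfl) t ht
          rwa [← two_mul] at this
        · intro t ht
          have := hK2 (-θ) (Or.inr rfl) t ht
          rw [← two_mul, mul_neg, ← sub_eq_add_neg] at this
          exact this
      · rw [mem_singleton_iff] at hx
        subst hx
        constructor
        · exact hKp _ (h2 a)
        · intro t ht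
          rw [sub_eq_add_neg]
          refine hKp (-(2 * Real.pi)) (fun t ht => ?_) t ht
          rw [← sub_eq_add_neg]
          exact h2' a t ht
    | zero => exact ⟨fun t ht => by rwa [add_zero], fun t ht => by rwa [sub_zero]⟩
    | add x y _ _ hx hy =>
      refine ⟨fun t ht => ?_, fun t ht => ?_⟩
      · rw [← add_assoc]
        exact hy.1 _ (hx.1 t ht)
      · rw [← sub_sub]
        exact hy.2 _ (hx.2 t ht)
    | neg x _ hx =>
      refine ⟨fun t ht => ?_, fun t ht => ?_⟩
      · rw [← sub_eq_add_neg]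
        exact hx.2 t ht
      · rw [sub_neg_eq_add]
        exact hx.1 t ht
  -- `A` is dense
  have hAd : Dense A := by
    rw [dense_iff_closure_eq, eq_univ_iff_forall]
    intro u
    have h3 : Dense ((fun g : ℝ => t0 + g) '' (AddSubgroup.closure {2 * θ, 2 * Real.pi} : Set ℝ)) :=
      (Homeomorph.addLeft t0).surjective.denseRange.dense_image (Homeomorph.addLeft t0).continuous hG
    have h4 : (fun g : ℝ => t0 + g) '' (AddSubgroup.closure {2 * θ, 2 * Real.pi} : Set ℝ) ⊆ K := by
      rintro _ ⟨g, hg, rfl⟩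
      exact (hKG g hg).1 t0 (subset_closure ha)
    have h5 : closure ((fun g : ℝ => t0 + g) ''
        (AddSubgroup.closure {2 * θ, 2 * Real.pi} : Set ℝ)) ⊆ K :=
      closure_minimal h4 isClosed_closure
    exact h5 (h3 u)
  obtain ⟨t, ht1, ht2⟩ := hAd.inter_open_nonempty {t | t - θ ∈ A} (htr A θ hA)
      ⟨t0 + θ, by show t0 + θ - θ ∈ A; rw [add_sub_cancel_right]; exact ha⟩
  have h3 := h1 a (t - θ) ht1
  rw [sub_add_cancel] at h3
  exact h3 ht2

open scoped RealInnerProductSpace

variable {V : Type} [NormedAddCommGroup V] [InnerProductSpace ℝ V] [FiniteDimensional ℝ V]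

private theorem circ_norm (e : OrthonormalBasis (Fin 2) ℝ V) (a b : ℝ) :
    ‖a • e 0 + b • e 1‖ ^ 2 = a ^ 2 + b ^ 2 := by
  have h1 : ⟪e 0, e 1⟫ = 0 := e.orthonormal.2 (by decide)
  rw [norm_add_sq_real, inner_smul_left, inner_smul_right, h1, norm_smul, norm_smul,
    e.orthonormal.1 0, e.orthonormal.1 1, mul_one, mul_one, Real.norm_eq_abs, Real.norm_eq_abs,
    sq_abs, sq_abs]
  ring

/-- the parametrisation of the circle -/
private noncomputable def circC (e : OrthonormalBasis (Fin 2) ℝ V) (r t : ℝ) : V :=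
  (r * Real.cos t) • e 0 + (r * Real.sin t) • e 1

private theorem circ_cont (e : OrthonormalBasis (Fin 2) ℝ V) (r : ℝ) :
    Continuous (circC e r) := by
  unfold circC
  fun_prop

private theorem circ_mem (e : OrthonormalBasis (Fin 2) ℝ V) (r : ℝ) (hr : 0 < r) (t : ℝ) :
    circC e r t ∈ sphere (0 : V) r := by
  rw [mem_sphere_zero_iff_norm]
  have h4 : ‖circC e r t‖ ^ 2 = r ^ 2 := by
    unfold circC
    rw [circ_norm]
    have := Real.sin_sq_add_cos_sq t
    linear_combination r ^ 2 * this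
  exact (pow_left_inj₀ (norm_nonneg _) hr.le two_ne_zero).1 h4

private theorem circ_dist (e : OrthonormalBasis (Fin 2) ℝ V) (r s t : ℝ) :
    dist (circC e r s) (circC e r t) ^ 2 = 2 * r ^ 2 * (1 - Real.cos (s - t)) := by
  have h1 : circC e r s - circC e r t = (r * Real.cos s - r * Real.cos t) • e 0 +
      (r * Real.sin s - r * Real.sin t) • e 1 := by
    unfold circC
    rw [sub_smul, sub_smul]
    abel
  rw [dist_eq_norm, h1, circ_norm, Real.cos_sub]
  have h2 := Real.sin_sq_add_cos_sq t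
  have h3 := Real.sin_sq_add_cos_sq s
  linear_combination r ^ 2 * h2 + r ^ 2 * h3

private theorem circ_param (e : OrthonormalBasis (Fin 2) ℝ V) (r : ℝ) (hr : 0 < r) (z : V)
    (hz : z ∈ sphere (0 : V) r) (t : ℝ) : ∃ φ : ℝ, |φ| ≤ Real.pi ∧ z = circC e r (t + φ) := by
  have h1 : z = (e.repr z 0) • e 0 + (e.repr z 1) • e 1 := by
    have h2 := e.sum_repr z
    rw [Fin.sum_univ_two] at h2
    exact h2.symm
  set a := e.repr z 0 with ha
  set b := e.repr z 1 with hb
  have h2 : a ^ 2 + b ^ 2 = r ^ 2 := by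
    rw [mem_sphere_zero_iff_norm] at hz
    rw [← circ_norm e, ← h1, hz]
  let w : ℂ := ⟨(a * Real.cos t + b * Real.sin t) / r, (-a * Real.sin t + b * Real.cos t) / r⟩
  have h3 := Real.sin_sq_add_cos_sq t
  have hw : ‖w‖ = 1 := by
    have h4 : ‖w‖ ^ 2 = 1 ^ 2 := by
      rw [← Complex.normSq_eq_norm_sq, Complex.normSq_apply]
      show (a * Real.cos t + b * Real.sin t) / r * ((a * Real.cos t + b * Real.sin t) / r) +
        (-a * Real.sin t + b * Real.cos t) / r * ((-a * Real.sin t + b * Real.cos t) / r) = 1 ^ 2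
      have hr0 : r ≠ 0 := hr.ne'
      field_simp
      linear_combination (a ^ 2 + b ^ 2) * h3 + h2
    exact (pow_left_inj₀ (norm_nonneg _) zero_le_one two_ne_zero).1 h4
  have hw0 : w ≠ 0 := by
    intro h
    rw [h, norm_zero] at hw
    exact zero_ne_one hw
  refine ⟨Complex.arg w, Complex.abs_arg_le_pi w, ?_⟩
  have hc : Real.cos (Complex.arg w) = (a * Real.cos t + b * Real.sin t) / r := by
    rw [Complex.cos_arg hw0, hw, div_one]
  have hs : Real.sin (Complex.arg w) = (-a * Real.sin t + b * Real.cos t) / r := by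
    rw [Complex.sin_arg, hw, div_one]
  unfold circC
  rw [Real.cos_add, Real.sin_add, hc, hs]
  have hr0 : r ≠ 0 := hr.ne'
  have h4 : r * (Real.cos t * ((a * Real.cos t + b * Real.sin t) / r) -
      Real.sin t * ((-a * Real.sin t + b * Real.cos t) / r)) = a := by
    field_simp
    linear_combination a * h3
  have h5 : r * (Real.sin t * ((a * Real.cos t + b * Real.sin t) / r) +
      Real.cos t * ((-a * Real.sin t + b * Real.cos t) / r)) = b := by
    field_simp
    linear_combination b * h3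
  rw [h4, h5]
  exact h1

theorem circle_base (hV : Module.finrank ℝ V = 2) (n : ℕ) (hn : 3 ≤ n) (r : ℝ) (hr : 0 < r)
    (hrn : 1 - 1 / (2 * r ^ 2) = 1 / (n : ℝ)) {ι : Type} [Fintype ι] (U : ι → Set V)
    (hU : ∀ i, IsOpen (U i))
    (hfree : ∀ i, ∀ x ∈ U i ∩ sphere (0 : V) r, ∀ y ∈ U i ∩ sphere (0 : V) r, dist x y ≠ 1)
    (hdense : sphere (0 : V) r ⊆ closure (sphere (0 : V) r ∩ ⋃ i, U i)) :
    3 ≤ Fintype.card ι := by
  by_contra hcon
  have hcard : Fintype.card ι ≤ 2 := by omega
  let e : OrthonormalBasis (Fin 2) ℝ V := (stdOrthonormalBasis ℝ V).reindex (finCongr hV)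
  have hn3 : (3 : ℝ) ≤ n := by exact_mod_cast hn
  have hn0 : (0 : ℝ) < n := by linarith
  have hn1 : 0 < 1 / (n : ℝ) := by positivity
  have hn2 : 1 / (n : ℝ) ≤ 1 / 3 := one_div_le_one_div_of_le (by norm_num) hn3
  let θ := Real.arccos (1 / n)
  have hcos : Real.cos θ = 1 / n := Real.cos_arccos (by linarith) (by linarith)
  have hG : Dense (AddSubgroup.closure {2 * θ, 2 * Real.pi} : Set ℝ) := by
    rw [dense_addSubgroupClosure_pair_iff, mul_div_mul_left _ _ two_ne_zero]
    rintro ⟨q, hq⟩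
    have h1 : θ = q * Real.pi := by
      rw [hq, div_mul_cancel₀ _ Real.pi_ne_zero]
    have h2 := niven ⟨q, h1⟩ ⟨1 / n, by rw [hcos]; push_cast; rfl⟩
    rw [hcos] at h2
    simp only [mem_insert_iff, mem_singleton_iff] at h2
    rcases h2 with h | h | h | h | h <;> linarith
  refine circ_top (fun i => {t | circC e r t ∈ U i})
    (fun i => (hU i).preimage (circ_cont e r)) θ ?_ ?_ ?_ ?_ hG hcard
  · intro i t ht hs
    refine hfree i _ ⟨hs, circ_mem e r hr _⟩ _ ⟨ht, circ_mem e r hr _⟩ ?_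
    have h1 := circ_dist e r (t + θ) t
    rw [add_sub_cancel_left, hcos] at h1
    have hr0 : r ≠ 0 := hr.ne'
    have h2 : 2 * r ^ 2 * (1 - 1 / (n : ℝ)) = 1 ^ 2 := by
      rw [← hrn]
      field_simp
      ring
    rw [h2] at h1
    exact (pow_left_inj₀ dist_nonneg zero_le_one two_ne_zero).1 h1
  · intro i t ht
    show circC e r (t + 2 * Real.pi) ∈ U i
    unfold circC
    rw [Real.cos_add_two_pi, Real.sin_add_two_pi]
    exact ht
  · intro i t ht
    show circC e r (t - 2 * Real.pi) ∈ U i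
    unfold circC
    rw [Real.cos_sub_two_pi, Real.sin_sub_two_pi]
    exact ht
  · intro t
    rw [Metric.mem_closure_iff]
    intro ε hε
    have h1 := hdense (circ_mem e r hr t)
    rw [Metric.mem_closure_iff] at h1
    obtain ⟨z, ⟨hz1, hz2⟩, hz3⟩ := h1 (2 * r * ε / Real.pi) (by positivity)
    obtain ⟨φ, hφ, rfl⟩ := circ_param e r hr z hz1 t
    obtain ⟨i, hi⟩ := mem_iUnion.1 hz2
    refine ⟨t + φ, mem_iUnion.2 ⟨i, hi⟩, ?_⟩
    rw [Real.dist_eq, sub_add_cancel_left, abs_neg]
    have h2 := circ_dist e r t (t + φ)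
    rw [sub_add_cancel_left, Real.cos_neg] at h2
    have h3 := Real.cos_le_one_sub_mul_cos_sq hφ
    have hpi := Real.pi_pos
    have h4 : (2 * r * |φ| / Real.pi) ^ 2 ≤ dist (circC e r t) (circC e r (t + φ)) ^ 2 := by
      rw [h2]
      have h5 : (2 * r * |φ| / Real.pi) ^ 2 = 2 * r ^ 2 * (2 / Real.pi ^ 2 * φ ^ 2) := by
        rw [div_pow, mul_pow, sq_abs]
        ring
      rw [h5]
      exact mul_le_mul_of_nonneg_left (by linarith) (by positivity)
    have h6 : 2 * r * |φ| / Real.pi ≤ dist (circC e r t) (circC e r (t + φ)) :=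
      (pow_le_pow_iff_left₀ (by positivity) dist_nonneg two_ne_zero).1 h4
    have h7 : 2 * r * |φ| / Real.pi < 2 * r * ε / Real.pi := h6.trans_lt hz3
    rw [div_lt_div_iff_of_pos_right hpi] at h7
    exact lt_of_mul_lt_mul_left h7 (by positivity)

end BPQ
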