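import Pool.Agent.Work.MP_6b4466_lc.Defs

/-! Circles: the version of `Circ` for a general rational cosine, with the parametrisation public
(lemmas from helper26's file). -/

namespace BPQ

open Set Metric Topology

/-- two sets on a line avoiding an irrational rotation do not have a dense union -/
theorem c2_top {ι : Type} [Fintype ι] (W : ι → Set ℝ) (hW : ∀ i, IsOpen (W i)) (θ : ℝ)
    (h1 : ∀ i t, t ∈ W i → t + θ ∉ W i) (h2 : ∀ i t, t ∈ W i → t + 2 * Real.pi ∈ W i)
    (h2' : ∀ i t, t ∈ W i → t - 2 * Real.pi ∈ W i) (hd : Dense (⋃ i, W i))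
    (hG : Dense (AddSubgroup.closure {2 * θ, 2 * Real.pi} : Set ℝ))
    (hcard : Fintype.card ι ≤ 2) : False := by
  classical
  obtain ⟨t0, ht0⟩ := hd.nonempty
  obtain ⟨a, ha⟩ := mem_iUnion.1 ht0
  let A := W a
  let C := ⋃ i ∈ {i | i ≠ a}, W i
  have hA : IsOpen A := hW a
  have hC : IsOpen C := isOpen_biUnion fun i _ => hW i
  have huniq : ∀ i j, i ≠ a → j ≠ a → i = j := by
    intro i j hi hj
    by_contra hij
    have h3 : ({a, i, j} : Finset ι).card ≤ Fintype.card ι := Finset.card_le_univ _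
    rw [Finset.card_eq_three.2 ⟨a, i, j, hi.symm, hj.symm, hij, rfl⟩] at h3
    omega
  have hCθ : ∀ t, t ∈ C → t + θ ∉ C := by
    intro t ht hs
    simp only [C, mem_iUnion, mem_ofPred_eq] at ht hs
    obtain ⟨i, hi, ht⟩ := ht
    obtain ⟨j, hj, hs⟩ := hs
    rw [huniq j i hj hi] at hs
    exact h1 i t ht hs
  have hAC : Dense (A ∪ C) := by
    refine hd.mono ?_
    intro t ht
    obtain ⟨i, hi⟩ := mem_iUnion.1 ht
    by_cases hia : i = a
    · rw [hia] at hi
      exact Or.inl hi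
    · exact Or.inr (mem_iUnion₂.2 ⟨i, hia, hi⟩)
  -- translation of an open set
  have htr : ∀ (J : Set ℝ) (s : ℝ), IsOpen J → IsOpen {t | t - s ∈ J} := fun J s hJ =>
    hJ.preimage (continuous_id.sub continuous_const)
  -- from `A` to `C` and back
  have hAstep : ∀ (J : Set ℝ) (s : ℝ), (s = θ ∨ s = -θ) → IsOpen J → J.Nonempty → J ⊆ A →
      ∃ t, t - s ∈ J ∧ t ∈ C := by
    intro J s hs hJ hJn hJA
    obtain ⟨u, hu⟩ := hJn
    obtain ⟨t, ht1, ht2⟩ := hAC.inter_open_nonempty {t | t - s ∈ J} (htr J s hJ)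
      ⟨u + s, by show u + s - s ∈ J; rw [add_sub_cancel_right]; exact hu⟩
    refine ⟨t, ht1, ht2.resolve_left fun htA => ?_⟩
    rcases hs with rfl | rfl
    · have h3 := h1 a (t - s) (hJA ht1)
      rw [sub_add_cancel] at h3
      exact h3 htA
    · have h3 := h1 a t htA
      have h4 : t - -θ ∈ A := hJA ht1
      rw [sub_neg_eq_add] at h4
      exact h3 h4
  have hCstep : ∀ (J : Set ℝ) (s : ℝ), (s = θ ∨ s = -θ) → IsOpen J → J.Nonempty → J ⊆ C →
      ∃ t, t - s ∈ J ∧ t ∈ A := by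
    intro J s hs hJ hJn hJA
    obtain ⟨u, hu⟩ := hJn
    obtain ⟨t, ht1, ht2⟩ := hAC.inter_open_nonempty {t | t - s ∈ J} (htr J s hJ)
      ⟨u + s, by show u + s - s ∈ J; rw [add_sub_cancel_right]; exact hu⟩
    refine ⟨t, ht1, ht2.resolve_right fun htA => ?_⟩
    rcases hs with rfl | rfl
    · have h3 := hCθ (t - s) (hJA ht1)
      rw [sub_add_cancel] at h3
      exact h3 htA
    · have h3 := hCθ t htA
      have h4 : t - -θ ∈ C := hJA ht1
      rw [sub_neg_eq_add] at h4
      exact h3 h4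
  have hAA : ∀ (J : Set ℝ) (s : ℝ), (s = θ ∨ s = -θ) → IsOpen J → J.Nonempty → J ⊆ A →
      ∃ t, t - s - s ∈ J ∧ t ∈ A := by
    intro J s hs hJ hJn hJA
    obtain ⟨t, ht1, ht2⟩ := hAstep J s hs hJ hJn hJA
    obtain ⟨u, hu1, hu2⟩ := hCstep ({t | t - s ∈ J} ∩ C) s hs ((htr J s hJ).inter hC) ⟨t, ht1, ht2⟩
      inter_subset_right
    exact ⟨u, hu1.1, hu2⟩
  let K := closure A
  have hK2 : ∀ s : ℝ, (s = θ ∨ s = -θ) → ∀ t ∈ K, t + (s + s) ∈ K := by
    intro s hs t ht
    rw [_root_.mem_closure_iff] at ht ⊢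
    intro N hN htN
    have h3 : IsOpen {u | u + (s + s) ∈ N} := hN.preimage (continuous_id.add continuous_const)
    obtain ⟨u, hu1, hu2⟩ := ht _ h3 htN
    obtain ⟨v, hv1, hv2⟩ := hAA ({u | u + (s + s) ∈ N} ∩ A) s hs (h3.inter hA) ⟨u, hu1, hu2⟩
      inter_subset_right
    refine ⟨v, ?_, hv2⟩
    have h4 : v - s - s + (s + s) ∈ N := hv1.1
    have h5 : v - s - s + (s + s) = v := by ring
    rwa [h5] at h4
  have hKp : ∀ s : ℝ, (∀ t ∈ A, t + s ∈ A) → ∀ t ∈ K, t + s ∈ K := by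
    intro s hs t ht
    have h3 : Continuous fun u : ℝ => u + s := continuous_id.add continuous_const
    exact map_mem_closure (f := fun u : ℝ => u + s) h3 ht hs
  have hKG : ∀ g ∈ AddSubgroup.closure {2 * θ, 2 * Real.pi}, (∀ t ∈ K, t + g ∈ K) ∧
      ∀ t ∈ K, t - g ∈ K := by
    intro g hg
    induction hg using AddSubgroup.closure_induction with
    | mem x hx =>
      rcases hx with rfl | hx
      · constructor
        · intro t ht
          have := hK2 θ (Or.inl rfl) t ht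
          rwa [← two_mul] at this
        · intro t ht
          have := hK2 (-θ) (Or.inr rfl) t ht
          rw [← two_mul, mul_neg, ← sub_eq_add_neg] at this
          exact this
      · rw [mem_singleton_iff] at hx
        subst hx
        constructor
        · exact hKp _ (h2 a)
        · intro t ht
          rw [sub_eq_add_neg]
          refine hKp (-(2 * Real.pi)) (fun t ht => ?_) t ht
          rw [← sub_eq_add_neg]
          exact h2' a t ht
    | zero => exact ⟨fun t ht => by rwa [add_zero], fun t ht => by rwa [sub_zero]⟩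
    | add x y _ _ hx hy =>
      refine ⟨fun t ht => ?_, fun t ht => ?_⟩
      · rw [← add_assoc]
        exact hy.1 _ (hx.1 t ht)
      · rw [← sub_sub]
        exact hy.2 _ (hx.2 t ht)
    | neg x _ hx =>
      refine ⟨fun t ht => ?_, fun t ht => ?_⟩
      · rw [← sub_eq_add_neg]
        exact hx.2 t ht
      · rw [sub_neg_eq_add]
        exact hx.1 t ht
  -- `A` is dense
  have hAd : Dense A := by
    rw [dense_iff_closure_eq, eq_univ_iff_forall]
    intro u
    have h3 : Dense ((fun g : ℝ => t0 + g) '' (AddSubgroup.closure {2 * θ, 2 * Real.pi} : Set ℝ)) :=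
      (Homeomorph.addLeft t0).surjective.denseRange.dense_image (Homeomorph.addLeft t0).continuous hG
    have h4 : (fun g : ℝ => t0 + g) '' (AddSubgroup.closure {2 * θ, 2 * Real.pi} : Set ℝ) ⊆ K := by
      rintro _ ⟨g, hg, rfl⟩
      exact (hKG g hg).1 t0 (subset_closure ha)
    have h5 : closure ((fun g : ℝ => t0 + g) ''
        (AddSubgroup.closure {2 * θ, 2 * Real.pi} : Set ℝ)) ⊆ K :=
      closure_minimal h4 isClosed_closure
    exact h5 (h3 u)
  obtain ⟨t, ht1, ht2⟩ := hAd.inter_open_nonempty {t | t - θ ∈ A} (htr A θ hA)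
      ⟨t0 + θ, by show t0 + θ - θ ∈ A; rw [add_sub_cancel_right]; exact ha⟩
  have h3 := h1 a (t - θ) ht1
  rw [sub_add_cancel] at h3
  exact h3 ht2

open scoped RealInnerProductSpace

variable {V : Type} [NormedAddCommGroup V] [InnerProductSpace ℝ V] [FiniteDimensional ℝ V]

theorem c2_norm (e : OrthonormalBasis (Fin 2) ℝ V) (a b : ℝ) :
    ‖a • e 0 + b • e 1‖ ^ 2 = a ^ 2 + b ^ 2 := by
  have h1 : ⟪e 0, e 1⟫ = 0 := e.orthonormal.2 (by decide)
  rw [norm_add_sq_real, inner_smul_left, inner_smul_right, h1, norm_smul, norm_smul,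
    e.orthonormal.1 0, e.orthonormal.1 1, mul_one, mul_one, Real.norm_eq_abs, Real.norm_eq_abs,
    sq_abs, sq_abs]
  ring

/-- the parametrisation of the circle -/
noncomputable def c2C (e : OrthonormalBasis (Fin 2) ℝ V) (r t : ℝ) : V :=
  (r * Real.cos t) • e 0 + (r * Real.sin t) • e 1

theorem c2_cont (e : OrthonormalBasis (Fin 2) ℝ V) (r : ℝ) :
    Continuous (c2C e r) := by
  unfold c2C
  fun_prop

theorem c2_mem (e : OrthonormalBasis (Fin 2) ℝ V) (r : ℝ) (hr : 0 < r) (t : ℝ) :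
    c2C e r t ∈ sphere (0 : V) r := by
  rw [mem_sphere_zero_iff_norm]
  have h4 : ‖c2C e r t‖ ^ 2 = r ^ 2 := by
    unfold c2C
    rw [c2_norm]
    have := Real.sin_sq_add_cos_sq t
    linear_combination r ^ 2 * this
  exact (pow_left_inj₀ (norm_nonneg _) hr.le two_ne_zero).1 h4

theorem c2_dist (e : OrthonormalBasis (Fin 2) ℝ V) (r s t : ℝ) :
    dist (c2C e r s) (c2C e r t) ^ 2 = 2 * r ^ 2 * (1 - Real.cos (s - t)) := by
  have h1 : c2C e r s - c2C e r t = (r * Real.cos s - r * Real.cos t) • e 0 +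
      (r * Real.sin s - r * Real.sin t) • e 1 := by
    unfold c2C
    rw [sub_smul, sub_smul]
    abel
  rw [dist_eq_norm, h1, c2_norm, Real.cos_sub]
  have h2 := Real.sin_sq_add_cos_sq t
  have h3 := Real.sin_sq_add_cos_sq s
  linear_combination r ^ 2 * h2 + r ^ 2 * h3

theorem c2_param (e : OrthonormalBasis (Fin 2) ℝ V) (r : ℝ) (hr : 0 < r) (z : V)
    (hz : z ∈ sphere (0 : V) r) (t : ℝ) : ∃ φ : ℝ, |φ| ≤ Real.pi ∧ z = c2C e r (t + φ) := by
  have h1 : z = (e.repr z 0) • e 0 + (e.repr z 1) • e 1 := by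
    have h2 := e.sum_repr z
    rw [Fin.sum_univ_two] at h2
    exact h2.symm
  set a := e.repr z 0 with ha
  set b := e.repr z 1 with hb
  have h2 : a ^ 2 + b ^ 2 = r ^ 2 := by
    rw [mem_sphere_zero_iff_norm] at hz
    rw [← c2_norm e, ← h1, hz]
  let w : ℂ := ⟨(a * Real.cos t + b * Real.sin t) / r, (-a * Real.sin t + b * Real.cos t) / r⟩
  have h3 := Real.sin_sq_add_cos_sq t
  have hw : ‖w‖ = 1 := by
    have h4 : ‖w‖ ^ 2 = 1 ^ 2 := by
      rw [← Complex.normSq_eq_norm_sq, Complex.normSq_apply]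
      show (a * Real.cos t + b * Real.sin t) / r * ((a * Real.cos t + b * Real.sin t) / r) +
        (-a * Real.sin t + b * Real.cos t) / r * ((-a * Real.sin t + b * Real.cos t) / r) = 1 ^ 2
      have hr0 : r ≠ 0 := hr.ne'
      field_simp
      linear_combination (a ^ 2 + b ^ 2) * h3 + h2
    exact (pow_left_inj₀ (norm_nonneg _) zero_le_one two_ne_zero).1 h4
  have hw0 : w ≠ 0 := by
    intro h
    rw [h, norm_zero] at hw
    exact zero_ne_one hw
  refine ⟨Complex.arg w, Complex.abs_arg_le_pi w, ?_⟩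
  have hc : Real.cos (Complex.arg w) = (a * Real.cos t + b * Real.sin t) / r := by
    rw [Complex.cos_arg hw0, hw, div_one]
  have hs : Real.sin (Complex.arg w) = (-a * Real.sin t + b * Real.cos t) / r := by
    rw [Complex.sin_arg, hw, div_one]
  unfold c2C
  rw [Real.cos_add, Real.sin_add, hc, hs]
  have hr0 : r ≠ 0 := hr.ne'
  have h4 : r * (Real.cos t * ((a * Real.cos t + b * Real.sin t) / r) -
      Real.sin t * ((-a * Real.sin t + b * Real.cos t) / r)) = a := by
    field_simp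
    linear_combination a * h3
  have h5 : r * (Real.sin t * ((a * Real.cos t + b * Real.sin t) / r) +
      Real.cos t * ((-a * Real.sin t + b * Real.cos t) / r)) = b := by
    field_simp
    linear_combination b * h3
  rw [h4, h5]
  exact h1

/-- density on the circle gives density of the set of angles -/
theorem c2_dense (e : OrthonormalBasis (Fin 2) ℝ V) (r : ℝ) (hr : 0 < r) (W : Set V)
    (hW : sphere (0 : V) r ⊆ closure (sphere (0 : V) r ∩ W)) : Dense {t | c2C e r t ∈ W} := by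
  intro t
  rw [Metric.mem_closure_iff]
  intro ε hε
  have h1 := hW (c2_mem e r hr t)
  rw [Metric.mem_closure_iff] at h1
  obtain ⟨z, ⟨hz1, hz2⟩, hz3⟩ := h1 (2 * r * ε / Real.pi) (by positivity)
  obtain ⟨φ, hφ, rfl⟩ := c2_param e r hr z hz1 t
  refine ⟨t + φ, hz2, ?_⟩
  rw [Real.dist_eq, sub_add_cancel_left, abs_neg]
  have h2 := c2_dist e r t (t + φ)
  rw [sub_add_cancel_left, Real.cos_neg] at h2
  have h3 := Real.cos_le_one_sub_mul_cos_sq hφ
  have hpi := Real.pi_pos
  have h4 : (2 * r * |φ| / Real.pi) ^ 2 ≤ dist (c2C e r t) (c2C e r (t + φ)) ^ 2 := by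
    rw [h2]
    have h5 : (2 * r * |φ| / Real.pi) ^ 2 = 2 * r ^ 2 * (2 / Real.pi ^ 2 * φ ^ 2) := by
      rw [div_pow, mul_pow, sq_abs]
      ring
    rw [h5]
    exact mul_le_mul_of_nonneg_left (by linarith) (by positivity)
  have h6 : 2 * r * |φ| / Real.pi ≤ dist (c2C e r t) (c2C e r (t + φ)) :=
    (pow_le_pow_iff_left₀ (by positivity) dist_nonneg two_ne_zero).1 h4
  have h7 : 2 * r * |φ| / Real.pi < 2 * r * ε / Real.pi := h6.trans_lt hz3
  rw [div_lt_div_iff_of_pos_right hpi] at h7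
  exact lt_of_mul_lt_mul_left h7 (by positivity)

/-- a circle of radius `r` with `1 - 1 / (2 r ^ 2)` rational, not one of the values of Niven's
theorem, needs three colours. -/
theorem circle_gen (hV : Module.finrank ℝ V = 2) (q : ℚ) (hq1 : -1 ≤ (q : ℝ)) (hq2 : (q : ℝ) ≤ 1)
    (hq : (q : ℝ) ∉ ({-1, -1 / 2, 0, 1 / 2, 1} : Set ℝ)) (r : ℝ) (hr : 0 < r)
    (hrn : 1 - 1 / (2 * r ^ 2) = (q : ℝ)) {ι : Type} [Fintype ι] (U : ι → Set V)
    (hU : ∀ i, IsOpen (U i))
    (hfree : ∀ i, ∀ x ∈ U i ∩ sphere (0 : V) r, ∀ y ∈ U i ∩ sphere (0 : V) r, dist x y ≠ 1)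
    (hdense : sphere (0 : V) r ⊆ closure (sphere (0 : V) r ∩ ⋃ i, U i)) :
    3 ≤ Fintype.card ι := by
  by_contra hcon
  have hcard : Fintype.card ι ≤ 2 := by omega
  let e : OrthonormalBasis (Fin 2) ℝ V := (stdOrthonormalBasis ℝ V).reindex (finCongr hV)
  let θ := Real.arccos q
  have hcos : Real.cos θ = q := Real.cos_arccos hq1 hq2
  have hG : Dense (AddSubgroup.closure {2 * θ, 2 * Real.pi} : Set ℝ) := by
    rw [dense_addSubgroupClosure_pair_iff, mul_div_mul_left _ _ two_ne_zero]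
    rintro ⟨q', hq'⟩
    have h1 : θ = q' * Real.pi := by
      rw [hq', div_mul_cancel₀ _ Real.pi_ne_zero]
    have h2 := niven ⟨q', h1⟩ ⟨q, hcos⟩
    rw [hcos] at h2
    exact hq h2
  refine c2_top (fun i => {t | c2C e r t ∈ U i})
    (fun i => (hU i).preimage (c2_cont e r)) θ ?_ ?_ ?_ ?_ hG hcard
  · intro i t ht hs
    refine hfree i _ ⟨hs, c2_mem e r hr _⟩ _ ⟨ht, c2_mem e r hr _⟩ ?_
    have h1 := c2_dist e r (t + θ) t
    rw [add_sub_cancel_left, hcos] at h1
    have hr0 : r ≠ 0 := hr.ne'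
    have h2 : 2 * r ^ 2 * (1 - (q : ℝ)) = 1 ^ 2 := by
      rw [← hrn]
      field_simp
      ring
    rw [h2] at h1
    exact (pow_left_inj₀ dist_nonneg zero_le_one two_ne_zero).1 h1
  · intro i t ht
    show c2C e r (t + 2 * Real.pi) ∈ U i
    unfold c2C
    rw [Real.cos_add_two_pi, Real.sin_add_two_pi]
    exact ht
  · intro i t ht
    show c2C e r (t - 2 * Real.pi) ∈ U i
    unfold c2C
    rw [Real.cos_sub_two_pi, Real.sin_sub_two_pi]
    exact ht
  · have h1 := c2_dense e r hr _ hdense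
    refine h1.mono fun t ht => ?_
    obtain ⟨i, hi⟩ := mem_iUnion.1 ht
    exact mem_iUnion.2 ⟨i, hi⟩

end BPQ
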