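import Pool.Agent.Work.MP_6b4466_lc.Defs

/-! Decomposition of a compact set whose connected parts have diameter at most `c` into finitely
many pieces, pairwise at positive distance, of diameter `< c'`.

Proof. If `A = ∅` take `m = 0`, `η = 1`. Work in the compact Hausdorff space `A` (subtype).
For `x : A` the connected component `K x` is the intersection of the clopen sets containing `x`
(`connectedComponent_eq_iInter_isClopen`). The open set `O = {y | infDist y (K x) < (c' - c) / 3}`
contains `K x`; by compactness a finite intersection of these clopen sets, i.e. a single clopen set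
`Q x ∋ x`, is contained in `O` (for instance `IsCompact.elim_directed_family_closed_of_isCompact`
or `exists_isClopen...`). The image of `K x` in `X` is preconnected and contained in `A`, so it has
diameter `≤ c` and two points of `Q x` have distance `< c'` (`≤ c + 2 (c' - c) / 3`; use
`Metric.infDist_lt_iff`). Finitely many `Q x_0, ..., Q x_m` cover `A`. Let `κ y` be the first index
`j` with `y ∈ Q x_j` (any value outside `A`). The sets `{y ∈ A | κ y = j}` are clopen in `A`, so
`κ` is locally constant on the compact metric space `A`, hence (Lebesgue number lemma, or the map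
`κ : A → Fin (m+1)` is continuous, so uniformly continuous, discrete uniformity) there is `η`. -/

namespace BPQ

open Set Metric Topology

private theorem exists_clopen {X : Type} [MetricSpace X] {A : Set X} [CompactSpace A] {c c' : ℝ}
    (hcc : c < c') (h : ∀ C ⊆ A, IsPreconnected C → ∀ x ∈ C, ∀ y ∈ C, dist x y ≤ c) (x : A) :
    ∃ Q : Set A, IsClopen Q ∧ x ∈ Q ∧ ∀ y ∈ Q, ∀ z ∈ Q, dist y z < c' := by
  set K := connectedComponent x with hK
  set e := (c' - c) / 3 with he
  have he0 : 0 < e := by rw [he]; linarith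
  have hO : IsOpen {y : A | infDist y K < e} := isOpen_lt (continuous_infDist_pt K) continuous_const
  have hxK : x ∈ K := mem_connectedComponent
  have : Nonempty {s : Set A // IsClopen s ∧ x ∈ s} := ⟨⟨univ, isClopen_univ, mem_univ x⟩⟩
  obtain ⟨Q, hQ⟩ := exists_subset_nhds_of_compactSpace
    (V := fun s : {s : Set A // IsClopen s ∧ x ∈ s} => (s : Set A)) (by
      intro s t
      exact ⟨⟨s.1 ∩ t.1, s.2.1.inter t.2.1, s.2.2, t.2.2⟩, inter_subset_left, inter_subset_right⟩)
    (fun s => s.2.1.isClosed) (U := {y : A | infDist y K < e}) (by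
      intro y hy
      rw [← connectedComponent_eq_iInter_isClopen] at hy
      refine hO.mem_nhds ?_
      change infDist y K < e
      rw [infDist_zero_of_mem hy]
      exact he0)
  refine ⟨Q.1, Q.2.1, Q.2.2, fun y hy z hz => ?_⟩
  obtain ⟨k, hk, hyk⟩ := (infDist_lt_iff ⟨x, hxK⟩).1 (show infDist y K < e from hQ hy)
  obtain ⟨l, hl, hzl⟩ := (infDist_lt_iff ⟨x, hxK⟩).1 (show infDist z K < e from hQ hz)
  have hkl : dist k l ≤ c := by
    have := h (Subtype.val '' K) (by rintro _ ⟨u, -, rfl⟩; exact u.2)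
      (isPreconnected_connectedComponent.image _ continuous_subtype_val.continuousOn)
      k ⟨k, hk, rfl⟩ l ⟨l, hl, rfl⟩
    exact this
  have h1 := dist_triangle y k z
  have h2 := dist_triangle k l z
  rw [dist_comm l z] at h2
  have h3 : c + 2 * e < c' := by rw [he]; linarith
  linarith

private theorem clopen_unif {X : Type} [MetricSpace X] {A : Set X} [CompactSpace A] {Q : Set A}
    (hQ : IsClopen Q) : ∃ δ > 0, ∀ y z : A, dist y z < δ → (y ∈ Q ↔ z ∈ Q) := by
  obtain ⟨δ₁, h1, h1'⟩ := hQ.isClosed.isCompact.exists_thickening_subset_open hQ.isOpen subset_rfl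
  obtain ⟨δ₂, h2, h2'⟩ := hQ.compl.isClosed.isCompact.exists_thickening_subset_open
    hQ.compl.isOpen subset_rfl
  refine ⟨min δ₁ δ₂, lt_min h1 h2, fun y z hyz => ⟨fun hy => ?_, fun hz => ?_⟩⟩
  · refine h1' (mem_thickening_iff.2 ⟨y, hy, ?_⟩)
    rw [dist_comm]
    exact hyz.trans_le (min_le_left _ _)
  · by_contra hy
    have : z ∈ Qᶜ := h2' (mem_thickening_iff.2 ⟨y, hy, by
      rw [dist_comm]
      exact hyz.trans_le (min_le_right _ _)⟩)
    exact this hz

theorem dec {X : Type} [MetricSpace X] {A : Set X} (hA : IsCompact A) {c c' : ℝ} (hc : 0 ≤ c)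
    (hcc : c < c') (h : ∀ C ⊆ A, IsPreconnected C → ∀ x ∈ C, ∀ y ∈ C, dist x y ≤ c) :
    ∃ (m : ℕ) (κ : X → Fin (m + 1)) (η : ℝ), 0 < η ∧ ∀ x ∈ A, ∀ y ∈ A,
      (dist x y < η → κ x = κ y) ∧ (κ x = κ y → dist x y < c') := by
  classical
  have : CompactSpace A := isCompact_iff_compactSpace.1 hA
  choose Q hQ hxQ hQd using fun x : A => exists_clopen hcc h x
  obtain ⟨t, ht⟩ := isCompact_univ.elim_finite_subcover Q (fun x => (hQ x).isOpen)
    (fun x _ => mem_iUnion.2 ⟨x, hxQ x⟩)
  choose δ hδ hδQ using fun x : A => clopen_unif (hQ x)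
  obtain ⟨η, hη, hηδ⟩ : ∃ η > 0, ∀ x ∈ t, η ≤ δ x := by
    rcases t.eq_empty_or_nonempty with rfl | hne
    · exact ⟨1, one_pos, fun x hx => by simp at hx⟩
    · obtain ⟨x₀, hx₀, hmin⟩ := t.exists_min_image δ hne
      exact ⟨δ x₀, hδ x₀, hmin⟩
  obtain ⟨m, hm⟩ : ∃ m, Fintype.card (Finset t) = m + 1 :=
    Nat.exists_eq_succ_of_ne_zero Fintype.card_ne_zero
  set e : Finset t ≃ Fin (m + 1) := Fintype.equivFinOfCardEq hm with he
  set P : A → Finset t := fun y => Finset.univ.filter fun j => y ∈ Q j with hP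
  refine ⟨m, fun x => if hx : x ∈ A then e (P ⟨x, hx⟩) else 0, η, hη, fun x hx y hy => ?_⟩
  beta_reduce
  rw [dif_pos hx, dif_pos hy]
  refine ⟨fun hxy => ?_, fun hxy => ?_⟩
  · congr 1
    ext j
    simp only [hP, Finset.mem_filter, Finset.mem_univ, true_and]
    exact hδQ j ⟨x, hx⟩ ⟨y, hy⟩ (lt_of_lt_of_le hxy (hηδ j j.2))
  · have h1 : P ⟨x, hx⟩ = P ⟨y, hy⟩ := e.injective hxy
    obtain ⟨j, hj⟩ := mem_iUnion.1 (ht (mem_univ (⟨x, hx⟩ : A)))
    obtain ⟨hjt, hxj⟩ := mem_iUnion.1 hj
    have h2 : (⟨j, hjt⟩ : t) ∈ P ⟨x, hx⟩ := by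
      simp only [hP, Finset.mem_filter, Finset.mem_univ, true_and]
      exact hxj
    rw [h1] at h2
    simp only [hP, Finset.mem_filter, Finset.mem_univ, true_and] at h2
    exact hQd j ⟨x, hx⟩ hxj ⟨y, hy⟩ h2

end BPQ
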