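import Mathlib

/-! Definitions for the lower bound on the number of colours of a colouring of Euclidean space
by sets with the Baire property without monochromatic pairs at distance one. -/

namespace BPQ

open Set Metric Topology

/-- Every connected part of `A` has diameter at most one. -/
def Small {X : Type} [PseudoMetricSpace X] (A : Set X) : Prop :=
  ∀ C ⊆ A, IsPreconnected C → ∀ x ∈ C, ∀ y ∈ C, dist x y ≤ 1

/-- Every finite closed cover of `Z` by subsets whose connected parts have diameter at most one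
has a point in at least `d + 1` of the sets. -/
def Leb {X : Type} [PseudoMetricSpace X] (Z : Set X) (d : ℕ) : Prop :=
  ∀ (ι : Type) [Fintype ι] (F : ι → Set X), (∀ i, IsClosed (F i)) → (∀ i, F i ⊆ Z) →
    (∀ i, Small (F i)) → (∀ x ∈ Z, ∃ i, x ∈ F i) → ∃ x ∈ Z, d + 1 ≤ {i | x ∈ F i}.ncard

/-- Unit distances in `S` move continuously with the centre. -/
def Lift {X : Type} [PseudoMetricSpace X] (S : Set X) : Prop :=
  ∀ p ∈ S, ∀ x ∈ S, dist x p = 1 → ∀ ε > 0, ∃ δ > 0, ∀ p' ∈ S, dist p' p < δ →
    ∃ x' ∈ S, dist x' x < ε ∧ dist x' p' = 1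

/-- Near a point `x` of `S` at distance one from `p₀` there are points of `S` on different sides
of the unit spheres around `p₀` and `p₁`. -/
def Side {X : Type} [PseudoMetricSpace X] (S : Set X) : Prop :=
  ∀ p₀ ∈ S, ∀ p₁ ∈ S, p₀ ≠ p₁ → ∀ x ∈ S, dist x p₀ = 1 → ∀ ε > 0,
    ∃ x' ∈ S, dist x' x < ε ∧ (dist x' p₀ - 1) * (dist x' p₁ - 1) < 0

end BPQ
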