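import Pool.Agent.Work.MP_6b4466_lc.Defs

/-! Geometry of Euclidean space: `Lift` and `Side` for the whole space.

`lift_univ`: `x' = x + (p' - p)`, `δ = ε`.

`side_univ`: let `f_j y = dist y p_j ^ 2 - 1`; `(dist y p - 1)` and `dist y p ^ 2 - 1` have the same
sign. Case 1: `dist x p₁ ≠ 1`. The sign of `dist y p₁ - 1` is constant near `x`, and
`y = x + s • (x - p₀)` has `dist y p₀ = 1 + s`, choose `s` small of the right sign.
Case 2: `dist x p₁ = 1`. Let `v = p₀ - p₁ ≠ 0`; from `‖x - p₁‖ = ‖(x - p₀) + v‖ = 1` we get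
`2 inner (x - p₀) v = - ‖v‖ ^ 2`. For `y = x + s • v`: `‖y - p₀‖ ^ 2 = 1 - s ‖v‖ ^ 2 + s ^ 2 ‖v‖ ^ 2 < 1`
for `0 < s < 1` and `‖y - p₁‖ ^ 2 = 1 + s ‖v‖ ^ 2 + s ^ 2 ‖v‖ ^ 2 > 1` (as
`inner (x - p₁) v = inner (x - p₀) v + ‖v‖ ^ 2`). -/

namespace BPQ

open Set Metric Topology

variable {V : Type} [NormedAddCommGroup V] [InnerProductSpace ℝ V]

omit [InnerProductSpace ℝ V] in
theorem lift_univ : Lift (univ : Set V) := by
  intro p _ x _ hx ε hε
  refine ⟨ε, hε, fun p' _ hp' => ⟨x + (p' - p), mem_univ _, ?_, ?_⟩⟩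
  · rw [dist_self_add_left, ← dist_eq_norm]
    exact hp'
  · rw [dist_eq_norm] at hx ⊢
    rw [show x + (p' - p) - p' = x - p by abel]
    exact hx

theorem side_univ : Side (univ : Set V) := by
  intro p₀ _ p₁ _ hne x _ hx ε hε
  have hx' : ‖x - p₀‖ = 1 := by rw [← dist_eq_norm]; exact hx
  by_cases h1 : dist x p₁ = 1
  · set v := p₀ - p₁ with hv
    have hv0 : v ≠ 0 := sub_ne_zero.2 hne
    have hvn : 0 < ‖v‖ := norm_pos_iff.2 hv0
    have h2 : 2 * inner ℝ (x - p₀) v = - ‖v‖ ^ 2 := by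
      have h3 : ‖(x - p₀) + v‖ ^ 2 = 1 := by
        rw [show (x - p₀) + v = x - p₁ by rw [hv]; abel, ← dist_eq_norm, h1]
        norm_num
      rw [norm_add_sq_real, hx'] at h3
      linarith
    set s : ℝ := min (1 / 2) (ε / (2 * ‖v‖)) with hs
    have hs0 : 0 < s := by positivity
    have hs1 : s ≤ 1 / 2 := min_le_left _ _
    have hs2 : s * ‖v‖ < ε := by
      have h4 : s ≤ ε / (2 * ‖v‖) := min_le_right _ _
      have h5 : s * ‖v‖ ≤ ε / (2 * ‖v‖) * ‖v‖ := mul_le_mul_of_nonneg_right h4 hvn.le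
      have h6 : ε / (2 * ‖v‖) * ‖v‖ = ε / 2 := by field_simp
      linarith
    have ha : ‖x + s • v - p₀‖ ^ 2 = 1 - s * ‖v‖ ^ 2 + s ^ 2 * ‖v‖ ^ 2 := by
      rw [show x + s • v - p₀ = (x - p₀) + s • v by abel, norm_add_sq_real, hx',
        real_inner_smul_right, norm_smul, Real.norm_of_nonneg hs0.le, mul_pow]
      linear_combination s * h2
    have hb : ‖x + s • v - p₁‖ ^ 2 = 1 + s * ‖v‖ ^ 2 + s ^ 2 * ‖v‖ ^ 2 := by
      rw [show x + s • v - p₁ = (x - p₀) + (1 + s) • v by rw [hv]; module, norm_add_sq_real, hx',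
        real_inner_smul_right, norm_smul, Real.norm_of_nonneg (by linarith), mul_pow]
      linear_combination (1 + s) * h2
    have hv2 : 0 < ‖v‖ ^ 2 := by positivity
    have ha' : ‖x + s • v - p₀‖ < 1 := by
      refine lt_of_pow_lt_pow_left₀ 2 zero_le_one ?_
      rw [ha]
      have h8 : 0 < s * (1 - s) * ‖v‖ ^ 2 := mul_pos (mul_pos hs0 (by linarith)) hv2
      nlinarith
    have hb' : 1 < ‖x + s • v - p₁‖ := by
      refine lt_of_pow_lt_pow_left₀ 2 (norm_nonneg _) ?_
      rw [hb]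
      nlinarith [mul_pos hs0 hv2, mul_pos (pow_pos hs0 2) hv2]
    refine ⟨x + s • v, mem_univ _, ?_, ?_⟩
    · rw [dist_self_add_left, norm_smul, Real.norm_of_nonneg hs0.le]
      exact hs2
    · rw [dist_eq_norm, dist_eq_norm]
      exact mul_neg_of_neg_of_pos (by linarith) (by linarith)
  · -- move along `x - p₀`
    set D := dist x p₁ - 1 with hD
    have hD0 : D ≠ 0 := sub_ne_zero.2 h1
    have hDp : 0 < |D| := abs_pos.2 hD0
    set s : ℝ := min (min (ε / 2) (|D| / 2)) 1 with hs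
    have hs0 : 0 < s := by positivity
    have hs1 : s ≤ ε / 2 := (min_le_left _ _).trans (min_le_left _ _)
    have hs2 : s ≤ |D| / 2 := (min_le_left _ _).trans (min_le_right _ _)
    have hs3 : s ≤ 1 := min_le_right _ _
    have key : ∀ t : ℝ, |t| = s → dist (x + t • (x - p₀)) x = s ∧
        dist (x + t • (x - p₀)) p₀ = |1 + t| ∧ |dist (x + t • (x - p₀)) p₁ - dist x p₁| ≤ s := by
      intro t ht
      have e1 : dist (x + t • (x - p₀)) x = s := by
        rw [dist_self_add_left, norm_smul, hx', Real.norm_eq_abs, ht, mul_one]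
      refine ⟨e1, ?_, ?_⟩
      · rw [dist_eq_norm, show x + t • (x - p₀) - p₀ = (1 + t) • (x - p₀) by module, norm_smul, hx',
          Real.norm_eq_abs, mul_one]
      · have := abs_dist_sub_le (x + t • (x - p₀)) x p₁
        rwa [e1] at this
    rcases lt_or_gt_of_ne hD0 with hneg | hpos
    · obtain ⟨k1, k2, k3⟩ := key s (abs_of_pos hs0)
      rw [abs_of_neg hneg] at hs2
      refine ⟨x + s • (x - p₀), mem_univ _, by linarith, ?_⟩
      rw [k2, abs_of_pos (by linarith)]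
      refine mul_neg_of_pos_of_neg (by linarith) ?_
      have := (abs_le.1 k3).2
      linarith
    · obtain ⟨k1, k2, k3⟩ := key (-s) (by rw [abs_neg]; exact abs_of_pos hs0)
      rw [abs_of_pos hpos] at hs2
      refine ⟨x + (-s) • (x - p₀), mem_univ _, by linarith, ?_⟩
      rw [k2]
      have h7 : |1 + -s| < 1 := by
        rw [abs_lt]
        constructor <;> linarith
      refine mul_neg_of_neg_of_pos (by linarith) ?_
      have := (abs_le.1 k3).1
      linarith

end BPQ
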