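import Pool.Agent.Work.MP_6b4466_lc.Defs

/-! Geometry of spheres: `Lift` and `Side` for the sphere of radius `r > 1 / √2`, and the
description of the points of the sphere at distance one from a point.

Put `α = 1 - 1 / (2 r ^ 2)`, `r' = √(1 - 1 / (4 r ^ 2)) > 0`, so `α ^ 2 r ^ 2 + r' ^ 2 = r ^ 2` and
`(1 - α) ^ 2 r ^ 2 + r' ^ 2 = 1`.

`circ_iff`: for `‖p‖ = r`: `‖x‖ = r` and `dist x p = 1` iff `x = α • p + y` with `inner p y = 0`,
`‖y‖ = r'` (`inner x p = r ^ 2 - 1 / 2 = α r ^ 2`, `y = x - α • p`).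

`lift_sphere`: write `x = α • p + y`. For `p'` on the sphere let
`Y p' = y - (inner y p' / r ^ 2) • p'` (orthogonal to `p'`, continuous in `p'`, `Y p = y ≠ 0`) and
`x' = α • p' + (r' / ‖Y p'‖) • Y p'` for `p'` near `p`; it is on the sphere at distance one from
`p'` by `circ_iff` and tends to `x` as `p' → p`.

`side_sphere`: on the sphere `dist y p ^ 2 - 1 = 2 (k - inner y p)` with `k = r ^ 2 - 1 / 2`, so the
sign of `dist y p - 1` is the sign of `k - inner y p`, and `inner x p₀ = k`. For a unit vector `v`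
orthogonal to `x` and small `t > 0` let `y = cos t • x + (r sin t) • v` (on the sphere, tends to
`x`). Case 1: `inner x p₁ ≠ k`. The sign of `k - inner y p₁` is constant near `x`. Let
`w = p₀ - (k / r ^ 2) • x`, orthogonal to `x`, nonzero because `‖w‖ ^ 2 = r ^ 2 - k ^ 2 / r ^ 2 > 0`;
with `v = ± w / ‖w‖`: `inner y p₀ = k cos t ± r ‖w‖ sin t`, and `k (cos t - 1) ± r ‖w‖ sin t` has for
small `t > 0` the sign `±`. Case 2: `inner x p₁ = k`. Let `w = p₀ - p₁ ≠ 0`, orthogonal to `x`,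
`inner w p₀ = r ^ 2 - inner p₁ p₀ = ‖w‖ ^ 2 / 2 > 0`, `inner w p₁ = - ‖w‖ ^ 2 / 2`; with
`v = w / ‖w‖`: `inner y p₀ = k cos t + r (‖w‖ / 2) sin t > k` for small `t > 0`
and `inner y p₁ = k cos t - r (‖w‖ / 2) sin t < k` (`k > 0`). -/

namespace BPQ

open Set Metric Topology
open scoped RealInnerProductSpace

variable {V : Type} [NormedAddCommGroup V] [InnerProductSpace ℝ V]

private theorem geos_inner (r : ℝ) (p x : V) (hp : ‖p‖ = r) (hx : ‖x‖ = r) :
    dist x p ^ 2 = 2 * r ^ 2 - 2 * ⟪x, p⟫ := by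
  rw [dist_eq_norm, norm_sub_sq_real, hp, hx]
  ring

theorem circ_iff (r : ℝ) (hr : 0 < r) (hr2 : 1 / 2 < r ^ 2) (p : V) (hp : ‖p‖ = r) (x : V) :
    (‖x‖ = r ∧ dist x p = 1) ↔ ∃ y : V, ⟪p, y⟫ = 0 ∧ ‖y‖ = Real.sqrt (1 - 1 / (4 * r ^ 2)) ∧
      x = (1 - 1 / (2 * r ^ 2)) • p + y := by
  have hr0 : r ^ 2 ≠ 0 := by positivity
  have hpos : 0 ≤ 1 - 1 / (4 * r ^ 2) := by
    rw [sub_nonneg, div_le_one (by positivity)]
    linarith
  constructor
  · rintro ⟨hx, hd⟩
    have h1 := geos_inner r p x hp hx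
    rw [hd] at h1
    have h2 : ⟪p, x⟫ = r ^ 2 - 1 / 2 := by
      rw [real_inner_comm]
      linarith
    refine ⟨x - (1 - 1 / (2 * r ^ 2)) • p, ?_, ?_, by abel⟩
    · rw [inner_sub_right, inner_smul_right, real_inner_self_eq_norm_sq, hp, h2]
      field_simp
      ring
    · rw [eq_comm, Real.sqrt_eq_iff_mul_self_eq hpos (norm_nonneg _), ← pow_two,
        norm_sub_sq_real, inner_smul_right, norm_smul, real_inner_comm, h2, hx, hp, mul_pow,
        Real.norm_eq_abs, sq_abs]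
      field_simp
      ring
  · rintro ⟨y, h1, h2, rfl⟩
    have h3 : ‖y‖ ^ 2 = 1 - 1 / (4 * r ^ 2) := by
      rw [h2, Real.sq_sqrt hpos]
    constructor
    · have h4 : ‖(1 - 1 / (2 * r ^ 2)) • p + y‖ ^ 2 = r ^ 2 := by
        rw [norm_add_sq_real, inner_smul_left, h1, norm_smul, hp, h3, mul_pow, Real.norm_eq_abs,
          sq_abs]
        simp only [conj_trivial, mul_zero, add_zero]
        field_simp
        ring
      exact (pow_left_inj₀ (norm_nonneg _) hr.le two_ne_zero).1 h4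
    · have h4 : dist ((1 - 1 / (2 * r ^ 2)) • p + y) p ^ 2 = 1 ^ 2 := by
        have e : (1 - 1 / (2 * r ^ 2)) • p + y - p = (-(1 / (2 * r ^ 2))) • p + y := by
          rw [sub_smul, one_smul, neg_smul]
          abel
        rw [dist_eq_norm, e, norm_add_sq_real, inner_smul_left, h1, norm_smul, hp, h3, mul_pow,
          Real.norm_eq_abs, sq_abs]
        simp only [conj_trivial, mul_zero, add_zero]
        field_simp
        ring
      exact (pow_left_inj₀ dist_nonneg zero_le_one two_ne_zero).1 h4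

theorem lift_sphere (r : ℝ) (hr : 0 < r) (hr2 : 1 / 2 < r ^ 2) : Lift (sphere (0 : V) r) := by
  intro p hp x hx hd ε hε
  rw [mem_sphere_zero_iff_norm] at hp hx
  have hpos : 0 < 1 - 1 / (4 * r ^ 2) := by
    rw [sub_pos, div_lt_one (by positivity)]
    linarith
  obtain ⟨y, h1, h2, h3⟩ := (circ_iff r hr hr2 p hp x).1 ⟨hx, hd⟩
  set r' := Real.sqrt (1 - 1 / (4 * r ^ 2)) with hr'
  have hr'0 : 0 < r' := Real.sqrt_pos.2 hpos
  let Y : V → V := fun q => y - (⟪y, q⟫ / r ^ 2) • q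
  have hY : Continuous Y := by fun_prop
  have hYp : Y p = y := by
    show y - (⟪y, p⟫ / r ^ 2) • p = y
    rw [real_inner_comm, h1, zero_div, zero_smul, sub_zero]
  have hYp0 : ‖Y p‖ ≠ 0 := by rw [hYp, h2]; exact hr'0.ne'
  let X : V → V := fun q => (1 - 1 / (2 * r ^ 2)) • q + (r' / ‖Y q‖) • Y q
  have hX : ContinuousAt X p := by
    refine ContinuousAt.add (by fun_prop) (ContinuousAt.smul ?_ hY.continuousAt)
    exact ContinuousAt.div continuousAt_const hY.norm.continuousAt hYp0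
  have hXp : X p = x := by
    show (1 - 1 / (2 * r ^ 2)) • p + (r' / ‖Y p‖) • Y p = x
    rw [hYp, h2, div_self hr'0.ne', one_smul, h3]
  have hne : ∀ᶠ q in 𝓝 p, Y q ≠ 0 := by
    refine hY.continuousAt.eventually_ne ?_
    intro h
    rw [h, norm_zero] at hYp0
    exact hYp0 rfl
  have hXe : ∀ᶠ q in 𝓝 p, dist (X q) x < ε := by
    have := Metric.tendsto_nhds.1 hX ε hε
    rwa [hXp] at this
  obtain ⟨δ, hδ, h4⟩ := Metric.eventually_nhds_iff.1 (hne.and hXe)
  refine ⟨δ, hδ, fun q hq hqp => ?_⟩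
  rw [mem_sphere_zero_iff_norm] at hq
  obtain ⟨h5, h6⟩ := h4 hqp
  have hn : ‖Y q‖ ≠ 0 := norm_ne_zero_iff.2 h5
  have h7 := (circ_iff r hr hr2 q hq (X q)).2 ⟨(r' / ‖Y q‖) • Y q, ?_, ?_, rfl⟩
  · exact ⟨X q, by rw [mem_sphere_zero_iff_norm]; exact h7.1, h6, h7.2⟩
  · have h8 : ⟪q, Y q⟫ = 0 := by
      show ⟪q, y - (⟪y, q⟫ / r ^ 2) • q⟫ = 0
      rw [inner_sub_right, inner_smul_right, real_inner_self_eq_norm_sq, hq, real_inner_comm,
        div_mul_cancel₀ _ (by positivity), sub_self]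
    rw [inner_smul_right, h8, mul_zero]
  · rw [norm_smul, Real.norm_eq_abs, abs_of_pos (by positivity), div_mul_cancel₀ _ hn]

/-- moving on the sphere -/
private theorem geos_mem (r : ℝ) (x v : V) (hx : ‖x‖ = r) (hv : ‖v‖ = 1) (hxv : ⟪x, v⟫ = 0)
    (hr : 0 < r) (t : ℝ) : ‖Real.cos t • x + (r * Real.sin t) • v‖ = r := by
  have h4 : ‖Real.cos t • x + (r * Real.sin t) • v‖ ^ 2 = r ^ 2 := by
    rw [norm_add_sq_real, inner_smul_left, inner_smul_right, hxv, norm_smul, norm_smul, hx, hv,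
      mul_pow, mul_pow, Real.norm_eq_abs, Real.norm_eq_abs, sq_abs, sq_abs]
    simp only [mul_zero, add_zero]
    have := Real.sin_sq_add_cos_sq t
    linear_combination r ^ 2 * this
  exact (pow_left_inj₀ (norm_nonneg _) hr.le two_ne_zero).1 h4

private theorem geos_dist (r : ℝ) (x v : V) (hx : ‖x‖ = r) (hv : ‖v‖ = 1) (hxv : ⟪x, v⟫ = 0)
    (hr : 0 < r) (t : ℝ) (ht : 0 ≤ t) :
    dist (Real.cos t • x + (r * Real.sin t) • v) x ≤ r * t := by
  have h1 : dist (Real.cos t • x + (r * Real.sin t) • v) x ^ 2 ≤ (r * t) ^ 2 := by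
    have h2 : ⟪Real.cos t • x + (r * Real.sin t) • v, x⟫ = Real.cos t * r ^ 2 := by
      rw [inner_add_left, inner_smul_left, inner_smul_left, real_inner_self_eq_norm_sq, hx,
        real_inner_comm, hxv]
      simp
    rw [geos_inner r x _ hx (geos_mem r x v hx hv hxv hr t), h2]
    have h3 := Real.one_sub_sq_div_two_le_cos (x := t)
    have h4 : 0 ≤ r ^ 2 := sq_nonneg r
    nlinarith
  exact (pow_le_pow_iff_left₀ dist_nonneg (by positivity) two_ne_zero).1 h1

private theorem geos_lt (r : ℝ) (p x : V) (hp : ‖p‖ = r) (hx : ‖x‖ = r)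
    (h : r ^ 2 - 1 / 2 < ⟪x, p⟫) : dist x p < 1 := by
  have h1 := geos_inner r p x hp hx
  have h2 : dist x p ^ 2 < 1 ^ 2 := by rw [h1]; linarith
  exact (pow_lt_pow_iff_left₀ dist_nonneg zero_le_one two_ne_zero).1 h2

private theorem geos_gt (r : ℝ) (p x : V) (hp : ‖p‖ = r) (hx : ‖x‖ = r)
    (h : ⟪x, p⟫ < r ^ 2 - 1 / 2) : 1 < dist x p := by
  have h1 := geos_inner r p x hp hx
  have h2 : 1 ^ 2 < dist x p ^ 2 := by rw [h1]; linarith
  exact (pow_lt_pow_iff_left₀ zero_le_one dist_nonneg two_ne_zero).1 h2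

private theorem geos_eq (r : ℝ) (p x : V) (hp : ‖p‖ = r) (hx : ‖x‖ = r)
    (h : dist x p = 1) : ⟪x, p⟫ = r ^ 2 - 1 / 2 := by
  have h1 := geos_inner r p x hp hx
  rw [h] at h1
  linarith

private theorem geos_in (r : ℝ) (x v p : V) (t k : ℝ) (hk : ⟪x, p⟫ = k) :
    ⟪Real.cos t • x + (r * Real.sin t) • v, p⟫ = k * Real.cos t + r * ⟪v, p⟫ * Real.sin t := by
  rw [inner_add_left, inner_smul_left, inner_smul_left, hk]
  simp only [conj_trivial]
  ring

/-- moving towards `p` -/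
private theorem geos_up (r : ℝ) (hr : 0 < r) (hr2 : 1 / 2 < r ^ 2) (p x v : V) (hp : ‖p‖ = r)
    (hx : ‖x‖ = r) (hd : dist x p = 1) (hv : ‖v‖ = 1) (hxv : ⟪x, v⟫ = 0) (hvp : 0 < ⟪v, p⟫) :
    ∃ t0 > 0, ∀ t, 0 < t → t ≤ t0 → dist (Real.cos t • x + (r * Real.sin t) • v) p < 1 := by
  have hk := geos_eq r p x hp hx hd
  have hk0 : 0 < r ^ 2 - 1 / 2 := by linarith
  refine ⟨min 1 (r * ⟪v, p⟫ / (r ^ 2 - 1 / 2)), lt_min one_pos (by positivity),
    fun t ht ht0 => ?_⟩
  refine geos_lt r p _ hp (geos_mem r x v hx hv hxv hr t) ?_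
  rw [geos_in r x v p t _ hk]
  have h1 : t ≤ 1 := ht0.trans (min_le_left _ _)
  have h2 : t ≤ r * ⟪v, p⟫ / (r ^ 2 - 1 / 2) := ht0.trans (min_le_right _ _)
  rw [le_div_iff₀ hk0] at h2
  have h3 := Real.one_sub_sq_div_two_le_cos (x := t)
  have h4 := Real.sin_gt_sub_cube ht
  have h5 : 3 / 4 * t ≤ Real.sin t := by nlinarith [sq_nonneg t, mul_pos ht ht]
  have h6 : 0 < r * ⟪v, p⟫ := mul_pos hr hvp
  have h7 : (r ^ 2 - 1 / 2) * (1 - t ^ 2 / 2) ≤ (r ^ 2 - 1 / 2) * Real.cos t :=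
    mul_le_mul_of_nonneg_left h3 hk0.le
  have h8 : r * ⟪v, p⟫ * (3 / 4 * t) ≤ r * ⟪v, p⟫ * Real.sin t :=
    mul_le_mul_of_nonneg_left h5 h6.le
  have h9 : t * (t * (r ^ 2 - 1 / 2)) ≤ t * (r * ⟪v, p⟫) := mul_le_mul_of_nonneg_left h2 ht.le
  have h10 : 0 < t * (r * ⟪v, p⟫) := mul_pos ht h6
  nlinarith

/-- moving away from `p` -/
private theorem geos_down (r : ℝ) (hr : 0 < r) (hr2 : 1 / 2 < r ^ 2) (p x v : V) (hp : ‖p‖ = r)
    (hx : ‖x‖ = r) (hd : dist x p = 1) (hv : ‖v‖ = 1) (hxv : ⟪x, v⟫ = 0) (hvp : ⟪v, p⟫ < 0) :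
    ∀ t, 0 < t → t ≤ 1 → 1 < dist (Real.cos t • x + (r * Real.sin t) • v) p := by
  have hk := geos_eq r p x hp hx hd
  have hk0 : 0 < r ^ 2 - 1 / 2 := by linarith
  intro t ht ht1
  refine geos_gt r p _ hp (geos_mem r x v hx hv hxv hr t) ?_
  rw [geos_in r x v p t _ hk]
  have h4 := Real.sin_gt_sub_cube ht
  have h5 : 0 < Real.sin t := by nlinarith [sq_nonneg t, mul_pos ht ht]
  have h6 : (r ^ 2 - 1 / 2) * Real.cos t ≤ (r ^ 2 - 1 / 2) * 1 :=
    mul_le_mul_of_nonneg_left (Real.cos_le_one t) hk0.le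
  have h7 : r * ⟪v, p⟫ * Real.sin t < 0 :=
    mul_neg_of_neg_of_pos (mul_neg_of_pos_of_neg hr hvp) h5
  linarith

theorem side_sphere (r : ℝ) (hr : 0 < r) (hr2 : 1 / 2 < r ^ 2) : Side (sphere (0 : V) r) := by
  intro p₀ hp₀ p₁ hp₁ hne x hx hd ε hε
  rw [mem_sphere_zero_iff_norm] at hp₀ hp₁ hx
  have hk := geos_eq r p₀ x hp₀ hx hd
  have hk0 : 0 < r ^ 2 - 1 / 2 := by linarith
  have hr20 : r ^ 2 ≠ 0 := by positivity
  by_cases h1 : dist x p₁ = 1
  · -- case 2
    have hk1 := geos_eq r p₁ x hp₁ hx h1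
    set w := p₀ - p₁ with hw
    have hw0 : w ≠ 0 := sub_ne_zero.2 hne
    have hwn : 0 < ‖w‖ := norm_pos_iff.2 hw0
    have e1 : ⟪x, w⟫ = 0 := by rw [hw, inner_sub_right, hk, hk1, sub_self]
    have e2 : ‖w‖ ^ 2 = 2 * r ^ 2 - 2 * ⟪p₀, p₁⟫ := by
      rw [hw, norm_sub_sq_real, hp₀, hp₁]
      ring
    have e3 : ⟪w, p₀⟫ = ‖w‖ ^ 2 / 2 := by
      rw [hw, inner_sub_left, real_inner_self_eq_norm_sq, hp₀, ← hw, e2, real_inner_comm]
      ring
    have e4 : ⟪w, p₁⟫ = -(‖w‖ ^ 2 / 2) := by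
      rw [hw, inner_sub_left, real_inner_self_eq_norm_sq, hp₁, ← hw, e2]
      ring
    set v := ‖w‖⁻¹ • w with hv
    have hv1 : ‖v‖ = 1 := by
      rw [hv, norm_smul, norm_inv, norm_norm, inv_mul_cancel₀ hwn.ne']
    have hxv : ⟪x, v⟫ = 0 := by rw [hv, inner_smul_right, e1, mul_zero]
    have hv0 : 0 < ⟪v, p₀⟫ := by
      rw [hv, inner_smul_left, e3]
      simp only [conj_trivial]
      positivity
    have hv2 : ⟪v, p₁⟫ < 0 := by
      rw [hv, inner_smul_left, e4]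
      simp only [conj_trivial]
      have : 0 < ‖w‖⁻¹ * (‖w‖ ^ 2 / 2) := by positivity
      linarith
    obtain ⟨t0, ht0, hup⟩ := geos_up r hr hr2 p₀ x v hp₀ hx hd hv1 hxv hv0
    have hdown := geos_down r hr hr2 p₁ x v hp₁ hx h1 hv1 hxv hv2
    set t := min (min t0 1) (ε / (2 * r)) with ht
    have htp : 0 < t := lt_min (lt_min ht0 one_pos) (by positivity)
    refine ⟨Real.cos t • x + (r * Real.sin t) • v, ?_, ?_, ?_⟩
    · rw [mem_sphere_zero_iff_norm]
      exact geos_mem r x v hx hv1 hxv hr t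
    · refine (geos_dist r x v hx hv1 hxv hr t htp.le).trans_lt ?_
      have h2 : t ≤ ε / (2 * r) := min_le_right _ _
      rw [le_div_iff₀ (by positivity)] at h2
      linarith
    · refine mul_neg_of_neg_of_pos (sub_neg.2 (hup t htp ?_)) (sub_pos.2 (hdown t htp ?_))
      · exact (min_le_left _ _).trans (min_le_left _ _)
      · exact (min_le_left _ _).trans (min_le_right _ _)
  · -- case 1
    set w := p₀ - ((r ^ 2 - 1 / 2) / r ^ 2) • x with hw
    have e1 : ⟪x, w⟫ = 0 := by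
      rw [hw, inner_sub_right, hk, inner_smul_right, real_inner_self_eq_norm_sq, hx,
        div_mul_cancel₀ _ hr20, sub_self]
    have e2 : ⟪w, p₀⟫ = r ^ 2 - (r ^ 2 - 1 / 2) ^ 2 / r ^ 2 := by
      rw [hw, inner_sub_left, real_inner_self_eq_norm_sq, hp₀, inner_smul_left, hk]
      simp only [conj_trivial]
      field_simp
    have e3 : 0 < ⟪w, p₀⟫ := by
      rw [e2, sub_pos, div_lt_iff₀ (by positivity)]
      nlinarith
    have hw0 : w ≠ 0 := by
      intro h
      rw [h, inner_zero_left] at e3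
      exact lt_irrefl _ e3
    have hwn : 0 < ‖w‖ := norm_pos_iff.2 hw0
    set v := ‖w‖⁻¹ • w with hv
    have hv1 : ‖v‖ = 1 := by
      rw [hv, norm_smul, norm_inv, norm_norm, inv_mul_cancel₀ hwn.ne']
    have hxv : ⟪x, v⟫ = 0 := by rw [hv, inner_smul_right, e1, mul_zero]
    have hv0 : 0 < ⟪v, p₀⟫ := by
      rw [hv, inner_smul_left]
      simp only [conj_trivial]
      positivity
    rcases lt_or_gt_of_ne h1 with h2 | h2
    · -- `dist x p₁ < 1`: move away from `p₀`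
      have hdown := geos_down r hr hr2 p₀ x (-v) hp₀ hx hd (by rw [norm_neg]; exact hv1)
        (by rw [inner_neg_right, hxv, neg_zero]) (by rw [inner_neg_left]; linarith)
      set t := min (min 1 ((1 - dist x p₁) / (2 * r))) (ε / (2 * r)) with ht
      have h3 : 0 < 1 - dist x p₁ := sub_pos.2 h2
      have htp : 0 < t := lt_min (lt_min one_pos (by positivity)) (by positivity)
      have hdist := geos_dist r x (-v) hx (by rw [norm_neg]; exact hv1)
        (by rw [inner_neg_right, hxv, neg_zero]) hr t htp.le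
      refine ⟨Real.cos t • x + (r * Real.sin t) • (-v), ?_, ?_, ?_⟩
      · rw [mem_sphere_zero_iff_norm]
        exact geos_mem r x (-v) hx (by rw [norm_neg]; exact hv1)
          (by rw [inner_neg_right, hxv, neg_zero]) hr t
      · refine hdist.trans_lt ?_
        have h2 : t ≤ ε / (2 * r) := min_le_right _ _
        rw [le_div_iff₀ (by positivity)] at h2
        linarith
      · refine mul_neg_of_pos_of_neg (sub_pos.2 (hdown t htp ?_)) (sub_neg.2 ?_)
        · exact (min_le_left _ _).trans (min_le_left _ _)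
        · have h4 : t ≤ (1 - dist x p₁) / (2 * r) := (min_le_left _ _).trans (min_le_right _ _)
          rw [le_div_iff₀ (by positivity)] at h4
          have h5 := dist_triangle (Real.cos t • x + (r * Real.sin t) • (-v)) x p₁
          linarith
    · -- `1 < dist x p₁`: move towards `p₀`
      obtain ⟨t0, ht0, hup⟩ := geos_up r hr hr2 p₀ x v hp₀ hx hd hv1 hxv hv0
      have h3 : 0 < dist x p₁ - 1 := sub_pos.2 h2
      set t := min (min t0 ((dist x p₁ - 1) / (2 * r))) (ε / (2 * r)) with ht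
      have htp : 0 < t := lt_min (lt_min ht0 (by positivity)) (by positivity)
      have hdist := geos_dist r x v hx hv1 hxv hr t htp.le
      refine ⟨Real.cos t • x + (r * Real.sin t) • v, ?_, ?_, ?_⟩
      · rw [mem_sphere_zero_iff_norm]
        exact geos_mem r x v hx hv1 hxv hr t
      · refine hdist.trans_lt ?_
        have h2 : t ≤ ε / (2 * r) := min_le_right _ _
        rw [le_div_iff₀ (by positivity)] at h2
        linarith
      · refine mul_neg_of_neg_of_pos (sub_neg.2 (hup t htp ?_)) (sub_pos.2 ?_)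
        · exact (min_le_left _ _).trans (min_le_left _ _)
        · have h4 : t ≤ (dist x p₁ - 1) / (2 * r) := (min_le_left _ _).trans (min_le_right _ _)
          rw [le_div_iff₀ (by positivity)] at h4
          have h5 := dist_triangle x (Real.cos t • x + (r * Real.sin t) • v) p₁
          rw [dist_comm x (Real.cos t • x + (r * Real.sin t) • v)] at h5
          linarith

end BPQ
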