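import Pool.Agent.Work.MP_6b4466_lc.Nerve
import Pool.Agent.Work.MP_6b4466_lc.Brou

/-! The Lebesgue covering theorem for the ball of radius `3` in a `d`-dimensional space.

Proof. Suppose a cover `F` as in `Leb` has all multiplicities `≤ d`. `nerve` with `ρ = 2` gives
`P`, `g`; for `x ∈ Z` all points of `s` are in the convex set `ball x 2`, so `dist (g x) x < 2`.
By `surj_ball` (`R = 3`, `ρ = 2`) every `y` in the unit ball is `g x` for some `x ∈ Z`, hence lies in
`convexHull s ⊆ affineSpan s` for some `s ⊆ P` with `s.card ≤ d`. As `s.card ≤ d = finrank`, the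
affine span is not `⊤` (`finrank_vectorSpan_le...`, also when `s = ∅`), so it has measure zero
(`MeasureTheory.Measure.addHaar_affineSubspace`, any Haar measure, e.g. `volume` after
`borelize V` / the standard `MeasurableSpace`); a finite union (over the powerset of `P`) is null,
but the unit ball has positive measure. (`d = 0` is fine too.) -/

namespace BPQ

open Set Metric Topology

variable {V : Type} [NormedAddCommGroup V] [InnerProductSpace ℝ V] [FiniteDimensional ℝ V]

theorem leb_ball (d : ℕ) (hd : Module.finrank ℝ V = d) : Leb (closedBall (0 : V) 3) d := by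
  classical
  intro ι _ F hF hFZ hs hc
  by_contra hcon
  push Not at hcon
  have hproper : ProperSpace V := FiniteDimensional.proper ℝ V
  obtain ⟨P, g, hPZ, hg, hx⟩ := nerve (isCompact_closedBall (0 : V) 3) F hF hFZ hs hc d
    (fun x hx => Nat.lt_succ_iff.1 (hcon x hx)) 2 (by norm_num)
  have hgx : ∀ x ∈ closedBall (0 : V) 3, dist (g x) x ≤ 2 := by
    intro x hxZ
    obtain ⟨s, -, -, hgs, hds⟩ := hx x hxZ
    have : convexHull ℝ (s : Set V) ⊆ ball x 2 :=
      convexHull_min (fun c hcs => mem_ball.2 (hds c hcs)) (convex_ball x 2)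
    exact (mem_ball.1 (this hgs)).le
  let _ : MeasurableSpace V := borel V
  have : BorelSpace V := ⟨rfl⟩
  let μ : MeasureTheory.Measure V := MeasureTheory.Measure.addHaar
  obtain ⟨𝒮, h𝒮m⟩ : ∃ 𝒮 : Set (Finset V), 𝒮 = {s | s ∈ P.powerset ∧ s.card ≤ d} := ⟨_, rfl⟩
  have h𝒮 : 𝒮.Countable := by
    rw [h𝒮m]
    exact ((Finset.finite_toSet P.powerset).subset fun s hs => hs.1).countable
  have mem𝒮 : ∀ s : Finset V, s ∈ 𝒮 ↔ s ∈ P.powerset ∧ s.card ≤ d := by
    intro s
    rw [h𝒮m]
    rfl
  have hnull : μ (⋃ s ∈ 𝒮,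
      (affineSpan ℝ (s : Set V) : Set V)) = 0 := by
    rw [MeasureTheory.measure_biUnion_null_iff h𝒮]
    intro s hs'
    rw [mem𝒮] at hs'
    refine MeasureTheory.Measure.addHaar_affineSubspace μ _ ?_
    intro htop
    rcases s.eq_empty_or_nonempty with hse | hsne
    · rw [hse, Finset.coe_empty, AffineSubspace.span_empty] at htop
      exact bot_ne_top htop
    · have h1 : (vectorSpan ℝ (s : Set V)) = ⊤ := by
        rw [← direction_affineSpan, htop, AffineSubspace.direction_top]
      have h2 : Module.finrank ℝ (vectorSpan ℝ (s : Set V)) = d := by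
        rw [h1, finrank_top, hd]
      have hcard : 0 < s.card := Finset.card_pos.2 hsne
      obtain ⟨k, hk⟩ : ∃ k, s.card = k + 1 := ⟨s.card - 1, by omega⟩
      have h3 := finrank_vectorSpan_image_finset_le ℝ (id : V → V) s hk
      rw [Finset.image_id] at h3
      omega
  have hsub : closedBall (0 : V) 1 ⊆ ⋃ s ∈ 𝒮,
      (affineSpan ℝ (s : Set V) : Set V) := by
    intro y hy
    rw [mem_closedBall, dist_zero_right] at hy
    obtain ⟨x, hxZ, rfl⟩ := surj_ball 3 2 (by norm_num) (by norm_num) g hg hgx y (by linarith)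
    obtain ⟨s, hsP, hsc, hgs, -⟩ := hx x hxZ
    refine mem_iUnion₂.2 ⟨s, ?_, convexHull_subset_affineSpan _ hgs⟩
    exact (mem𝒮 _).2 ⟨Finset.mem_powerset.2 hsP, hsc⟩
  have h1 : 0 < μ (closedBall (0 : V) 1) := measure_closedBall_pos μ 0 one_pos
  have h2 := MeasureTheory.measure_mono_null hsub hnull
  rw [h2] at h1
  exact lt_irrefl _ h1

end BPQ
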