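import Pool.Agent.Work.MP_6b4466_lc.Nerve
import Pool.Agent.Work.MP_6b4466_lc.Brou

/-! The Lebesgue covering theorem for the `d`-dimensional sphere of radius `r > 1 / √2`.

Proof. Suppose a cover `F` as in `Leb` has all multiplicities `≤ d`. Choose `ρ > 1` with
`ρ ^ 2 < 2 * r ^ 2`; `nerve` gives `P ⊆ Z`, `g`. Let `x ∈ Z`, and `c ∈ s`.
Then `‖c‖ = ‖x‖ = r`, so `2 inner c x = 2 r ^ 2 - ‖c - x‖ ^ 2 > 0` and `inner (g x) x > 0` (the open
half space is convex and contains `s`, hence `convexHull s`).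
For every `s ⊆ P` with `s.card ≤ d`, `Submodule.span ℝ s` has finrank `≤ d < finrank V`, so it is
not `⊤` and has measure zero (`MeasureTheory.Measure.addHaar_submodule`); the finite union is
not everything, so there is `u` outside all of them, in particular `u ≠ 0` (`s = ∅`, span `⊥`).
`surj_sphere` gives `x`, `t > 0` with `g x = t • u`, and `g x ∈ convexHull s ⊆ span s`, so
`u ∈ span s`, contradiction. -/

namespace BPQ

open Set Metric Topology

variable {V : Type} [NormedAddCommGroup V] [InnerProductSpace ℝ V] [FiniteDimensional ℝ V]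

open scoped RealInnerProductSpace in
theorem leb_sphere (d : ℕ) (hd : Module.finrank ℝ V = d + 1) (r : ℝ) (hr : 0 < r)
    (hr2 : 1 / 2 < r ^ 2) : Leb (sphere (0 : V) r) d := by
  classical
  intro ι _ F hF hFZ hs hc
  by_contra hcon
  push Not at hcon
  have hproper : ProperSpace V := FiniteDimensional.proper ℝ V
  set ρ : ℝ := Real.sqrt ((1 + 2 * r ^ 2) / 2) with hρdef
  have hρ2 : ρ ^ 2 = (1 + 2 * r ^ 2) / 2 := Real.sq_sqrt (by positivity)
  have hρ1 : 1 < ρ := by
    rw [hρdef, Real.lt_sqrt (by norm_num)]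
    linarith
  obtain ⟨P, g, hPZ, hg, hx⟩ := nerve (isCompact_sphere (0 : V) r) F hF hFZ hs hc d
    (fun x hx => Nat.lt_succ_iff.1 (hcon x hx)) ρ hρ1
  have hgx : ∀ x ∈ sphere (0 : V) r, 0 < ⟪g x, x⟫ := by
    intro x hxZ
    obtain ⟨s, hsP, -, hgs, hds⟩ := hx x hxZ
    have hconv : Convex ℝ {v : V | 0 < ⟪v, x⟫} := by
      intro v hv w hw a b ha hb hab
      change 0 < ⟪a • v + b • w, x⟫
      rw [inner_add_left, real_inner_smul_left, real_inner_smul_left]
      have hv' : 0 < ⟪v, x⟫ := hv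
      have hw' : 0 < ⟪w, x⟫ := hw
      rcases ha.eq_or_lt with rfl | ha'
      · have hb1 : b = 1 := by linarith
        rw [hb1, zero_mul, zero_add, one_mul]
        exact hw'
      · have := mul_pos ha' hv'
        have := mul_nonneg hb hw'.le
        linarith
    have hsub : convexHull ℝ (s : Set V) ⊆ {v : V | 0 < ⟪v, x⟫} := by
      refine convexHull_min (fun c hcs => ?_) hconv
      have hcn : ‖c‖ = r := by
        have := hPZ (hsP hcs)
        rwa [mem_sphere_zero_iff_norm] at this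
      have hxn : ‖x‖ = r := by rwa [mem_sphere_zero_iff_norm] at hxZ
      have h1 := hds c hcs
      have h2 := norm_sub_sq_real c x
      rw [hcn, hxn, ← dist_eq_norm] at h2
      have h3 : dist c x ^ 2 < ρ ^ 2 := by
        have := dist_nonneg (x := c) (y := x)
        nlinarith
      change 0 < ⟪c, x⟫
      rw [hρ2] at h3
      linarith
    exact hsub hgs
  let _ : MeasurableSpace V := borel V
  have : BorelSpace V := ⟨rfl⟩
  let μ : MeasureTheory.Measure V := MeasureTheory.Measure.addHaar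
  obtain ⟨𝒮, h𝒮m⟩ : ∃ 𝒮 : Set (Finset V), 𝒮 = {s | s ∈ P.powerset ∧ s.card ≤ d} := ⟨_, rfl⟩
  have h𝒮 : 𝒮.Countable := by
    rw [h𝒮m]
    exact ((Finset.finite_toSet P.powerset).subset fun s hs => hs.1).countable
  have mem𝒮 : ∀ s : Finset V, s ∈ 𝒮 ↔ s ∈ P.powerset ∧ s.card ≤ d := by
    intro s
    rw [h𝒮m]
    rfl
  have hnull : μ (⋃ s ∈ 𝒮,
      (Submodule.span ℝ (s : Set V) : Set V)) = 0 := by
    rw [MeasureTheory.measure_biUnion_null_iff h𝒮]
    intro s hs'
    rw [mem𝒮] at hs'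
    refine MeasureTheory.Measure.addHaar_submodule μ _ ?_
    intro htop
    have h1 := finrank_span_finset_le_card (R := ℝ) s
    rw [Set.finrank, htop, finrank_top, hd] at h1
    omega
  obtain ⟨u, hu⟩ : ∃ u : V, u ∉ ⋃ s ∈ 𝒮,
      (Submodule.span ℝ (s : Set V) : Set V) := by
    by_contra hall
    push Not at hall
    have h1 : 0 < μ (closedBall (0 : V) 1) := measure_closedBall_pos μ 0 one_pos
    have h2 := MeasureTheory.measure_mono_null (fun y (_ : y ∈ closedBall (0 : V) 1) => hall y) hnull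
    rw [h2] at h1
    exact lt_irrefl _ h1
  have hu0 : u ≠ 0 := by
    rintro rfl
    refine hu (mem_iUnion₂.2 ⟨∅, ?_, Submodule.zero_mem _⟩)
    exact (mem𝒮 _).2 ⟨Finset.mem_powerset.2 (Finset.empty_subset _), by simp⟩
  obtain ⟨x, hxZ, t, ht, hgt⟩ := surj_sphere r hr g hg hgx u hu0
  obtain ⟨s, hsP, hsc, hgs, -⟩ := hx x hxZ
  refine hu (mem_iUnion₂.2 ⟨s, ?_, ?_⟩)
  · exact (mem𝒮 _).2 ⟨Finset.mem_powerset.2 hsP, hsc⟩
  · have h1 : g x ∈ Submodule.span ℝ (s : Set V) := 
      convexHull_min Submodule.subset_span (Submodule.span ℝ (s : Set V)).convex hgs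
    have h2 : u = t⁻¹ • g x := by
      rw [hgt, smul_smul, inv_mul_cancel₀ ht.ne', one_smul]
    rw [h2]
    exact Submodule.smul_mem _ _ h1

end BPQ
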