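import Pool.Agent.Work.MP_6b4466_lc.Sph
import Pool.Agent.Work.MP_6b4466_lc.LebE
import Pool.Agent.Work.MP_6b4466_lc.GeoE
import Pool.Agent.Work.MP_6b4466_lc.BP

/-! The main theorem. -/

namespace BPQ

open Set Metric Topology

theorem open_bound {V : Type} [NormedAddCommGroup V] [InnerProductSpace ℝ V]
    [FiniteDimensional ℝ V] {n : ℕ} (hn : 3 ≤ n) (hV : Module.finrank ℝ V = n) {ι : Type}
    [Fintype ι] (U : ι → Set V) (hU : ∀ i, IsOpen (U i))
    (hfree : ∀ i, ∀ x ∈ U i, ∀ y ∈ U i, dist x y ≠ 1) (hdense : Dense (⋃ i, U i)) :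
    n ^ 2 + n + 4 ≤ 2 * Fintype.card ι := by
  classical
  haveI : ProperSpace V := FiniteDimensional.proper ℝ V
  obtain ⟨p, -, hpd, hpn⟩ := step (S := (univ : Set V)) (Z := closedBall (0 : V) 3)
    isClosed_univ (isCompact_closedBall 0 3) (subset_univ _) (d := n) (by omega)
    (leb_ball n hV) lift_univ side_univ U hU
    (fun i x hx y hy => hfree i x hx.1 y hy.1) (by
      rw [univ_inter, hdense.closure_eq])
  have hmem : ∀ y : V, y ∈ sphere (0 : V) 1 → dist (p + y) p = 1 := by
    intro y hy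
    rw [mem_sphere_zero_iff_norm] at hy
    rw [dist_eq_norm, add_sub_cancel_left, hy]
  have h := sphere_bound (n - 1) (by omega) 1 le_rfl (by omega) V (by omega) 1 one_pos (by norm_num)
    {i // ¬ p ∈ closure (U i ∩ univ)} (fun i => {y | p + y ∈ U i}) (fun i => by
      refine (hU i).preimage ?_
      fun_prop) (fun i y hy y' hy' => by
      have := hfree i _ hy.1 _ hy'.1
      rwa [dist_add_left] at this) (by
      intro y hy
      have h1 := hmem y hy
      have h2 := hpn ⟨mem_univ _, h1⟩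
      rw [Metric.mem_closure_iff] at h2 ⊢
      intro ε hε
      obtain ⟨z, ⟨⟨-, hz1⟩, hzU⟩, hzd⟩ := h2 ε hε
      obtain ⟨i, hi⟩ := mem_iUnion.1 hzU
      have hiι : ¬ p ∈ closure (U i ∩ univ) := by
        intro hpc
        exact closure_free lift_univ (hU i) (fun x hx y hy => hfree i x hx.1 y hy.1) hpc
          (mem_univ _) ⟨hi, mem_univ _⟩ hz1
      refine ⟨z - p, ⟨?_, ?_⟩, ?_⟩
      · rw [mem_sphere_zero_iff_norm, ← dist_eq_norm]
        exact hz1
      · refine mem_iUnion.2 ⟨⟨i, hiι⟩, ?_⟩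
        change p + (z - p) ∈ U i
        rwa [add_sub_cancel]
      · have e : dist y (z - p) = dist (p + y) z := by
          rw [dist_eq_norm, dist_eq_norm]
          congr 1
          abel
        rw [e]
        exact hzd)
  have hc := card_split (fun i => p ∈ closure (U i ∩ univ)) hpd
  obtain ⟨m, rfl⟩ : ∃ m, n = m + 1 := ⟨n - 1, by omega⟩
  simp only [Nat.add_sub_cancel] at h
  have e : (m + 1) ^ 2 + (m + 1) + 4 = m * (m + 1) + 4 + 2 * (m + 1) := by ring
  omega

/-- A colouring of `ℝⁿ`, `n ≥ 3`, by sets with the Baire property in which no two points at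
distance one have the same colour has at least `(n² + n + 4) / 2` colours. -/
theorem main (n k : ℕ) (hn : 3 ≤ n) (A : Fin k → Set (EuclideanSpace ℝ (Fin n)))
    (hA : ∀ i, BaireMeasurableSet (A i)) (hcov : ∀ x, ∃ i, x ∈ A i)
    (hfree : ∀ i, ∀ x ∈ A i, ∀ y ∈ A i, dist x y ≠ 1) : n ^ 2 + n + 4 ≤ 2 * k := by
  obtain ⟨U, hU, hUf, hUd⟩ := bp_open A hA hcov hfree
  have h := open_bound hn (finrank_euclideanSpace_fin) U hU hUf hUd
  rwa [Fintype.card_fin] at h

end BPQ
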