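import Pool.Agent.Work.MP_6b4466_lc.Step
import Pool.Agent.Work.MP_6b4466_lc.GeoE
import Pool.Agent.Work.MP_6b4466_lc.LebE
import Pool.Agent.Work.MP_6b4466_lc.Circ2

/-! The plane: disjoint open sets with dense union and without pairs at distance one are at
least five. There is a point `p` in the closures of two of them whose circles of radius `1` and `√3`
are both generic. If there are at most four sets, then two of them (those with `p` not in the
closure) have dense union on the unit circle around `p`, so they are exchanged there by the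
rotation by `π / 3`, and they do not meet the circle of radius `√3`: a point with angle `t` on it is
at distance one from the points with angles `t ± π / 6` of the unit circle. So the circle of radius
`√3` is coloured by the other two, which is impossible by `circle_gen` since `1 - 1 / 6 = 5 / 6`. -/

namespace BPQ

open Set Metric Topology

variable {V : Type} [NormedAddCommGroup V] [InnerProductSpace ℝ V] [FiniteDimensional ℝ V]

/-- The centres of non generic unit spheres are covered by countably many closed sets without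
nontrivial connected parts. -/
theorem bad_one (W : Set V) (hW : IsOpen W) (hWd : Dense W) :
    ∃ E : ℕ → Set V, (∀ m, IsClosed (E m)) ∧
      (∀ m, ∀ C ⊆ E m, IsPreconnected C → C.Subsingleton) ∧
      ∀ p, ¬ ({x | dist x p = 1} ⊆ closure ({x | dist x p = 1} ∩ W)) → ∃ m, p ∈ E m := by
  have : ProperSpace V := FiniteDimensional.proper ℝ V
  refine ⟨fun m =>
    {p | ∃ x ∈ univ ∩ closedBall (TopologicalSpace.denseSeq V (Nat.unpair m).1)
        (1 / ((Nat.unpair m).2 + 1 : ℝ)), dist x p = 1} ∩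
    {p | p ∈ univ ∧ ∀ x ∈ univ ∩ ball (TopologicalSpace.denseSeq V (Nat.unpair m).1)
        (2 * (1 / ((Nat.unpair m).2 + 1 : ℝ))) ∩ W, dist x p ≠ 1},
    fun m => ?_, fun m C hC hCp => ?_, fun p hp => ?_⟩
  · exact (closed_first isClosed_univ _ _).inter
      (closed_second lift_univ hW isClosed_univ subset_rfl _ _)
  · have hs : (0 : ℝ) < 1 / ((Nat.unpair m).2 + 1 : ℝ) := by positivity
    exact side_td side_univ (by rw [univ_inter, hWd.closure_eq]) hs hCp (subset_univ _)
      (fun p hp => (hC hp).1) (fun p hp => (hC hp).2.2)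
  · obtain ⟨x, hx1, hxn⟩ := Set.not_subset.1 hp
    rw [Metric.mem_closure_iff] at hxn
    push Not at hxn
    obtain ⟨ε, hε, hxn⟩ := hxn
    obtain ⟨l, hl⟩ := exists_nat_one_div_lt (show 0 < ε / 4 by linarith)
    have hs : (0 : ℝ) < 1 / ((l : ℝ) + 1) := by positivity
    obtain ⟨a, ha, hxa⟩ := Metric.mem_closure_iff.1
      ((TopologicalSpace.denseRange_denseSeq V) x) _ hs
    obtain ⟨k, rfl⟩ := ha
    refine ⟨Nat.pair k l, ?_⟩
    simp only [Nat.unpair_pair]
    refine ⟨⟨x, ⟨mem_univ _, ?_⟩, hx1⟩, mem_univ _, ?_⟩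
    · rw [mem_closedBall]
      exact hxa.le
    · rintro y ⟨⟨-, hya⟩, hyW⟩ hy1
      have h3 := hxn y ⟨hy1, hyW⟩
      rw [mem_ball] at hya
      have h4 := dist_triangle x (TopologicalSpace.denseSeq V k) y
      rw [dist_comm (TopologicalSpace.denseSeq V k) y] at h4
      linarith

/-- The same for spheres of radius `ρ`. -/
theorem bad_rad (ρ : ℝ) (hρ : 0 < ρ) (W : Set V) (hW : IsOpen W) (hWd : Dense W) :
    ∃ E : ℕ → Set V, (∀ m, IsClosed (E m)) ∧
      (∀ m, ∀ C ⊆ E m, IsPreconnected C → C.Subsingleton) ∧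
      ∀ p, ¬ ({x | dist x p = ρ} ⊆ closure ({x | dist x p = ρ} ∩ W)) → ∃ m, p ∈ E m := by
  have hρ0 : ρ ≠ 0 := hρ.ne'
  have hc : Continuous fun x : V => ρ • x := continuous_const_smul ρ
  have hc' : Continuous fun x : V => ρ⁻¹ • x := continuous_const_smul ρ⁻¹
  have hd : ∀ x y : V, dist (ρ • x) (ρ • y) = ρ * dist x y := fun x y => by
    rw [dist_smul₀, Real.norm_of_nonneg hρ.le]
  have hi : ∀ x : V, ρ • ρ⁻¹ • x = x := fun x => smul_inv_smul₀ hρ0 x
  have hi' : ∀ x : V, ρ⁻¹ • ρ • x = x := fun x => inv_smul_smul₀ hρ0 x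
  obtain ⟨E, hE1, hE2, hE3⟩ := bad_one {x : V | ρ • x ∈ W} (hW.preimage hc) (by
    intro x
    rw [_root_.mem_closure_iff]
    intro O hO hxO
    obtain ⟨y, hy1, hy2⟩ := hWd.inter_open_nonempty {y | ρ⁻¹ • y ∈ O} (hO.preimage hc')
      ⟨ρ • x, by change ρ⁻¹ • ρ • x ∈ O; rwa [hi']⟩
    refine ⟨ρ⁻¹ • y, hy1, ?_⟩
    change ρ • ρ⁻¹ • y ∈ W
    rwa [hi])
  refine ⟨fun m => {p | ρ⁻¹ • p ∈ E m}, fun m => (hE1 m).preimage hc', fun m C hC hCp => ?_,
    fun p hp => ?_⟩
  · have h1 := hE2 m ((fun x : V => ρ⁻¹ • x) '' C) (by rintro _ ⟨x, hx, rfl⟩; exact hC hx)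
      (hCp.image _ hc'.continuousOn)
    intro x hx y hy
    have h2 : ρ⁻¹ • x = ρ⁻¹ • y := h1 ⟨x, hx, rfl⟩ ⟨y, hy, rfl⟩
    rw [← hi x, h2, hi]
  · refine hE3 (ρ⁻¹ • p) fun hcon => hp fun x hx => ?_
    have h1 : ρ⁻¹ • x ∈ closure ({x | dist x (ρ⁻¹ • p) = 1} ∩ {x : V | ρ • x ∈ W}) := by
      refine hcon ?_
      have h2 := hd (ρ⁻¹ • x) (ρ⁻¹ • p)
      rw [hi, hi] at h2
      have h3 : dist x p = ρ := hx
      rw [h3] at h2
      change dist (ρ⁻¹ • x) (ρ⁻¹ • p) = 1
      have h4 : ρ * dist (ρ⁻¹ • x) (ρ⁻¹ • p) = ρ * 1 := by rw [mul_one]; exact h2.symm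
      exact mul_left_cancel₀ hρ0 h4
    have h5 : ρ • ρ⁻¹ • x ∈ closure ({x | dist x p = ρ} ∩ W) := by
      refine map_mem_closure hc h1 ?_
      rintro y ⟨hy1, hy2⟩
      refine ⟨?_, hy2⟩
      have h6 : dist y (ρ⁻¹ • p) = 1 := hy1
      change dist (ρ • y) p = ρ
      rw [← hi p, hd, h6, mul_one]
    rwa [hi] at h5

/-- A point in the closures of `d` colours whose spheres of radius `1` and `ρ` are both generic. -/
theorem two_step {d : ℕ} (hd : 1 ≤ d) (hV : Module.finrank ℝ V = d) (ρ : ℝ) (hρ : 0 < ρ)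
    {ι : Type} [Fintype ι] (U : ι → Set V) (hU : ∀ i, IsOpen (U i))
    (hfree : ∀ i, ∀ x ∈ U i, ∀ y ∈ U i, dist x y ≠ 1) (hdense : Dense (⋃ i, U i)) :
    ∃ p : V, d ≤ {i | p ∈ closure (U i)}.ncard ∧
      {x | dist x p = 1} ⊆ closure ({x | dist x p = 1} ∩ ⋃ i, U i) ∧
      {x | dist x p = ρ} ⊆ closure ({x | dist x p = ρ} ∩ ⋃ i, U i) := by
  classical
  have : ProperSpace V := FiniteDimensional.proper ℝ V
  by_contra hcon
  push Not at hcon
  set Z : Set V := closedBall 0 3 with hZdef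
  have hZ : IsCompact Z := isCompact_closedBall 0 3
  set F : ι → Set V := fun i => closure (U i) ∩ Z with hFdef
  have hFc : ∀ i, IsClosed (F i) := fun i => isClosed_closure.inter hZ.isClosed
  have hFs : ∀ i, Small (F i) := fun i C hC hCp => by
    have h1 := small_closure (S := (univ : Set V)) (U := U i) isClosed_univ lift_univ (hU i)
      (fun x hx y hy => hfree i x hx.1 y hy.1)
    rw [inter_univ] at h1
    exact h1 C (hC.trans inter_subset_left) hCp
  have hcov : ∀ x ∈ Z, ∃ i, x ∈ F i := by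
    intro x hx
    have h1 : x ∈ closure (⋃ i, U i) := hdense x
    rw [closure_iUnion_of_finite] at h1
    obtain ⟨i, hi⟩ := mem_iUnion.1 h1
    exact ⟨i, hi, hx⟩
  apply not_td hZ hd (leb_ball d hV) F hFc (fun i => inter_subset_right) hFs hcov
  have hWo : IsOpen (⋃ i, U i) := isOpen_iUnion hU
  obtain ⟨E₁, h11, h12, h13⟩ := bad_one (⋃ i, U i) hWo hdense
  obtain ⟨E₂, h21, h22, h23⟩ := bad_rad ρ hρ (⋃ i, U i) hWo hdense
  have hTc : IsCompact {x | x ∈ Z ∧ d ≤ {i | x ∈ F i}.ncard} :=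
    hZ.inter_right (closed_mult F hFc d)
  refine td_iUnion hTc (fun m => if (Nat.unpair m).1 = 0 then E₁ (Nat.unpair m).2 else
    E₂ (Nat.unpair m).2) (fun m => ?_) (fun p hp => ?_) (fun m => ?_)
  · split_ifs
    · exact h11 _
    · exact h21 _
  · have hp2 : d ≤ {i | p ∈ closure (U i)}.ncard :=
      hp.2.trans (Set.ncard_le_ncard (fun i hi => hi.1) (Set.toFinite _))
    by_cases h1 : {x | dist x p = 1} ⊆ closure ({x | dist x p = 1} ∩ ⋃ i, U i)
    · obtain ⟨m, hm⟩ := h23 p (hcon p hp2 h1)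
      refine mem_iUnion.2 ⟨Nat.pair 1 m, ?_⟩
      simp only [Nat.unpair_pair, one_ne_zero, if_false]
      exact hm
    · obtain ⟨m, hm⟩ := h13 p h1
      refine mem_iUnion.2 ⟨Nat.pair 0 m, ?_⟩
      simp only [Nat.unpair_pair, if_true]
      exact hm
  · intro C hC hCp
    by_cases hm : (Nat.unpair m).1 = 0
    · refine h12 (Nat.unpair m).2 C (fun x hx => ?_) hCp
      have := (hC hx).2
      rwa [if_pos hm] at this
    · refine h22 (Nat.unpair m).2 C (fun x hx => ?_) hCp
      have := (hC hx).2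
      rwa [if_neg hm] at this

/-- distance between the circles of radius `√3` and `1` -/
theorem c2_dist3 (e : OrthonormalBasis (Fin 2) ℝ V) (s t : ℝ) :
    dist (c2C e (Real.sqrt 3) s) (c2C e 1 t) ^ 2 = 4 - 2 * Real.sqrt 3 * Real.cos (s - t) := by
  have h1 : c2C e (Real.sqrt 3) s - c2C e 1 t =
      (Real.sqrt 3 * Real.cos s - 1 * Real.cos t) • e 0 +
      (Real.sqrt 3 * Real.sin s - 1 * Real.sin t) • e 1 := by
    unfold c2C
    rw [sub_smul, sub_smul]
    abel
  rw [dist_eq_norm, h1, c2_norm, Real.cos_sub]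
  have h2 := Real.sin_sq_add_cos_sq t
  have h3 := Real.sin_sq_add_cos_sq s
  have h4 : Real.sqrt 3 ^ 2 = 3 := Real.sq_sqrt (by norm_num)
  linear_combination h2 + Real.sqrt 3 ^ 2 * h3 + h4

theorem plane_bound (hV : Module.finrank ℝ V = 2) {ι : Type} [Fintype ι] (U : ι → Set V)
    (hU : ∀ i, IsOpen (U i)) (hfree : ∀ i, ∀ x ∈ U i, ∀ y ∈ U i, dist x y ≠ 1)
    (hdense : Dense (⋃ i, U i)) : 5 ≤ Fintype.card ι := by
  classical
  by_contra hcon
  have hs3 : (0 : ℝ) < Real.sqrt 3 := Real.sqrt_pos.2 (by norm_num)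
  have hs3' : Real.sqrt 3 ^ 2 = 3 := Real.sq_sqrt (by norm_num)
  obtain ⟨p, hp, hp1, hp3⟩ := two_step (V := V) (d := 2) (by norm_num) hV (Real.sqrt 3) hs3 U hU
    hfree hdense
  let e : OrthonormalBasis (Fin 2) ℝ V := (stdOrthonormalBasis ℝ V).reindex (finCongr hV)
  -- the colours far from `p`
  have hc1 : Fintype.card {i // ¬ p ∈ closure (U i)} + Fintype.card {i // p ∈ closure (U i)} =
      Fintype.card ι := by
    have h2 := Fintype.card_subtype_compl fun i => p ∈ closure (U i)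
    have h3 := Fintype.card_subtype_le fun i => p ∈ closure (U i)
    omega
  have hc2 : 2 ≤ Fintype.card {i // p ∈ closure (U i)} := by
    have h1 : {i | p ∈ closure (U i)}.ncard = Fintype.card {i // p ∈ closure (U i)} := by
      rw [← Nat.card_coe_set_eq, Nat.card_eq_fintype_card]
      rfl
    omega
  -- translation of circles
  have htr : ∀ ρ : ℝ, 0 < ρ → {x | dist x p = ρ} ⊆ closure ({x | dist x p = ρ} ∩ ⋃ i, U i) →
      Dense {t | p + c2C e ρ t ∈ ⋃ i, U i} := by
    intro ρ hρ h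
    refine c2_dense e ρ hρ {x | p + x ∈ ⋃ i, U i} fun x hx => ?_
    have h1 : p + x ∈ closure ({x | dist x p = ρ} ∩ ⋃ i, U i) := by
      refine h ?_
      change dist (p + x) p = ρ
      rw [dist_self_add_left]
      rwa [mem_sphere_zero_iff_norm] at hx
    rw [Metric.mem_closure_iff] at h1 ⊢
    intro ε hε
    obtain ⟨z, ⟨hz1, hz2⟩, hz3⟩ := h1 ε hε
    refine ⟨z - p, ⟨?_, ?_⟩, ?_⟩
    · rw [mem_sphere_zero_iff_norm, ← dist_eq_norm]
      exact hz1
    · change p + (z - p) ∈ ⋃ i, U i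
      rwa [add_sub_cancel]
    · have e1 : dist x (z - p) = dist (p + x) z := by
        rw [dist_eq_norm, dist_eq_norm]
        congr 1
        abel
      rwa [e1]
  have hpc : ∀ i t, p + c2C e 1 t ∈ U i → ¬ p ∈ closure (U i) := by
    intro i t ht hpi
    have h1 := closure_free (S := (univ : Set V)) lift_univ (hU i)
      (fun x hx y hy => hfree i x hx.1 y hy.1) (p := p) (x := p + c2C e 1 t)
      (by rwa [inter_univ]) (mem_univ _) ⟨ht, mem_univ _⟩
    refine h1 ?_
    rw [dist_self_add_left]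
    exact mem_sphere_zero_iff_norm.1 (c2_mem e 1 one_pos t)
  -- the unit circle
  have hWd : ∀ O : Set ℝ, IsOpen O → O.Nonempty → ∃ t ∈ O, ∃ i, ¬ p ∈ closure (U i) ∧
      p + c2C e 1 t ∈ U i := by
    intro O hO hOn
    obtain ⟨t, ht1, ht2⟩ := (htr 1 one_pos hp1).inter_open_nonempty O hO hOn
    obtain ⟨i, hi⟩ := mem_iUnion.1 ht2
    exact ⟨t, ht1, i, hpc i t hi, hi⟩
  have hWo : ∀ (i : ι) (ρ s : ℝ), IsOpen {t | p + c2C e ρ (t + s) ∈ U i} := by
    intro i ρ s
    refine (hU i).preimage ?_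
    exact continuous_const.add ((c2_cont e ρ).comp (continuous_id.add continuous_const))
  have hsixty : ∀ i s t, s - t = Real.pi / 3 → p + c2C e 1 s ∈ U i → ¬ p + c2C e 1 t ∈ U i := by
    intro i s t hst hs ht
    refine hfree i _ hs _ ht ?_
    rw [dist_add_left]
    have h1 := c2_dist e 1 s t
    rw [hst, Real.cos_pi_div_three] at h1
    have h2 : dist (c2C e 1 s) (c2C e 1 t) ^ 2 = 1 ^ 2 := by
      rw [h1]
      norm_num
    exact (pow_left_inj₀ dist_nonneg zero_le_one two_ne_zero).1 h2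
  have hthirty : ∀ i s t, (s - t = Real.pi / 6 ∨ s - t = -(Real.pi / 6)) →
      p + c2C e (Real.sqrt 3) s ∈ U i → ¬ p + c2C e 1 t ∈ U i := by
    intro i s t hst hs ht
    refine hfree i _ hs _ ht ?_
    rw [dist_add_left]
    have h1 := c2_dist3 e s t
    have hcos : Real.cos (s - t) = Real.sqrt 3 / 2 := by
      rcases hst with hst | hst
      · rw [hst, Real.cos_pi_div_six]
      · rw [hst, Real.cos_neg, Real.cos_pi_div_six]
    rw [hcos] at h1
    have h2 : dist (c2C e (Real.sqrt 3) s) (c2C e 1 t) ^ 2 = 1 ^ 2 := by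
      rw [h1]
      linear_combination - hs3'
    exact (pow_left_inj₀ dist_nonneg zero_le_one two_ne_zero).1 h2
  -- two far colours
  have hfar : ∃ a b : ι, a ≠ b ∧ ¬ p ∈ closure (U a) ∧ ¬ p ∈ closure (U b) := by
    obtain ⟨t, -, a, ha, hta⟩ := hWd univ isOpen_univ univ_nonempty
    obtain ⟨s, hs, b, hb, hsb⟩ := hWd {s | p + c2C e 1 (s + Real.pi / 3) ∈ U a}
      (hWo a 1 _) ⟨t - Real.pi / 3, by
        change p + c2C e 1 (t - Real.pi / 3 + Real.pi / 3) ∈ U a
        rwa [sub_add_cancel]⟩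
    refine ⟨a, b, ?_, ha, hb⟩
    rintro rfl
    exact hsixty a (s + Real.pi / 3) s (by ring) hs hsb
  have hc3 : 2 ≤ Fintype.card {i // ¬ p ∈ closure (U i)} := by
    obtain ⟨a, b, hab, ha, hb⟩ := hfar
    have h1 : ({⟨a, ha⟩, ⟨b, hb⟩} : Finset {i // ¬ p ∈ closure (U i)}).card = 2 :=
      Finset.card_pair (by
        intro h
        exact hab (congrArg Subtype.val h))
    rw [← h1]
    exact Finset.card_le_univ _
  have huniq : ∀ i j k : ι, ¬ p ∈ closure (U i) → ¬ p ∈ closure (U j) → ¬ p ∈ closure (U k) →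
      j ≠ i → k ≠ i → j = k := by
    intro i j k hi hj hk hji hki
    by_contra hjk
    have h1 : ({⟨i, hi⟩, ⟨j, hj⟩, ⟨k, hk⟩} : Finset {i // ¬ p ∈ closure (U i)}).card = 3 :=
      Finset.card_eq_three.2 ⟨_, _, _, fun h => hji (congrArg Subtype.val h).symm,
        fun h => hki (congrArg Subtype.val h).symm, fun h => hjk (congrArg Subtype.val h), rfl⟩
    have h2 := Finset.card_le_univ
      ({⟨i, hi⟩, ⟨j, hj⟩, ⟨k, hk⟩} : Finset {i // ¬ p ∈ closure (U i)})
    omega
  -- the far colours do not meet the circle of radius `√3`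
  have hJ : ∀ i t, ¬ p ∈ closure (U i) → ¬ p + c2C e (Real.sqrt 3) t ∈ U i := by
    intro i t hi ht
    obtain ⟨t', ht', j, hj, htj⟩ := hWd {s | p + c2C e (Real.sqrt 3) (s + Real.pi / 6) ∈ U i}
      (hWo i _ _) ⟨t - Real.pi / 6, by
        change p + c2C e (Real.sqrt 3) (t - Real.pi / 6 + Real.pi / 6) ∈ U i
        rwa [sub_add_cancel]⟩
    have hji : j ≠ i := by
      rintro rfl
      exact hthirty j _ _ (Or.inl (by ring)) ht' htj
    obtain ⟨t'', ht'', k, hk, htk⟩ := hWd
      ({s | p + c2C e (Real.sqrt 3) (s + -(Real.pi / 6)) ∈ U i} ∩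
        {s | p + c2C e 1 (s + -(Real.pi / 3)) ∈ U j})
      ((hWo i _ _).inter (hWo j _ _)) ⟨t' + Real.pi / 3, by
        change p + c2C e (Real.sqrt 3) (t' + Real.pi / 3 + -(Real.pi / 6)) ∈ U i
        rw [show t' + Real.pi / 3 + -(Real.pi / 6) = t' + Real.pi / 6 by ring]
        exact ht', by
        change p + c2C e 1 (t' + Real.pi / 3 + -(Real.pi / 3)) ∈ U j
        rw [show t' + Real.pi / 3 + -(Real.pi / 3) = t' by ring]
        exact htj⟩
    have hki : k ≠ i := by
      rintro rfl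
      exact hthirty k _ _ (Or.inr (by ring)) ht''.1 htk
    have hjk := huniq i j k hi hj hk hji hki
    subst hjk
    exact hsixty j t'' (t'' + -(Real.pi / 3)) (by ring) htk ht''.2
  -- the circle of radius `√3` has at most two colours
  have h3 := circle_gen (V := V) hV (5 / 6 : ℚ) (by norm_num) (by norm_num) (by
      push_cast
      intro h
      simp only [mem_insert_iff, mem_singleton_iff] at h
      norm_num at h) (Real.sqrt 3) hs3 (by rw [hs3']; norm_num)
    (ι := {i // p ∈ closure (U i)}) (fun i => {x | p + x ∈ U i})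
    (fun i => (hU i).preimage (continuous_const.add continuous_id))
    (fun i x hx y hy => by
      have := hfree i _ hx.1 _ hy.1
      rwa [dist_add_left] at this) (by
      intro x hx
      have h1 : p + x ∈ closure ({x | dist x p = Real.sqrt 3} ∩ ⋃ i, U i) := by
        refine hp3 ?_
        change dist (p + x) p = Real.sqrt 3
        rw [dist_self_add_left]
        rwa [mem_sphere_zero_iff_norm] at hx
      rw [Metric.mem_closure_iff] at h1 ⊢
      intro ε hε
      obtain ⟨z, ⟨hz1, hz2⟩, hz3⟩ := h1 ε hε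
      obtain ⟨i, hi⟩ := mem_iUnion.1 hz2
      have hzs : z - p ∈ sphere (0 : V) (Real.sqrt 3) := by
        rw [mem_sphere_zero_iff_norm, ← dist_eq_norm]
        exact hz1
      obtain ⟨φ, -, hφ⟩ := c2_param e (Real.sqrt 3) hs3 (z - p) hzs 0
      have hzz : p + (z - p) = z := add_sub_cancel p z
      have hiι : p ∈ closure (U i) := by
        by_contra hpi
        refine hJ i (0 + φ) hpi ?_
        rw [← hφ, hzz]
        exact hi
      refine ⟨z - p, ⟨hzs, mem_iUnion.2 ⟨⟨i, hiι⟩, ?_⟩⟩, ?_⟩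
      · change p + (z - p) ∈ U i
        rw [hzz]
        exact hi
      · have e1 : dist x (z - p) = dist (p + x) z := by
          rw [dist_eq_norm, dist_eq_norm]
          congr 1
          abel
        rwa [e1])
  omega

end BPQ
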