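import Pool.Agent.Work.MP_6b4466_lc.Main
import Pool.Agent.Work.MP_6b4466_lc.Plane
import Pool.Agent.Work.MP_6b4466_lc.BP2

/-! The theorem for all `n ≥ 2` and for graphs whose set of differences is dense in the unit
sphere. -/

namespace BPQ

open Set Metric Topology

/-- Let `D` be a set of vectors whose closure contains the unit sphere of `ℝⁿ`, `n ≥ 2`. A
colouring of a comeagre subset of `ℝⁿ` by sets with the Baire property in which no two points of the
same colour have their difference in `D` has at least `(n² + n + 4) / 2` colours. -/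
theorem main2 (n k : ℕ) (hn : 2 ≤ n) (D : Set (EuclideanSpace ℝ (Fin n)))
    (hD : sphere (0 : EuclideanSpace ℝ (Fin n)) 1 ⊆ closure D)
    (A : Fin k → Set (EuclideanSpace ℝ (Fin n)))
    (hA : ∀ i, BaireMeasurableSet (A i))
    (hcov : ∀ᶠ x in residual (EuclideanSpace ℝ (Fin n)), ∃ i, x ∈ A i)
    (hfree : ∀ i, ∀ x ∈ A i, ∀ y ∈ A i, y - x ∉ D) : n ^ 2 + n + 4 ≤ 2 * k := by
  obtain ⟨U, hU, hUf, hUd⟩ := bp_openD D hD A hA hcov hfree
  rcases Nat.lt_or_ge n 3 with h3 | h3
  · obtain rfl : n = 2 := by omega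
    have h := plane_bound (finrank_euclideanSpace_fin) U hU hUf hUd
    rw [Fintype.card_fin] at h
    omega
  · have h := open_bound h3 (finrank_euclideanSpace_fin) U hU hUf hUd
    rwa [Fintype.card_fin] at h

end BPQ
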