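import Pool.Agent.Work.MP_6b4466_lc.Defs

/-! If no point of the compact set `Z` lies in more than `d` of the closed sets `F i`, then for
some `η > 0` no point of `Z` is within `η` of more than `d` of them.

Proof. For each `I : Finset ι` with `I.card = d + 1` such that all `F i`, `i ∈ I`, are nonempty,
the function `x ↦ ∑ i ∈ I, infDist x (F i)` is continuous and positive on `Z`
(if it vanishes then `x ∈ F i` for all `i ∈ I`, `IsClosed.mem_iff_infDist_zero`), so it is
`≥ ε_I > 0` on `Z` (if `Z = ∅` take `1`). Let `η = min_I ε_I / (d + 1)` (finitely many `I`; `1` if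
there are none). If more than `d` indices `i` have a point of `F i` at distance `< η` from `x`,
choose `I` of size `d + 1` among them: the sum is `< (d + 1) η ≤ ε_I`, contradiction. -/

namespace BPQ

open Set Metric Topology

private theorem pos_lower {X : Type} [MetricSpace X] {Z : Set X} (hZ : IsCompact Z) {f : X → ℝ}
    (hf : Continuous f) (hp : ∀ x ∈ Z, 0 < f x) : ∃ ε > 0, ∀ x ∈ Z, ε ≤ f x := by
  rcases Z.eq_empty_or_nonempty with rfl | hne
  · exact ⟨1, one_pos, fun x hx => hx.elim⟩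
  · obtain ⟨x₀, hx₀, hmin⟩ := hZ.exists_isMinOn hne hf.continuousOn
    exact ⟨f x₀, hp x₀ hx₀, fun x hx => hmin hx⟩

theorem ord_unif {X : Type} [MetricSpace X] {Z : Set X} (hZ : IsCompact Z) {ι : Type} [Fintype ι]
    (F : ι → Set X) (hF : ∀ i, IsClosed (F i)) (d : ℕ)
    (hd : ∀ x ∈ Z, {i | x ∈ F i}.ncard ≤ d) :
    ∃ η > 0, ∀ x ∈ Z, {i | ∃ y ∈ F i, dist x y < η}.ncard ≤ d := by
  classical
  have key : ∀ I : Finset ι, ∃ ε > 0, I.card = d + 1 → (∀ i ∈ I, (F i).Nonempty) →
      ∀ x ∈ Z, ε ≤ ∑ i ∈ I, infDist x (F i) := by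
    intro I
    by_cases hI : I.card = d + 1 ∧ ∀ i ∈ I, (F i).Nonempty
    · have hcont : Continuous fun x => ∑ i ∈ I, infDist x (F i) :=
        continuous_finsetSum _ fun i _ => continuous_infDist_pt _
      obtain ⟨ε, hε, h⟩ := pos_lower hZ hcont fun x hx => by
        have h0 : 0 ≤ ∑ i ∈ I, infDist x (F i) := Finset.sum_nonneg fun i _ => infDist_nonneg
        refine lt_of_le_of_ne h0 fun he => ?_
        have h1 := (Finset.sum_eq_zero_iff_of_nonneg (fun i _ => infDist_nonneg)).1 he.symm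
        have h2 : (I : Set ι) ⊆ {i | x ∈ F i} := fun i hi =>
          ((hF i).mem_iff_infDist_zero (hI.2 i hi)).2 (h1 i hi)
        have h3 := Set.ncard_le_ncard h2 (Set.toFinite _)
        rw [Set.ncard_coe_finset, hI.1] at h3
        have := hd x hx
        omega
      exact ⟨ε, hε, fun _ _ => h⟩
    · exact ⟨1, one_pos, fun h1 h2 => (hI ⟨h1, h2⟩).elim⟩
  choose ε hε hεI using key
  obtain ⟨η, hη, hηI⟩ : ∃ η > 0, ∀ I : Finset ι, η * (d + 1) ≤ ε I := by
    obtain ⟨I₀, hI₀⟩ := Finite.exists_min ε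
    refine ⟨ε I₀ / (d + 1), div_pos (hε I₀) (by positivity), fun I => ?_⟩
    rw [div_mul_cancel₀ _ (by positivity)]
    exact hI₀ I
  refine ⟨η, hη, fun x hx => ?_⟩
  by_contra hcon
  push Not at hcon
  rw [Set.ncard_eq_toFinset_card'] at hcon
  obtain ⟨I, hI, hIc⟩ := Finset.exists_subset_card_eq (Nat.succ_le_of_lt hcon)
  have hmem : ∀ i ∈ I, ∃ y ∈ F i, dist x y < η := fun i hi => by
    have := hI hi
    rwa [Set.mem_toFinset] at this
  have h1 := hεI I hIc (fun i hi => by
    obtain ⟨y, hy, -⟩ := hmem i hi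
    exact ⟨y, hy⟩) x hx
  have h2 : ∑ i ∈ I, infDist x (F i) < ∑ i ∈ I, η := by
    refine Finset.sum_lt_sum_of_nonempty ?_ fun i hi => ?_
    · rw [← Finset.card_pos]
      omega
    · obtain ⟨y, hy, hxy⟩ := hmem i hi
      exact (infDist_le_dist_of_mem hy).trans_lt hxy
  rw [Finset.sum_const, hIc, nsmul_eq_mul] at h2
  have h3 := hηI I
  push_cast at h2
  nlinarith

end BPQ
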