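import Pool.Agent.Work.MP_6b4466_lc.Dec
import Pool.Agent.Work.MP_6b4466_lc.Ord

/-! The nerve map of a closed cover of multiplicity at most `d` by sets with small connected parts.

Proof. Put `δ = (ρ - 1) / 2`. Each `F i` is compact (closed subset of `Z`); `dec` with `c = 1`,
`c' = 1 + δ` gives `m i`, `κ i`, `η i`. `ord_unif` gives `η₀`. Let `η` be the minimum of `η₀`,
`δ` and all `η i / 2` (finitely many). For a pair `(i, a)`, `a : Fin (m i + 1)` (a sigma type, a
`Fintype`) let `Q i a = {x ∈ F i | κ i x = a}`; it is compact (closed: `κ i` is locally constant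
on `F i`) but this is not needed. If `Q i a` is nonempty choose `c i a ∈ Q i a` and put
`w i a x = max 0 (η - infDist x (Q i a))`, otherwise `w i a = 0` (and `c i a = 0`). These are
continuous; for `x ∈ Z`, `x ∈ F i` for some `i` so `w i (κ i x) x = η > 0` and the sum `W x` of all
weights is positive on `Z`. Let `g x = (W x)⁻¹ • ∑ w i a x • c i a`, and for `x ∈ Z` let `s` be the
image under `c` of the pairs with `w i a x > 0`. If `w i a x > 0` there is `y ∈ Q i a` with
`dist x y < η` (`infDist_lt_iff`), so `dist (c i a) x < (1 + δ) + η ≤ ρ`. For given `i` at most one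
`a` has `w i a x > 0`: two such points `y, y'` of `F i` have distance `< 2 η ≤ η i`, so
`κ i y = κ i y'`. Hence `s.card ≤ #{i | ∃ y ∈ F i, dist x y < η} ≤ d` (map a pair to its first
component, injective on the positive pairs). `g x` is a convex combination of `s`
(`Finset.centerMass_mem_convexHull`, terms with weight zero dropped). `P` = all `c i a` with
`Q i a` nonempty. -/

namespace BPQ

open Set Metric Topology

open Classical in
/-- weight of a set -/
private noncomputable def nerveW {V : Type} [NormedAddCommGroup V] (η : ℝ) (Q : Set V) (x : V) : ℝ :=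
  if Q.Nonempty then max 0 (η - infDist x Q) else 0

private theorem nerveW_nonneg {V : Type} [NormedAddCommGroup V] (η : ℝ) (Q : Set V) (x : V) :
    0 ≤ nerveW η Q x := by
  unfold nerveW
  split_ifs
  · exact le_max_left _ _
  · exact le_rfl

private theorem nerveW_cont {V : Type} [NormedAddCommGroup V] (η : ℝ) (Q : Set V) :
    Continuous (nerveW η Q) := by
  unfold nerveW
  by_cases h : Q.Nonempty
  · simp only [if_pos h]
    exact continuous_const.max (continuous_const.sub (continuous_infDist_pt Q))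
  · simp only [if_neg h]
    exact continuous_const

private theorem nerveW_pos {V : Type} [NormedAddCommGroup V] {η : ℝ} (hη : 0 < η) {Q : Set V}
    {x : V} (hx : x ∈ Q) : 0 < nerveW η Q x := by
  unfold nerveW
  rw [if_pos ⟨x, hx⟩, infDist_zero_of_mem hx, sub_zero]
  exact lt_max_of_lt_right hη

private theorem nerveW_ne {V : Type} [NormedAddCommGroup V] {η : ℝ} {Q : Set V}
    {x : V} (h : nerveW η Q x ≠ 0) : ∃ y ∈ Q, dist x y < η := by
  unfold nerveW at h
  by_cases hQ : Q.Nonempty
  · rw [if_pos hQ] at h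
    have h1 : infDist x Q < η := by
      by_contra h2
      push Not at h2
      exact h (max_eq_left (by linarith))
    exact (infDist_lt_iff hQ).1 h1
  · rw [if_neg hQ] at h
    exact absurd rfl h

theorem nerve {V : Type} [NormedAddCommGroup V] [NormedSpace ℝ V] {Z : Set V} (hZ : IsCompact Z)
    {ι : Type} [Fintype ι] (F : ι → Set V) (hF : ∀ i, IsClosed (F i)) (hFZ : ∀ i, F i ⊆ Z)
    (hs : ∀ i, Small (F i)) (hc : ∀ x ∈ Z, ∃ i, x ∈ F i) (d : ℕ)
    (hd : ∀ x ∈ Z, {i | x ∈ F i}.ncard ≤ d) (ρ : ℝ) (hρ : 1 < ρ) :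
    ∃ (P : Finset V) (g : V → V), (P : Set V) ⊆ Z ∧ ContinuousOn g Z ∧
      ∀ x ∈ Z, ∃ s ⊆ P, s.card ≤ d ∧ g x ∈ convexHull ℝ (s : Set V) ∧
        ∀ c ∈ s, dist c x < ρ := by
  classical
  have hδ : 0 < (ρ - 1) / 2 := by linarith
  have hdec := fun i => dec (hZ.of_isClosed_subset (hF i) (hFZ i)) (c := 1)
    (c' := 1 + (ρ - 1) / 2) zero_le_one (by linarith) (hs i)
  choose m κ η hη hκ using hdec
  obtain ⟨η₀, hη₀, hord⟩ := ord_unif hZ F hF d hd
  obtain ⟨e, he, hei⟩ : ∃ e > 0, ∀ i, e ≤ η i := by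
    rcases isEmpty_or_nonempty ι with h | h
    · exact ⟨1, one_pos, fun i => h.elim i⟩
    · obtain ⟨i0, hi0⟩ := Finite.exists_min η
      exact ⟨η i0, hη i0, hi0⟩
  set η' := min (min η₀ ((ρ - 1) / 2)) (e / 2) with hη'
  have hp : 0 < η' := lt_min (lt_min hη₀ hδ) (by positivity)
  have h1 : η' ≤ η₀ := (min_le_left _ _).trans (min_le_left _ _)
  have h2 : η' ≤ (ρ - 1) / 2 := (min_le_left _ _).trans (min_le_right _ _)
  have h3 : ∀ i, 2 * η' ≤ η i := fun i => by
    have : η' ≤ e / 2 := min_le_right _ _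
    linarith [hei i]
  let Q : (Σ i : ι, Fin (m i + 1)) → Set V := fun j => {x | x ∈ F j.1 ∧ κ j.1 x = j.2}
  let c : (Σ i : ι, Fin (m i + 1)) → V := fun j => if h : (Q j).Nonempty then h.choose else 0
  have hcQ : ∀ j, (Q j).Nonempty → c j ∈ Q j := fun j h => by
    show (if h : (Q j).Nonempty then h.choose else 0) ∈ Q j
    rw [dif_pos h]
    exact h.choose_spec
  let w : (Σ i : ι, Fin (m i + 1)) → V → ℝ := fun j => nerveW η' (Q j)
  have hwn : ∀ x j, 0 ≤ w j x := fun x j => nerveW_nonneg _ _ _
  have hW : ∀ x ∈ Z, 0 < ∑ j, w j x := by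
    intro x hx
    obtain ⟨i, hi⟩ := hc x hx
    refine Finset.sum_pos' (fun j _ => hwn x j) ⟨⟨i, κ i x⟩, Finset.mem_univ _, ?_⟩
    exact nerveW_pos hp ⟨hi, rfl⟩
  refine ⟨(Finset.univ.filter fun j => (Q j).Nonempty).image c,
    fun x => Finset.univ.centerMass (fun j => w j x) c, ?_, ?_, ?_⟩
  · intro x hx
    rw [Finset.mem_coe, Finset.mem_image] at hx
    obtain ⟨j, hj, rfl⟩ := hx
    exact hFZ _ (hcQ j (Finset.mem_filter.1 hj).2).1
  · unfold Finset.centerMass
    refine ContinuousOn.smul (ContinuousOn.inv₀ ?_ fun x hx => (hW x hx).ne') ?_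
    · exact (continuous_finsetSum _ fun j _ => nerveW_cont _ _).continuousOn
    · exact (continuous_finsetSum _ fun j _ =>
        (nerveW_cont _ _).smul continuous_const).continuousOn
  · intro x hx
    set T := Finset.univ.filter fun j => w j x ≠ 0 with hT
    have hTy : ∀ j ∈ T, ∃ y ∈ Q j, dist x y < η' := fun j hj =>
      nerveW_ne (Finset.mem_filter.1 hj).2
    refine ⟨T.image c, ?_, ?_, ?_, ?_⟩
    · refine Finset.image_subset_image fun j hj => ?_
      obtain ⟨y, hy, -⟩ := hTy j hj
      exact Finset.mem_filter.2 ⟨Finset.mem_univ _, ⟨y, hy⟩⟩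
    · refine Finset.card_image_le.trans ?_
      have hinj : Set.InjOn (Sigma.fst : (Σ i : ι, Fin (m i + 1)) → ι) (T : Set _) := by
        rintro ⟨i, a⟩ hj ⟨i', a'⟩ hj' hii
        have hii' : i = i' := hii
        subst hii'
        obtain ⟨y, hy, hxy⟩ := hTy _ hj
        obtain ⟨y', hy', hxy'⟩ := hTy _ hj'
        have h4 : dist y y' < η i := by
          have h5 := dist_triangle y x y'
          rw [dist_comm y x] at h5
          linarith [h3 i]
        have h6 := (hκ i y hy.1 y' hy'.1).1 h4
        have h7 : κ i y = a := hy.2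
        have h8 : κ i y' = a' := hy'.2
        rw [h7, h8] at h6
        rw [h6]
      rw [← Finset.card_image_of_injOn hinj, ← Set.ncard_coe_finset]
      refine (Set.ncard_le_ncard ?_ (Set.toFinite _)).trans (hord x hx)
      intro i hi
      rw [Finset.mem_coe, Finset.mem_image] at hi
      obtain ⟨j, hj, rfl⟩ := hi
      obtain ⟨y, hy, hxy⟩ := hTy j hj
      exact ⟨y, hy.1, hxy.trans_le h1⟩
    · show Finset.univ.centerMass (fun j => w j x) c ∈ convexHull ℝ ((T.image c : Finset V) : Set V)
      rw [← Finset.centerMass_filter_ne_zero]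
      refine Finset.centerMass_mem_convexHull _ (fun j _ => hwn x j) ?_ fun j hj =>
        Finset.mem_coe.2 (Finset.mem_image_of_mem c hj)
      rw [Finset.sum_filter_ne_zero]
      exact hW x hx
    · intro z hz
      obtain ⟨j, hj, rfl⟩ := Finset.mem_image.1 hz
      obtain ⟨y, hy, hxy⟩ := hTy j hj
      have hcj := hcQ j ⟨y, hy⟩
      have h4 := (hκ j.1 (c j) hcj.1 y hy.1).2 (hcj.2.trans hy.2.symm)
      have h5 := dist_triangle (c j) y x
      rw [dist_comm y x] at h5
      linarith

end BPQ
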