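import Pool.Agent.Work.MP_6b4466_lc.Step
import Pool.Agent.Work.MP_6b4466_lc.LebS
import Pool.Agent.Work.MP_6b4466_lc.GeoS
import Pool.Agent.Work.MP_6b4466_lc.Circ

/-! The recursion on spheres. -/

namespace BPQ

open Set Metric Topology
open scoped RealInnerProductSpace

theorem card_split {ι : Type} [Fintype ι] (P : ι → Prop) [DecidablePred P] {d : ℕ}
    (hd : d ≤ {i | P i}.ncard) : d + Fintype.card {i // ¬ P i} ≤ Fintype.card ι := by
  classical
  have h1 : {i | P i}.ncard = Fintype.card {i // P i} := by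
    rw [← Nat.card_coe_set_eq, Nat.card_eq_fintype_card]
    rfl
  have h2 := Fintype.card_subtype_compl P
  have h3 := Fintype.card_subtype_le P
  omega

theorem sphere_step {V : Type} [NormedAddCommGroup V] [InnerProductSpace ℝ V]
    [FiniteDimensional ℝ V] {d : ℕ} (hd : 1 ≤ d) (hV : Module.finrank ℝ V = d + 1) {r : ℝ}
    (hr : 0 < r) (hr2 : 1 / 2 < r ^ 2) {ι : Type} [Fintype ι] (U : ι → Set V)
    (hU : ∀ i, IsOpen (U i))
    (hfree : ∀ i, ∀ x ∈ U i ∩ sphere (0 : V) r, ∀ y ∈ U i ∩ sphere (0 : V) r, dist x y ≠ 1)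
    (hdense : sphere (0 : V) r ⊆ closure (sphere (0 : V) r ∩ ⋃ i, U i)) :
    ∃ (V' : Type) (_ : NormedAddCommGroup V') (_ : InnerProductSpace ℝ V')
      (_ : FiniteDimensional ℝ V') (ι' : Type) (_ : Fintype ι') (U' : ι' → Set V'),
      Module.finrank ℝ V' = d ∧ d + Fintype.card ι' ≤ Fintype.card ι ∧ (∀ i, IsOpen (U' i)) ∧
      (∀ i, ∀ x ∈ U' i ∩ sphere (0 : V') (Real.sqrt (1 - 1 / (4 * r ^ 2))),
        ∀ y ∈ U' i ∩ sphere (0 : V') (Real.sqrt (1 - 1 / (4 * r ^ 2))), dist x y ≠ 1) ∧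
      sphere (0 : V') (Real.sqrt (1 - 1 / (4 * r ^ 2))) ⊆
        closure (sphere (0 : V') (Real.sqrt (1 - 1 / (4 * r ^ 2))) ∩ ⋃ i, U' i) := by
  classical
  have hlift := lift_sphere (V := V) r hr hr2
  obtain ⟨p, hpS, hpd, hpn⟩ := step (S := sphere (0 : V) r) (Z := sphere (0 : V) r)
    isClosed_sphere (isCompact_sphere 0 r) subset_rfl hd (leb_sphere d hV r hr hr2) hlift
    (side_sphere r hr hr2) U hU hfree hdense
  have hp : ‖p‖ = r := by rwa [mem_sphere_zero_iff_norm] at hpS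
  have hp0 : p ≠ 0 := by
    rintro rfl
    rw [norm_zero] at hp
    exact hr.ne hp
  set α : ℝ := 1 - 1 / (2 * r ^ 2) with hα
  set r' : ℝ := Real.sqrt (1 - 1 / (4 * r ^ 2)) with hr'
  have hmem : ∀ y : (Submodule.span ℝ {p})ᗮ, y ∈ sphere (0 : (Submodule.span ℝ {p})ᗮ) r' →
      ‖α • p + (y : V)‖ = r ∧ dist (α • p + (y : V)) p = 1 := by
    intro y hy
    refine (circ_iff r hr hr2 p hp _).2 ⟨y, ?_, ?_, rfl⟩
    · exact Submodule.mem_orthogonal_singleton_iff_inner_right.1 y.2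
    · rw [mem_sphere_zero_iff_norm] at hy
      exact hy
  have hdist : ∀ y y' : (Submodule.span ℝ {p})ᗮ,
      dist (α • p + (y : V)) (α • p + (y' : V)) = dist y y' := by
    intro y y'
    rw [dist_add_left]
    rfl
  refine ⟨(Submodule.span ℝ {p})ᗮ, inferInstance, inferInstance, inferInstance,
    {i // ¬ p ∈ closure (U i ∩ sphere (0 : V) r)}, inferInstance,
    fun i => {y | α • p + (y : V) ∈ U i}, ?_, ?_, ?_, ?_, ?_⟩
  · haveI : Fact (Module.finrank ℝ V = d + 1) := ⟨hV⟩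
    exact Submodule.finrank_orthogonal_span_singleton hp0
  · exact card_split _ hpd
  · intro i
    refine (hU i).preimage ?_
    fun_prop
  · rintro i y ⟨hyU, hyS⟩ y' ⟨hyU', hyS'⟩
    rw [← hdist]
    refine hfree i _ ⟨hyU, ?_⟩ _ ⟨hyU', ?_⟩
    · rw [mem_sphere_zero_iff_norm]
      exact (hmem y hyS).1
    · rw [mem_sphere_zero_iff_norm]
      exact (hmem y' hyS').1
  · intro y hy
    have h1 := hmem y hy
    have h2 := hpn ⟨mem_sphere_zero_iff_norm.2 h1.1, h1.2⟩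
    rw [Metric.mem_closure_iff] at h2 ⊢
    intro ε hε
    obtain ⟨z, ⟨⟨hzS, hz1⟩, hzU⟩, hzd⟩ := h2 ε hε
    obtain ⟨i, hi⟩ := mem_iUnion.1 hzU
    obtain ⟨y', hy'p, hy'r, hzy⟩ :=
      (circ_iff r hr hr2 p hp z).1 ⟨mem_sphere_zero_iff_norm.1 hzS, hz1⟩
    have hiι : ¬ p ∈ closure (U i ∩ sphere (0 : V) r) := by
      intro hpc
      exact closure_free hlift (hU i) (hfree i) hpc hpS ⟨hi, hzS⟩ hz1
    have hy'mem : y' ∈ (Submodule.span ℝ {p})ᗮ :=
      Submodule.mem_orthogonal_singleton_iff_inner_right.2 hy'p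
    refine ⟨⟨y', hy'mem⟩, ⟨?_, ?_⟩, ?_⟩
    · rw [mem_sphere_zero_iff_norm]
      exact hy'r
    · refine mem_iUnion.2 ⟨⟨i, hiι⟩, ?_⟩
      change α • p + y' ∈ U i
      rw [← hzy]
      exact hi
    · rw [← hdist]
      change dist (α • p + (y : V)) (α • p + y') < ε
      rw [← hzy]
      exact hzd

theorem sphere_bound (d : ℕ) (hd : 1 ≤ d) : ∀ (j : ℕ), 1 ≤ j → 3 ≤ d + j →
    ∀ (V : Type) [NormedAddCommGroup V] [InnerProductSpace ℝ V] [FiniteDimensional ℝ V],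
    Module.finrank ℝ V = d + 1 → ∀ r : ℝ, 0 < r → r ^ 2 = ((j : ℝ) + 1) / (2 * j) →
    ∀ (ι : Type) [Fintype ι] (U : ι → Set V), (∀ i, IsOpen (U i)) →
    (∀ i, ∀ x ∈ U i ∩ sphere (0 : V) r, ∀ y ∈ U i ∩ sphere (0 : V) r, dist x y ≠ 1) →
    sphere (0 : V) r ⊆ closure (sphere (0 : V) r ∩ ⋃ i, U i) →
    d * (d + 1) + 4 ≤ 2 * Fintype.card ι := by
  induction d, hd using Nat.le_induction with
  | base =>
    intro j hj hdj V _ _ _ hV r hr hrj ι _ U hU hfree hdense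
    have hj0 : (0 : ℝ) < j := by exact_mod_cast hj
    have h := circle_base (V := V) hV (j + 1) (by omega) r hr (by
      rw [hrj]
      push_cast
      field_simp
      ring) U hU hfree hdense
    omega
  | succ d hd ih =>
    intro j hj hdj V _ _ _ hV r hr hrj ι _ U hU hfree hdense
    have hj0 : (0 : ℝ) < j := by exact_mod_cast hj
    have hr2 : 1 / 2 < r ^ 2 := by
      rw [hrj, div_lt_div_iff₀ (by norm_num) (by positivity)]
      linarith
    obtain ⟨V', i1, i2, i3, ι', i4, U', hV', hcard, hU', hfree', hdense'⟩ :=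
      sphere_step (d := d + 1) (by omega) hV hr hr2 U hU hfree hdense
    have hrr : 1 - 1 / (4 * r ^ 2) = ((j : ℝ) + 1 + 1) / (2 * (j + 1)) := by
      rw [hrj]
      field_simp
      ring
    have hpos : 0 < 1 - 1 / (4 * r ^ 2) := by
      rw [hrr]
      positivity
    have := ih (j + 1) (by omega) (by omega) V' hV' (Real.sqrt (1 - 1 / (4 * r ^ 2)))
      (Real.sqrt_pos.2 hpos) (by
        rw [Real.sq_sqrt hpos.le, hrr]
        push_cast
        ring) ι' U' hU' hfree' hdense'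
    have e : (d + 1) * (d + 1 + 1) = d * (d + 1) + 2 * (d + 1) := by ring
    omega

end BPQ
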