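import Pool.Agent.Work.MP_6b4466_lc.TopC
import Pool.Agent.Work.MP_6b4466_lc.BaireTD

/-! The main step: there is a point in the closures of `d` colours whose unit sphere is generic. -/

namespace BPQ

open Set Metric Topology

section

variable {X : Type} [MetricSpace X]

theorem closure_free {S U : Set X} (hS : Lift S) (hU : IsOpen U)
    (hfree : ∀ x ∈ U ∩ S, ∀ y ∈ U ∩ S, dist x y ≠ 1) {p x : X} (hp : p ∈ closure (U ∩ S))
    (hpS : p ∈ S) (hx : x ∈ U ∩ S) : dist x p ≠ 1 := by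
  intro h
  obtain ⟨ε, hε, hb⟩ := Metric.isOpen_iff.1 hU x hx.1
  obtain ⟨δ, hδ, hl⟩ := hS p hpS x hx.2 h ε hε
  obtain ⟨p', hp', hd⟩ := Metric.mem_closure_iff.1 hp δ hδ
  obtain ⟨x', hx'S, hx'd, hx'1⟩ := hl p' hp'.2 (by rwa [dist_comm])
  exact hfree x' ⟨hb hx'd, hx'S⟩ p' hp' hx'1

theorem small_closure {S U : Set X} (hSc : IsClosed S) (hS : Lift S) (hU : IsOpen U)
    (hfree : ∀ x ∈ U ∩ S, ∀ y ∈ U ∩ S, dist x y ≠ 1) : Small (closure (U ∩ S)) := by
  intro C hC hCp p hp q hq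
  by_contra hlt
  push Not at hlt
  obtain ⟨x, hx, hd⟩ := Metric.mem_closure_iff.1 (hC hp) (min 1 (dist p q - 1))
    (lt_min one_pos (by linarith))
  have hd1 : dist p x < 1 := hd.trans_le (min_le_left _ _)
  have hd2 : dist p x < dist p q - 1 := hd.trans_le (min_le_right _ _)
  have h1 : dist x p < 1 := by rwa [dist_comm]
  have h2 : 1 < dist x q := by
    have := dist_triangle p x q
    linarith
  have hiv := hCp.intermediate_value hp hq (f := fun y => dist x y)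
    (continuous_const.dist continuous_id).continuousOn
  obtain ⟨p', hp', he⟩ := hiv ⟨h1.le, h2.le⟩
  exact closure_free hS hU hfree (hC hp') (closure_minimal inter_subset_right hSc (hC hp')) hx he

theorem closed_mult {ι : Type} [Fintype ι] (F : ι → Set X) (hF : ∀ i, IsClosed (F i)) (d : ℕ) :
    IsClosed {x | d ≤ {i | x ∈ F i}.ncard} := by
  classical
  have h : {x | d ≤ {i | x ∈ F i}.ncard} =
      ⋃ I ∈ (Finset.univ.powersetCard d : Finset (Finset ι)), ⋂ i ∈ I, F i := by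
    ext x
    simp only [mem_ofPred_eq, mem_iUnion, mem_iInter, Finset.mem_powersetCard, exists_prop]
    constructor
    · intro hx
      rw [Set.ncard_eq_toFinset_card'] at hx
      obtain ⟨I, hI, hIc⟩ := Finset.exists_subset_card_eq hx
      refine ⟨I, ⟨Finset.subset_univ _, hIc⟩, fun i hi => ?_⟩
      have := hI hi
      rwa [Set.mem_toFinset] at this
    · rintro ⟨I, ⟨-, hIc⟩, hI⟩
      rw [← hIc, ← Set.ncard_coe_finset]
      exact Set.ncard_le_ncard (fun i hi => hI i hi) (Set.toFinite _)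
  rw [h]
  refine Set.Finite.isClosed_biUnion (Finset.finite_toSet _) fun I _ => ?_
  exact isClosed_biInter fun i _ => hF i

theorem side_td {S W : Set X} (hside : Side S) (hdense : S ⊆ closure (S ∩ W)) {a : X} {s : ℝ}
    (hs : 0 < s) {C : Set X} (hC : IsPreconnected C) (hCS : C ⊆ S)
    (h1 : ∀ p ∈ C, ∃ x ∈ S ∩ closedBall a s, dist x p = 1)
    (h2 : ∀ p ∈ C, ∀ x ∈ S ∩ ball a (2 * s) ∩ W, dist x p ≠ 1) : C.Subsingleton := by
  intro p₀ hp₀ p₁ hp₁
  by_contra hne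
  obtain ⟨x, ⟨hxS, hxa⟩, hx1⟩ := h1 p₀ hp₀
  obtain ⟨x', hx'S, hx'd, hx'p⟩ := hside p₀ (hCS hp₀) p₁ (hCS hp₁) hne x hxS hx1 s hs
  have hcont : Continuous fun y : X => (dist y p₀ - 1) * (dist y p₁ - 1) := by fun_prop
  have hO : IsOpen (ball a (2 * s) ∩ {y : X | (dist y p₀ - 1) * (dist y p₁ - 1) < 0}) :=
    isOpen_ball.inter (isOpen_lt hcont continuous_const)
  have hx'O : x' ∈ ball a (2 * s) ∩ {y : X | (dist y p₀ - 1) * (dist y p₁ - 1) < 0} := by
    refine ⟨?_, hx'p⟩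
    rw [mem_ball]
    have h3 := dist_triangle x' x a
    rw [mem_closedBall] at hxa
    linarith
  obtain ⟨y, ⟨hya, hyp⟩, hyS, hyW⟩ := mem_closure_iff.1 (hdense hx'S) _ hO hx'O
  have hiv : ∃ p ∈ C, dist y p = 1 := by
    have hf : ContinuousOn (fun p => dist y p) C :=
      (continuous_const.dist continuous_id).continuousOn
    have hyp' : (dist y p₀ - 1) * (dist y p₁ - 1) < 0 := hyp
    rcases mul_neg_iff.1 hyp' with ⟨ha, hb⟩ | ⟨ha, hb⟩
    · obtain ⟨p, hp, he⟩ := hC.intermediate_value hp₁ hp₀ hf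
        (show (1 : ℝ) ∈ Icc (dist y p₁) (dist y p₀) from ⟨by linarith, by linarith⟩)
      exact ⟨p, hp, he⟩
    · obtain ⟨p, hp, he⟩ := hC.intermediate_value hp₀ hp₁ hf
        (show (1 : ℝ) ∈ Icc (dist y p₀) (dist y p₁) from ⟨by linarith, by linarith⟩)
      exact ⟨p, hp, he⟩
  obtain ⟨p, hp, he⟩ := hiv
  exact h2 p hp y ⟨⟨hyS, hya⟩, hyW⟩ he

theorem closed_first [ProperSpace X] {S : Set X} (hSc : IsClosed S) (a : X) (s : ℝ) :
    IsClosed {p : X | ∃ x ∈ S ∩ closedBall a s, dist x p = 1} := by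
  have hK : IsCompact (S ∩ closedBall a s) := (isCompact_closedBall a s).inter_left hSc
  have h : {p : X | ∃ x ∈ S ∩ closedBall a s, dist x p = 1} =
      Prod.snd '' (((S ∩ closedBall a s) ×ˢ (univ : Set X)) ∩ {q : X × X | dist q.1 q.2 = 1}) := by
    ext p
    constructor
    · rintro ⟨x, hx, hp⟩
      exact ⟨(x, p), ⟨⟨hx, mem_univ _⟩, hp⟩, rfl⟩
    · rintro ⟨⟨x, q⟩, ⟨⟨hx, -⟩, hp⟩, rfl⟩
      exact ⟨x, hx, hp⟩
  -- closedness via sequences
  refine isClosed_of_closure_subset fun p hp => ?_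
  rw [mem_closure_iff_seq_limit] at hp
  obtain ⟨u, hu, hup⟩ := hp
  choose x hx hx1 using hu
  obtain ⟨x₀, hx₀, φ, hφ, hlim⟩ := hK.tendsto_subseq hx
  refine ⟨x₀, hx₀, ?_⟩
  have h1 : Filter.Tendsto (fun n => dist (x (φ n)) (u (φ n))) Filter.atTop (𝓝 (dist x₀ p)) :=
    hlim.dist (hup.comp hφ.tendsto_atTop)
  have h2 : (fun n => dist (x (φ n)) (u (φ n))) = fun _ => (1 : ℝ) := funext fun n => hx1 (φ n)
  rw [h2] at h1
  exact tendsto_nhds_unique h1 tendsto_const_nhds |>.symm ▸ rfl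

theorem closed_second {S Z W : Set X} (hS : Lift S) (hW : IsOpen W) (hZ : IsClosed Z)
    (hZS : Z ⊆ S) (a : X) (s : ℝ) :
    IsClosed {p : X | p ∈ Z ∧ ∀ x ∈ S ∩ ball a s ∩ W, dist x p ≠ 1} := by
  refine isClosed_of_closure_subset fun p hp => ?_
  have hpZ : p ∈ Z := closure_minimal (fun q hq => hq.1) hZ hp
  refine ⟨hpZ, fun x hx h1 => ?_⟩
  obtain ⟨⟨hxS, hxa⟩, hxW⟩ := hx
  obtain ⟨ε, hε, hb⟩ := Metric.isOpen_iff.1 ((isOpen_ball (x := a) (ε := s)).inter hW) x ⟨hxa, hxW⟩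
  obtain ⟨δ, hδ, hl⟩ := hS p (hZS hpZ) x hxS h1 ε hε
  obtain ⟨p', hp', hd⟩ := Metric.mem_closure_iff.1 hp δ hδ
  obtain ⟨x', hx'S, hx'd, hx'1⟩ := hl p' (hZS hp'.1) (by rwa [dist_comm])
  have hx' := hb hx'd
  exact hp'.2 x' ⟨⟨hx'S, hx'.1⟩, hx'.2⟩ hx'1

end

/-- The main step. -/
theorem step {X : Type} [MetricSpace X] [ProperSpace X] {S Z : Set X} (hSc : IsClosed S)
    (hZ : IsCompact Z) (hZS : Z ⊆ S) {d : ℕ} (hd : 1 ≤ d) (hleb : Leb Z d) (hlift : Lift S)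
    (hside : Side S) {ι : Type} [Fintype ι] (U : ι → Set X) (hU : ∀ i, IsOpen (U i))
    (hfree : ∀ i, ∀ x ∈ U i ∩ S, ∀ y ∈ U i ∩ S, dist x y ≠ 1)
    (hdense : S ⊆ closure (S ∩ ⋃ i, U i)) :
    ∃ p ∈ Z, d ≤ {i | p ∈ closure (U i ∩ S)}.ncard ∧
      {x | x ∈ S ∧ dist x p = 1} ⊆ closure ({x | x ∈ S ∧ dist x p = 1} ∩ ⋃ i, U i) := by
  classical
  by_contra hcon
  push Not at hcon
  set F : ι → Set X := fun i => closure (U i ∩ S) ∩ Z with hFdef
  have hFc : ∀ i, IsClosed (F i) := fun i => isClosed_closure.inter hZ.isClosed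
  have hFZ : ∀ i, F i ⊆ Z := fun i => inter_subset_right
  have hFs : ∀ i, Small (F i) := fun i C hC hCp =>
    small_closure hSc hlift (hU i) (hfree i) C (hC.trans inter_subset_left) hCp
  have hcov : ∀ x ∈ Z, ∃ i, x ∈ F i := by
    intro x hx
    have h1 := hdense (hZS hx)
    have h2 : S ∩ ⋃ i, U i = ⋃ i, U i ∩ S := by
      rw [inter_iUnion]
      exact iUnion_congr fun i => inter_comm _ _
    rw [h2, closure_iUnion_of_finite] at h1
    obtain ⟨i, hi⟩ := mem_iUnion.1 h1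
    exact ⟨i, hi, hx⟩
  have hT := not_td hZ hd hleb F hFc hFZ hFs hcov
  apply hT
  set T : Set X := {x | x ∈ Z ∧ d ≤ {i | x ∈ F i}.ncard} with hTdef
  rcases T.eq_empty_or_nonempty with hTe | ⟨t₀, ht₀⟩
  · rw [hTe]
    exact isTotallyDisconnected_empty
  have hXne : Nonempty X := ⟨t₀⟩
  have hTc : IsCompact T := hZ.inter_right (closed_mult F hFc d)
  set E : ℕ → Set X := fun m =>
    {p | ∃ x ∈ S ∩ closedBall (TopologicalSpace.denseSeq X (Nat.unpair m).1)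
        (1 / ((Nat.unpair m).2 + 1 : ℝ)), dist x p = 1} ∩
    {p | p ∈ Z ∧ ∀ x ∈ S ∩ ball (TopologicalSpace.denseSeq X (Nat.unpair m).1)
        (2 * (1 / ((Nat.unpair m).2 + 1 : ℝ))) ∩ ⋃ i, U i, dist x p ≠ 1} with hEdef
  refine td_iUnion hTc E (fun m => ?_) (fun p hp => ?_) (fun m => ?_)
  · exact (closed_first hSc _ _).inter
      (closed_second hlift (isOpen_iUnion hU) hZ.isClosed hZS _ _)
  · have hp2 : d ≤ {i | p ∈ closure (U i ∩ S)}.ncard :=
      hp.2.trans (Set.ncard_le_ncard (fun i hi => hi.1) (Set.toFinite _))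
    obtain ⟨x, ⟨hxS, hx1⟩, hxn⟩ := Set.not_subset.1 (hcon p hp.1 hp2)
    rw [Metric.mem_closure_iff] at hxn
    push Not at hxn
    obtain ⟨ε, hε, hxn⟩ := hxn
    obtain ⟨l, hl⟩ := exists_nat_one_div_lt (show 0 < ε / 4 by linarith)
    have hs : (0 : ℝ) < 1 / ((l : ℝ) + 1) := by positivity
    obtain ⟨a, ha, hxa⟩ := Metric.mem_closure_iff.1
      ((TopologicalSpace.denseRange_denseSeq X) x) _ hs
    obtain ⟨k, rfl⟩ := ha
    refine mem_iUnion.2 ⟨Nat.pair k l, ?_⟩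
    simp only [hEdef, Nat.unpair_pair]
    refine ⟨⟨x, ⟨hxS, ?_⟩, hx1⟩, hp.1, ?_⟩
    · rw [mem_closedBall]
      exact hxa.le
    · rintro y ⟨⟨hyS, hya⟩, hyW⟩ hy1
      have h3 := hxn y ⟨⟨hyS, hy1⟩, hyW⟩
      rw [mem_ball] at hya
      have h4 := dist_triangle x (TopologicalSpace.denseSeq X k) y
      rw [dist_comm (TopologicalSpace.denseSeq X k) y] at h4
      linarith
  · intro C hC hCp
    have hs : (0 : ℝ) < 1 / ((Nat.unpair m).2 + 1 : ℝ) := by positivity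
    exact side_td hside hdense hs hCp (fun p hp => hZS (hC hp).1.1)
      (fun p hp => (hC hp).2.1) (fun p hp => (hC hp).2.2.2)

end BPQ
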