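import Pool.Agent.Work.MP_6b4466_lc.Dec

/-! In the situation of the Lebesgue covering theorem the set of points of multiplicity at least
`d` is not totally disconnected.

Proof. Let `T = {x ∈ Z | d ≤ {i | x ∈ F i}.ncard}` and suppose it is totally disconnected. `T` is
compact (closed: a union over finsets `I` with `I.card = d` of `Z ∩ ⋂ i ∈ I, F i`). If `T = ∅` all
multiplicities are `< d`, contradicting `Leb`. Otherwise `dec` for `A = T`, `c = 0`, `c' = 1 / 4`
(preconnected subsets of `T` are subsingletons) gives `m`, `κ`, `η₀`. Put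
`η = min (η₀ / 8) (1 / 8)`, and consider the cover indexed by `Option ι`:
`F' none = {x ∈ Z | infDist x T ≤ η}`, `F' (some i) = {x ∈ F i | η ≤ infDist x T}`. These are closed
subsets of `Z` covering `Z`. A point with `infDist x T < η` is only in `F' none` (multiplicity
`1 ≤ d`), a point with `infDist x T ≥ η > 0` is not in `T` so it is in at most `d - 1` of the `F i`
and multiplicity in `F'` is `≤ d` (`none` may be added). `F' (some i)` is small as a subset of
`F i`. `F' none` is small: for `x ∈ F' none` choose `t x ∈ T` with `dist x (t x) ≤ η`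
(compactness, `IsCompact.exists_infDist_eq_dist`). If `x, y ∈ F' none` have `dist x y < η₀ / 2` then
`dist (t x) (t y) < η₀`, so `κ (t x) = κ (t y)`; hence for `C ⊆ F' none` preconnected the locally
constant function `κ ∘ t` on `C` is constant (for instance by `IsPreconnected` applied to the open
sets `⋃ x ∈ C, κ (t x) = a, ball x (η₀/4)` and the union of the others), and
`dist x y ≤ dist (t x) (t y) + 2 η < 1 / 4 + 1 / 4`. So `Leb` gives a point in `d + 1` sets of `F'`,
contradiction. -/

namespace BPQ

open Set Metric Topology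

private theorem topc_closed_mult {X : Type} [MetricSpace X] {ι : Type} [Fintype ι]
    (F : ι → Set X) (hF : ∀ i, IsClosed (F i)) (d : ℕ) :
    IsClosed {x | d ≤ {i | x ∈ F i}.ncard} := by
  classical
  have h : {x | d ≤ {i | x ∈ F i}.ncard} =
      ⋃ I ∈ (Finset.univ.powersetCard d : Finset (Finset ι)), ⋂ i ∈ I, F i := by
    ext x
    simp only [mem_ofPred_eq, mem_iUnion, mem_iInter, Finset.mem_powersetCard, exists_prop]
    constructor
    · intro hx
      rw [Set.ncard_eq_toFinset_card'] at hx
      obtain ⟨I, hI, hIc⟩ := Finset.exists_subset_card_eq hx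
      refine ⟨I, ⟨Finset.subset_univ _, hIc⟩, fun i hi => ?_⟩
      have := hI hi
      rwa [Set.mem_toFinset] at this
    · rintro ⟨I, ⟨-, hIc⟩, hI⟩
      rw [← hIc, ← Set.ncard_coe_finset]
      exact Set.ncard_le_ncard (fun i hi => hI i hi) (Set.toFinite _)
  rw [h]
  refine Set.Finite.isClosed_biUnion (Finset.finite_toSet _) fun I _ => ?_
  exact isClosed_biInter fun i _ => hF i

theorem not_td {X : Type} [MetricSpace X] {Z : Set X} (hZ : IsCompact Z) {d : ℕ} (hd : 1 ≤ d)
    (hL : Leb Z d) {ι : Type} [Fintype ι] (F : ι → Set X) (hF : ∀ i, IsClosed (F i))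
    (hFZ : ∀ i, F i ⊆ Z) (hs : ∀ i, Small (F i)) (hc : ∀ x ∈ Z, ∃ i, x ∈ F i) :
    ¬ IsTotallyDisconnected {x ∈ Z | d ≤ {i | x ∈ F i}.ncard} := by
  classical
  intro htd
  set T : Set X := {x ∈ Z | d ≤ {i | x ∈ F i}.ncard} with hTdef
  have hTc : IsCompact T := hZ.inter_right (topc_closed_mult F hF d)
  rcases T.eq_empty_or_nonempty with hTe | hTne
  · obtain ⟨x, hx, hxd⟩ := hL ι F hF hFZ hs hc
    have : x ∈ T := ⟨hx, by omega⟩
    rw [hTe] at this
    exact this
  obtain ⟨m, κ, η₀, hη₀, hκ⟩ := dec hTc (c := 0) (c' := 1 / 4) le_rfl (by norm_num)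
    (fun C hC hCp x hx y hy => by rw [htd C hC hCp hx hy, dist_self])
  set η : ℝ := min (η₀ / 8) (1 / 8) with hη
  have hη1 : η ≤ η₀ / 8 := min_le_left _ _
  have hη2 : η ≤ 1 / 8 := min_le_right _ _
  have hη3 : 0 < η := lt_min (by linarith) (by norm_num)
  have hcont : Continuous fun x : X => infDist x T := continuous_infDist_pt T
  let F' : Option ι → Set X := fun j => match j with
    | none => {x | x ∈ Z ∧ infDist x T ≤ η}
    | some i => {x | x ∈ F i ∧ η ≤ infDist x T}
  have hF'c : ∀ j, IsClosed (F' j) := by
    intro j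
    cases j with
    | none => exact hZ.isClosed.inter (isClosed_le hcont continuous_const)
    | some i => exact (hF i).inter (isClosed_le continuous_const hcont)
  have hF'Z : ∀ j, F' j ⊆ Z := by
    intro j
    cases j with
    | none => exact fun x hx => hx.1
    | some i => exact fun x hx => hFZ i hx.1
  have hF's : ∀ j, Small (F' j) := by
    intro j
    cases j with
    | some i => exact fun C hC hCp => hs i C (fun x hx => (hC hx).1) hCp
    | none =>
      intro C hC hCp x hx y hy
      have ht : ∀ z : X, ∃ t ∈ T, infDist z T = dist z t := fun z =>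
        hTc.exists_infDist_eq_dist hTne z
      choose t ht1 ht2 using ht
      have hd1 : ∀ z ∈ C, dist z (t z) ≤ η := by
        intro z hz
        rw [← ht2]
        exact (hC hz).2
      have hloc : ContinuousOn (fun z => κ (t z)) C := by
        intro z hz
        refine ContinuousWithinAt.congr_of_eventuallyEq
          (f := fun _ => κ (t z)) continuousWithinAt_const ?_ rfl
        have hn : C ∩ ball z (η₀ / 2) ∈ 𝓝[C] z := by
          exact Filter.inter_mem self_mem_nhdsWithin
            (mem_nhdsWithin_of_mem_nhds (ball_mem_nhds z (by linarith)))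
        filter_upwards [hn] with w hw
        have hwz : dist w z < η₀ / 2 := hw.2
        refine ((hκ (t w) (ht1 w) (t z) (ht1 z)).1 ?_)
        have h1 := dist_triangle (t w) w (t z)
        have h2 := dist_triangle w z (t z)
        have h3 := hd1 w hw.1
        have h4 := hd1 z hz
        rw [dist_comm] at h3
        linarith
      have hk := hCp.constant hloc hx hy
      have h5 := (hκ (t x) (ht1 x) (t y) (ht1 y)).2 hk
      have h1 := dist_triangle x (t x) y
      have h2 := dist_triangle (t x) (t y) y
      have h3 := hd1 x hx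
      have h4 := hd1 y hy
      rw [dist_comm] at h4
      linarith
  have hF'cov : ∀ x ∈ Z, ∃ j, x ∈ F' j := by
    intro x hx
    rcases le_total (infDist x T) η with h | h
    · exact ⟨none, hx, h⟩
    · obtain ⟨i, hi⟩ := hc x hx
      exact ⟨some i, hi, h⟩
  obtain ⟨x, hx, hxd⟩ := hL (Option ι) F' hF'c hF'Z hF's hF'cov
  rcases lt_or_ge (infDist x T) η with h | h
  · have hsub : {j | x ∈ F' j} ⊆ {none} := by
      intro j hj
      cases j with
      | none => rfl
      | some i => exact absurd hj.2 (not_le.2 h)
    have h1 := Set.ncard_le_ncard hsub (Set.toFinite _)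
    rw [Set.ncard_singleton] at h1
    omega
  · have hxT : x ∉ T := by
      intro hxT
      rw [infDist_zero_of_mem hxT] at h
      linarith
    have h0 : {i | x ∈ F i}.ncard < d := by
      by_contra hcon
      exact hxT ⟨hx, not_lt.1 hcon⟩
    have hsub : {j | x ∈ F' j} ⊆ insert none (some '' {i | x ∈ F i}) := by
      intro j hj
      cases j with
      | none => exact mem_insert _ _
      | some i => exact mem_insert_of_mem _ ⟨i, hj.1, rfl⟩
    have h1 := Set.ncard_le_ncard hsub (Set.toFinite _)
    have h2 := Set.ncard_insert_le (none : Option ι) (some '' {i | x ∈ F i})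
    have h3 := Set.ncard_image_le (s := {i | x ∈ F i}) (f := (some : ι → Option ι))
      (Set.toFinite _)
    omega

end BPQ
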